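import Pool.Agent.Lib.MP_a4c1f4_lc.Pad.Spec

set_option linter.all false

/-!
# The random hierarchy with noise families
-/

namespace Pool.Agent.MP_a4c1f4_lc.Pad

open Finset Pool.Agent.MP_a4c1f4_lc Pool.Agent.MP_a4c1f4_lc.Dbl

namespace AsmM

theorem num {L : ℝ} (hL : 0 ≤ L) :
    8 * (1 + m0 (2 * L + 2)) * (m0 (2 * L + 2) + 4) + 2 ≤ 322 * (1 + Real.log (1 + L)) ^ 2 := by
  have h1 : m0 (2 * L + 2) = 4 + Real.logb 2 (1 + L) := by
    unfold m0
    rw [max_eq_right (by linarith), show 2 * L + 2 = 2 * (1 + L) by ring,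
      Real.logb_mul (by norm_num) (by linarith), Real.logb_self_eq_one (by norm_num)]
    ring
  have h2 : 0 ≤ Real.log (1 + L) := Real.log_nonneg (by linarith)
  have h3 : Real.logb 2 (1 + L) ≤ 1.443 * Real.log (1 + L) := by
    unfold Real.logb
    have h4 := Real.log_two_gt_d9
    rw [div_le_iff₀ (by linarith)]
    nlinarith
  have h4 : 0 ≤ Real.logb 2 (1 + L) := Real.logb_nonneg (by norm_num) (by linarith)
  rw [h1]
  set u := Real.log (1 + L)
  set v := Real.logb 2 (1 + L)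
  have h5 : v * v ≤ (1.443 * u) * (1.443 * u) := mul_self_le_mul_self h4 h3
  nlinarith

end AsmM

open AsmM in
theorem asmP (h1 : RsProp) (h2 : FamQProp) (h3 : RanProp) : AsmProp := by
  intro S _ _ _ D β hD hβ hP
  obtain ⟨h, ρ, Ω, fΩ, w, rp, a, hw0, hw1, hA, hdist⟩ := h3 S D β hD hβ hP
  set L : ℝ := Real.log (Fintype.card S) with hL
  have hL0 : 0 ≤ L := Real.log_nonneg (by exact_mod_cast Fintype.card_pos)
  have hlb : 0 ≤ Real.log β := Real.log_nonneg hβ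
  refine ⟨Ω, Fin h × S, fΩ, inferInstance, inferInstance, w, fun ω => rs (rp ω) (a ω) h,
    h + eg (2 * L + 2), ρ, Fintype.card S, fun ω => qj (rp ω) (a ω) h,
    fun ω => amj (rp ω) (a ω) h, fun _ => ctj h, 8 * (1 + m0 (2 * L + 2)), m0 (2 * L + 2) + 4,
    hw0, hw1, fun ω => (h1 S D (rp ω) (a ω) h ρ _ hD (hA ω)).2.2.1,
    fun ω => h2 S D (rp ω) (a ω) h ρ _ hD (by linarith) (hA ω), num hL0, ?_⟩
  intro x y
  have e1 : ∑ ω, w ω * ∑ j ∈ range (h + eg (2 * L + 2)), 4 ^ (j + 1) * ρ *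
      ind (rs (rp ω) (a ω) h j x ≠ rs (rp ω) (a ω) h j y) ≤
      ∑ ω, w ω * (16 / 3 * ∑ k ∈ range h, 4 ^ (k + 1) * ρ *
        ((2 + a ω k (rp ω k x) + a ω k (rp ω k y)) * ind (rp ω k x ≠ rp ω k y))) :=
    Finset.sum_le_sum fun ω _ => mul_le_mul_of_nonneg_left
      ((h1 S D (rp ω) (a ω) h ρ _ hD (hA ω)).2.2.2 x y) (hw0 ω)
  have e2 : ∑ ω, w ω * (16 / 3 * ∑ k ∈ range h, 4 ^ (k + 1) * ρ *
        ((2 + a ω k (rp ω k x) + a ω k (rp ω k y)) * ind (rp ω k x ≠ rp ω k y))) =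
      16 / 3 * ∑ ω, w ω * ∑ k ∈ range h, 4 ^ (k + 1) * ρ *
        ((2 + a ω k (rp ω k x) + a ω k (rp ω k y)) * ind (rp ω k x ≠ rp ω k y)) := by
    rw [Finset.mul_sum]
    exact Finset.sum_congr rfl fun ω _ => by ring
  rw [e2] at e1
  have e3 := hdist x y
  have e4 : 0 ≤ β * (1 + Real.log β) * (1 + L) * D x y := by
    have := hD.nonneg x y
    positivity
  calc _ ≤ _ := e1
    _ ≤ 16 / 3 * (5900 * β * (1 + Real.log β) * (1 + L) * D x y) :=
        mul_le_mul_of_nonneg_left e3 (by norm_num)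
    _ ≤ 31500 * β * (1 + Real.log β) * (1 + L) * D x y := by nlinarith

end Pool.Agent.MP_a4c1f4_lc.Pad
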