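import Pool.Agent.Lib.MP_a4c1f4_lc.Pad.Spec

set_option linter.all false

/-!
Conditioning the rounds of one level on a good event of probability at least one half.
-/

namespace Pool.Agent.MP_a4c1f4_lc.Pad

open Finset Pool.Agent.MP_a4c1f4_lc Pool.Agent.MP_a4c1f4_lc.Dbl

namespace CndM

open Classical in
theorem sum_sub {Ω : Type} [Fintype Ω] (G : Ω → Prop) [Fintype {ω // G ω}] (f : Ω → ℝ) :
    ∑ a : {ω // G ω}, f a = ∑ a : Ω, f a * ind (G a) := by
  rw [← Finset.sum_subtype (Finset.univ.filter G)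
    (fun x => by rw [Finset.mem_filter]; exact ⟨fun H => H.2, fun H => ⟨Finset.mem_univ _, H⟩⟩) f,
    Finset.sum_filter]
  apply Finset.sum_congr rfl
  intro a _
  by_cases ha : G a
  · rw [if_pos ha, ind_true ha, mul_one]
  · rw [if_neg ha, ind_false ha, mul_zero]

theorem ind_compl (P : Prop) : ind P = 1 - ind (¬ P) := by
  by_cases h : P
  · rw [ind_true h, ind_false (not_not.mpr h)]
    norm_num
  · rw [ind_false h, ind_true h]
    norm_num

/-- The expectation of a nonnegative function at most doubles. -/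
theorem sum_sub_le {Ω : Type} [Fintype Ω] (G : Ω → Prop) [Fintype {ω // G ω}] (w F : Ω → ℝ)
    (Pg : ℝ) (hw : ∀ ω, 0 ≤ w ω) (hF : ∀ ω, 0 ≤ F ω) (hP : 1 / 2 ≤ Pg) :
    ∑ a : {ω // G ω}, w a / Pg * F a ≤ 2 * ∑ a : Ω, w a * F a := by
  rw [sum_sub G (fun a => w a / Pg * F a), Finset.mul_sum]
  apply Finset.sum_le_sum
  intro a _
  have h0 : 0 < Pg := by linarith
  have h1 : 0 ≤ w a * F a := mul_nonneg (hw a) (hF a)
  have h2 : w a / Pg * F a = (w a * F a) / Pg := by ring
  have h3 : (w a * F a) / Pg ≤ 2 * (w a * F a) := by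
    rw [div_le_iff₀ h0]
    nlinarith
  calc w a / Pg * F a * ind (G a) = (w a * F a) / Pg * ind (G a) := by rw [h2]
    _ ≤ (w a * F a) / Pg * 1 := mul_le_mul_of_nonneg_left (ind_le_one _) (by positivity)
    _ ≤ 2 * (w a * F a) := by rw [mul_one]; exact h3

/-- Union bound. -/
theorem ind_union {S Ω : Type} [Fintype S] (A : S → Prop) (B : S → S → Prop) :
    ind (¬ ((∀ x, ¬ A x) ∧ ∀ x y, ¬ B x y)) ≤ ∑ x, ind (A x) + ∑ x, ∑ y, ind (B x y) := by
  have h0 : 0 ≤ ∑ x, ind (A x) := Finset.sum_nonneg (fun x _ => ind_nonneg _)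
  have h0' : 0 ≤ ∑ x, ∑ y, ind (B x y) :=
    Finset.sum_nonneg (fun x _ => Finset.sum_nonneg (fun y _ => ind_nonneg _))
  by_cases hA : ∃ x, A x
  · obtain ⟨x, hx⟩ := hA
    have h1 : ind (A x) ≤ ∑ x, ind (A x) :=
      Finset.single_le_sum (f := fun x => ind (A x)) (fun x _ => ind_nonneg _) (Finset.mem_univ x)
    rw [ind_true hx] at h1
    have h2 := ind_le_one (¬ ((∀ x, ¬ A x) ∧ ∀ x y, ¬ B x y))
    linarith
  · by_cases hB : ∃ x y, B x y
    · obtain ⟨x, y, hxy⟩ := hB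
      have h1 : ind (B x y) ≤ ∑ y, ind (B x y) :=
        Finset.single_le_sum (f := fun y => ind (B x y)) (fun x _ => ind_nonneg _)
          (Finset.mem_univ y)
      have h2 : ∑ y, ind (B x y) ≤ ∑ x, ∑ y, ind (B x y) :=
        Finset.single_le_sum (f := fun x => ∑ y, ind (B x y))
          (fun x _ => Finset.sum_nonneg (fun y _ => ind_nonneg _)) (Finset.mem_univ x)
      rw [ind_true hxy] at h1
      have h3 := ind_le_one (¬ ((∀ x, ¬ A x) ∧ ∀ x y, ¬ B x y))
      linarith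
    · push Not at hA hB
      rw [ind_false (not_not.mpr ⟨hA, hB⟩)]
      linarith

theorem exists_n (m : ℕ) (hm : 1 ≤ m) : ∃ n : ℕ, 4 * m ≤ 4 ^ n ∧ 4 ^ n ≤ 16 * m := by
  have hex : ∃ n : ℕ, 4 * m ≤ 4 ^ n := ⟨m + 1, by
    have := Nat.lt_pow_self (n := m) (a := 4) (by norm_num)
    rw [pow_succ]
    omega⟩
  classical
  refine ⟨Nat.find hex, Nat.find_spec hex, ?_⟩
  have h0 : Nat.find hex ≠ 0 := by
    intro h
    have := Nat.find_spec hex
    rw [h, pow_zero] at this
    omega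
  obtain ⟨n, hn⟩ := Nat.exists_eq_succ_of_ne_zero h0
  have h1 := Nat.find_min hex (m := n) (by omega)
  rw [hn, Nat.succ_eq_add_one, pow_succ]
  omega

end CndM

open CndM

open Classical in
theorem cndP (h1 : RecProp) : CndProp := by
  intro S _ _ D β Δ hD hβ hΔ hP
  have hm : 1 ≤ Fintype.card S := Fintype.card_pos
  have hmR : (1 : ℝ) ≤ (Fintype.card S : ℝ) := by exact_mod_cast hm
  obtain ⟨n, hn1, hn2⟩ := exists_n (Fintype.card S) hm
  obtain ⟨Ω, iΩ, w, pt, M, hR⟩ := h1 S D β Δ hD hβ hΔ hP n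
  have hβ0 : 0 < β := by linarith
  set m : ℝ := (Fintype.card S : ℝ) with hmdef
  let G : Ω → Prop := fun ω => (∀ x, ¬ ((pt ω x).1 = n)) ∧
    ∀ x y, ¬ (100 * β * m ^ 2 * D x y ≤ Δ ∧ pt ω x ≠ pt ω y)
  -- probability of the complement
  have hbad : ∑ ω, w ω * ind (¬ G ω) ≤ 1 / 2 := by
    have e1 : ∑ ω, w ω * ind (¬ G ω) ≤ ∑ ω, w ω * (∑ x, ind ((pt ω x).1 = n) +
        ∑ x, ∑ y, ind (100 * β * m ^ 2 * D x y ≤ Δ ∧ pt ω x ≠ pt ω y)) := by
      apply Finset.sum_le_sum
      intro ω _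
      exact mul_le_mul_of_nonneg_left (ind_union (Ω := Ω) _ _) (hR.w0 ω)
    have e2 : ∑ ω, w ω * (∑ x, ind ((pt ω x).1 = n) +
        ∑ x, ∑ y, ind (100 * β * m ^ 2 * D x y ≤ Δ ∧ pt ω x ≠ pt ω y)) =
        ∑ x, ∑ ω, w ω * ind ((pt ω x).1 = n) +
        ∑ x, ∑ y, ∑ ω, w ω * ind (100 * β * m ^ 2 * D x y ≤ Δ ∧ pt ω x ≠ pt ω y) := by
      simp only [mul_add, Finset.mul_sum, Finset.sum_add_distrib]
      congr 1
      · rw [Finset.sum_comm]
      · rw [Finset.sum_comm]
        apply Finset.sum_congr rfl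
        intro x _
        rw [Finset.sum_comm]
    have e3 : ∑ x : S, ∑ ω, w ω * ind ((pt ω x).1 = n) ≤ 1 / 4 := by
      have : ∑ x : S, ∑ ω, w ω * ind ((pt ω x).1 = n) ≤ ∑ x : S, (1 / 4 : ℝ) ^ n :=
        Finset.sum_le_sum (fun x _ => hR.un x)
      refine this.trans ?_
      rw [Finset.sum_const, Finset.card_univ, nsmul_eq_mul, ← hmdef]
      have h4 : (4 * m : ℝ) ≤ 4 ^ n := by
        rw [hmdef]
        exact_mod_cast hn1
      rw [one_div, inv_pow, ← div_eq_mul_inv, div_le_iff₀ (by positivity)]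
      linarith
    have e4 : ∑ x : S, ∑ y : S, ∑ ω, w ω *
        ind (100 * β * m ^ 2 * D x y ≤ Δ ∧ pt ω x ≠ pt ω y) ≤ 64 / 300 := by
      have key : ∀ x y : S, ∑ ω, w ω *
          ind (100 * β * m ^ 2 * D x y ≤ Δ ∧ pt ω x ≠ pt ω y) ≤ 64 / 300 / m ^ 2 := by
        intro x y
        by_cases hc : 100 * β * m ^ 2 * D x y ≤ Δ
        · have h5 : ∑ ω, w ω * ind (100 * β * m ^ 2 * D x y ≤ Δ ∧ pt ω x ≠ pt ω y) ≤
              ∑ ω, w ω * ind (pt ω x ≠ pt ω y) := by
            apply Finset.sum_le_sum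
            intro ω _
            apply mul_le_mul_of_nonneg_left _ (hR.w0 ω)
            by_cases hne : pt ω x ≠ pt ω y
            · rw [ind_true hne]
              exact ind_le_one _
            · rw [ind_false (fun hh => hne hh.2)]
              exact ind_nonneg _
          refine h5.trans ((hR.sep x y).trans ?_)
          have h6 : 8 / 3 * (D x y / (Δ / (8 * β))) = 64 / 3 * β * D x y / Δ := by
            field_simp
            try ring
          rw [h6, div_le_div_iff₀ hΔ (by positivity)]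
          nlinarith
        · have h5 : ∀ ω, w ω * ind (100 * β * m ^ 2 * D x y ≤ Δ ∧ pt ω x ≠ pt ω y) = 0 := by
            intro ω
            rw [ind_false (fun hh => hc hh.1), mul_zero]
          rw [Finset.sum_congr rfl (fun ω _ => h5 ω), Finset.sum_const_zero]
          positivity
      have : ∑ x : S, ∑ y : S, ∑ ω, w ω *
          ind (100 * β * m ^ 2 * D x y ≤ Δ ∧ pt ω x ≠ pt ω y) ≤
          ∑ x : S, ∑ y : S, 64 / 300 / m ^ 2 :=
        Finset.sum_le_sum (fun x _ => Finset.sum_le_sum (fun y _ => key x y))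
      refine this.trans (le_of_eq ?_)
      simp only [Finset.sum_const, Finset.card_univ, nsmul_eq_mul, ← hmdef]
      field_simp
    rw [e2] at e1
    linarith
  set Pg : ℝ := ∑ ω, w ω * ind (G ω) with hPg
  have hPg2 : 1 / 2 ≤ Pg := by
    have : Pg = 1 - ∑ ω, w ω * ind (¬ G ω) := by
      rw [hPg, ← hR.w1, ← Finset.sum_sub_distrib]
      apply Finset.sum_congr rfl
      intro ω _
      rw [ind_compl (G ω)]
      ring
    linarith
  have hPg0 : 0 < Pg := by linarith
  have hlt : ∀ ω : {ω // G ω}, ∀ x, (pt ω x).1 < n := by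
    intro ω x
    exact lt_of_le_of_ne (hR.lt ω x) (ω.2.1 x)
  refine ⟨{ω // G ω}, inferInstance, fun ω => w ω / Pg, fun ω => pt ω, fun ω => M ω,
    ?_, ?_, ?_, ?_, ?_, ?_, ?_, ?_, ?_, ?_⟩
  · intro ω
    exact div_nonneg (hR.w0 _) hPg0.le
  · rw [← Finset.sum_div, sum_sub G w, ← hPg, div_self hPg0.ne']
  · intro ω x y hxy
    exact hR.diam ω x y (hlt ω x) hxy
  · intro ω x
    exact hR.core ω x (hlt ω x)
  · intro ω v
    have h2 := hR.kraft ω v
    rw [Finset.filter_true_of_mem] at h2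
    · exact h2
    · intro z hz
      rw [Finset.mem_image] at hz
      obtain ⟨x, hx, rfl⟩ := hz
      exact hlt ω x
  · intro ω x y hxy
    have := ω.2.2 x y
    by_contra hne
    exact this ⟨hxy, hne⟩
  · intro ω x
    have h2 : (4 : ℝ) ^ ((pt ω x).1 + 1) ≤ 4 ^ n :=
      pow_le_pow_right₀ (by norm_num) (hlt ω x)
    have h3 : (4 : ℝ) ^ n ≤ 16 * (Fintype.card S : ℝ) := by exact_mod_cast hn2
    exact h2.trans h3
  · intro x y
    have h2 := sum_sub_le G w (fun ω => ind (pt ω x ≠ pt ω y)) Pg hR.w0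
      (fun ω => ind_nonneg _) hPg2
    refine h2.trans ?_
    have h3 := hR.sep x y
    have h6 : 8 / 3 * (D x y / (Δ / (8 * β))) = 64 / 3 * (β * D x y / Δ) := by
      field_simp
      try ring
    have h7 : 0 ≤ β * D x y / Δ := by
      have := hD.nonneg x y
      positivity
    have h8 : 43 * β * D x y / Δ = 43 * (β * D x y / Δ) := by ring
    rw [h6] at h3
    rw [h8]
    linarith
  · intro x
    have h2 := sum_sub_le G w (fun ω => (((pt ω x).1 : ℝ) + 1)) Pg hR.w0
      (fun ω => by positivity) hPg2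
    refine h2.trans ?_
    have h3 := hR.ix x
    linarith
  · intro x y
    have h2 := sum_sub_le G w (fun ω => ind (pt ω x ≠ pt ω y) * (((pt ω x).1 : ℝ) + 1)) Pg hR.w0
      (fun ω => mul_nonneg (ind_nonneg _) (by positivity)) hPg2
    refine h2.trans ?_
    have h3 := hR.ixs x y
    have h6 : 64 / 9 * (D x y / (Δ / (8 * β))) = 512 / 9 * (β * D x y / Δ) := by
      field_simp
      try ring
    have h7 : 0 ≤ β * D x y / Δ := by
      have := hD.nonneg x y
      positivity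
    have h8 : 114 * β * D x y / Δ = 114 * (β * D x y / Δ) := by ring
    rw [h6] at h3
    rw [h8]
    linarith

end Pool.Agent.MP_a4c1f4_lc.Pad
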