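import Pool.Agent.Lib.MP_a4c1f4_lc.Pad.Spec

set_option linter.all false

/-!
# Independent rounds: the partition of one level
-/

namespace Pool.Agent.MP_a4c1f4_lc.Pad

open Finset Pool.Agent.MP_a4c1f4_lc Pool.Agent.MP_a4c1f4_lc.Dbl

namespace RecM

/-- product weights -/
theorem prod_exp {A B : Type} [Fintype A] [Fintype B] (w : A → ℝ) (v : B → ℝ) (F : A → ℝ)
    (H : B → ℝ) : ∑ p : A × B, w p.1 * v p.2 * (F p.1 * H p.2) =
      (∑ a, w a * F a) * (∑ b, v b * H b) := by
  rw [Fintype.sum_prod_type, Finset.sum_mul_sum]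
  refine Finset.sum_congr rfl fun a _ => Finset.sum_congr rfl fun b _ => ?_
  ring

theorem ind_mul_nonneg (P : Prop) {c : ℝ} (hc : 0 ≤ c) : 0 ≤ ind P * c :=
  mul_nonneg (ind_nonneg P) hc

open Classical in
/-- the Kraft inequality after one more round -/
theorem kraft_step {S : Type} [Fintype S] (D : S → S → ℝ) (Δ : ℝ) (n : ℕ) (q : S → S)
    (dp : S → Prop) (pt' : S → ℕ × S) (M' : ℕ × S → ℝ) (hM' : ∀ z, 0 ≤ M' z)
    (hdiam : ∀ x y, q x = q y → D x y ≤ Δ) (v : Finset S)
    (hk : ∑ z ∈ (v.image pt').filter (fun z => z.1 < n), M' z ≤ (nbh D v Δ : ℝ))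
    (pt : S → ℕ × S) (M : ℕ × S → ℝ) (hpt1 : ∀ x, dp x → pt x = (0, q x))
    (hpt2 : ∀ x, ¬ dp x → pt x = ((pt' x).1 + 1, (pt' x).2))
    (hM0 : ∀ z, M (0, z) = (((Finset.univ : Finset S).filter (fun y => q y = z)).card : ℝ) / 2)
    (hM1 : ∀ i z, M (i + 1, z) = M' (i, z) / 2) :
    ∑ z ∈ (v.image pt).filter (fun z => z.1 < n + 1), M z ≤ (nbh D v Δ : ℝ) := by
  rw [← Finset.sum_filter_add_sum_filter_not _ (fun z : ℕ × S => z.1 = 0)]
  set A := ((v.image pt).filter (fun z => z.1 < n + 1)).filter (fun z : ℕ × S => z.1 = 0) with hA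
  set B := ((v.image pt).filter (fun z => z.1 < n + 1)).filter (fun z : ℕ × S => ¬ z.1 = 0) with hB
  have memA : ∀ z ∈ A, z.1 = 0 ∧ ∃ x ∈ v, q x = z.2 := by
    intro z hz
    rw [hA, Finset.mem_filter, Finset.mem_filter, Finset.mem_image] at hz
    obtain ⟨⟨⟨x, hx, hxz⟩, _⟩, h0⟩ := hz
    refine ⟨h0, x, hx, ?_⟩
    by_cases hd : dp x
    · rw [hpt1 x hd] at hxz
      rw [← hxz]
    · rw [hpt2 x hd] at hxz
      rw [← hxz] at h0
      exact absurd h0 (by simp)
  have sA : ∑ z ∈ A, M z ≤ (nbh D v Δ : ℝ) / 2 := by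
    have h1 : ∑ z ∈ A, M z =
        ∑ z ∈ A, (((Finset.univ : Finset S).filter (fun y => q y = z.2)).card : ℝ) / 2 := by
      refine Finset.sum_congr rfl fun z hz => ?_
      have h0 := (memA z hz).1
      have h2 : z = (0, z.2) := Prod.ext h0 rfl
      conv_lhs => rw [h2, hM0]
    rw [h1, ← Finset.sum_div]
    have h3 : ∑ z ∈ A, (((Finset.univ : Finset S).filter (fun y => q y = z.2)).card : ℝ) ≤
        (nbh D v Δ : ℝ) := by
      have h4 : ∑ z ∈ A, ((Finset.univ : Finset S).filter (fun y => q y = z.2)).card ≤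
          nbh D v Δ := by
        rw [← Finset.card_biUnion]
        · unfold nbh
          apply Finset.card_le_card
          intro y hy
          rw [Finset.mem_biUnion] at hy
          obtain ⟨z, hz, hy⟩ := hy
          rw [Finset.mem_filter] at hy
          obtain ⟨_, x, hx, hxz⟩ := memA z hz
          rw [Finset.mem_filter]
          exact ⟨Finset.mem_univ _, x, hx, hdiam x y (hxz.trans hy.2.symm)⟩
        · intro z hz z' hz' hne
          rw [Function.onFun, Finset.disjoint_left]
          intro y hy hy'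
          rw [Finset.mem_filter] at hy hy'
          apply hne
          exact Prod.ext ((memA z hz).1.trans (memA z' hz').1.symm) (hy.2.symm.trans hy'.2)
      exact_mod_cast h4
    linarith
  have memB : ∀ z ∈ B, 1 ≤ z.1 ∧ (z.1 - 1, z.2) ∈ (v.image pt').filter (fun z => z.1 < n) := by
    intro z hz
    rw [hB, Finset.mem_filter, Finset.mem_filter, Finset.mem_image] at hz
    obtain ⟨⟨⟨x, hx, hxz⟩, hlt⟩, h0⟩ := hz
    by_cases hd : dp x
    · rw [hpt1 x hd] at hxz
      rw [← hxz] at h0
      exact absurd rfl h0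
    · rw [hpt2 x hd] at hxz
      rw [← hxz] at hlt ⊢
      refine ⟨by simp, ?_⟩
      rw [Finset.mem_filter, Finset.mem_image]
      refine ⟨⟨x, hx, ?_⟩, ?_⟩
      · simp
      · simp at hlt ⊢
        exact hlt
  have sB : ∑ z ∈ B, M z ≤ (nbh D v Δ : ℝ) / 2 := by
    have h1 : ∑ z ∈ B, M z = ∑ z ∈ B, M' (z.1 - 1, z.2) / 2 := by
      refine Finset.sum_congr rfl fun z hz => ?_
      have h0 := (memB z hz).1
      have h2 : z = ((z.1 - 1) + 1, z.2) := Prod.ext (by simp; omega) rfl
      conv_lhs => rw [h2, hM1]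
    rw [h1, ← Finset.sum_div]
    have h2 : ∑ z ∈ B, M' (z.1 - 1, z.2) = ∑ z ∈ B.image (fun z : ℕ × S => (z.1 - 1, z.2)), M' z := by
      rw [Finset.sum_image]
      intro z hz z' hz' h
      have h3 := congrArg Prod.fst h
      have h4 := congrArg Prod.snd h
      simp only at h3 h4
      have h5 := (memB z hz).1
      have h6 := (memB z' hz').1
      exact Prod.ext (by omega) h4
    have h3 : ∑ z ∈ B.image (fun z : ℕ × S => (z.1 - 1, z.2)), M' z ≤
        ∑ z ∈ (v.image pt').filter (fun z => z.1 < n), M' z := by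
      refine Finset.sum_le_sum_of_subset_of_nonneg ?_ fun z _ _ => hM' z
      intro z hz
      rw [Finset.mem_image] at hz
      obtain ⟨z', hz', rfl⟩ := hz
      exact (memB z' hz').2
    linarith
  linarith

end RecM

open RecM in
theorem recP (h1 : RndProp) : RecProp := by
  classical
  intro S _ _ D β Δ hD hβ hΔ hP n
  have hβ0 : 0 < β := by linarith
  have hr0 : 0 < Δ / (8 * β) := by positivity
  have hs0 : ∀ x y, 0 ≤ D x y / (Δ / (8 * β)) := fun x y => div_nonneg (hD.nonneg x y) hr0.le
  induction n with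
  | zero =>
    have x0 : S := Classical.arbitrary S
    refine ⟨Unit, inferInstance, fun _ => 1, fun _ _ => (0, x0), fun _ _ => 0, ?_⟩
    refine ⟨fun _ => zero_le_one, by simp, fun _ _ => le_rfl, ?_, fun _ _ => le_rfl, ?_, ?_, ?_, ?_,
      ?_, ?_⟩
    · intro _ _ _ h
      exact absurd h (by simp)
    · intro _ _ h
      exact absurd h (by simp)
    · intro _ v
      simp
    · intro x
      simp [ind]
    · intro x y
      have := hs0 x y
      simp only [ne_eq, not_true_eq_false, Finset.univ_unique, Finset.sum_singleton, one_mul]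
      rw [ind_false (by simp)]
      linarith
    · intro x
      simp
      norm_num
    · intro x y
      have := hs0 x y
      simp only [ne_eq, not_true_eq_false, Finset.univ_unique, Finset.sum_singleton, one_mul]
      rw [ind_false (by simp)]
      linarith
  | succ n ih =>
    obtain ⟨Ω', _, w', pt', M', ih⟩ := ih
    obtain ⟨Ω1, _, w, q, dp, hw0, hw1, hdiam, hpad, hdp, hone⟩ := h1 S D β Δ hD hβ hΔ hP
    let pt : Ω1 × Ω' → S → ℕ × S := fun p x =>
      if dp p.1 x then (0, q p.1 x) else ((pt' p.2 x).1 + 1, (pt' p.2 x).2)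
    let M : Ω1 × Ω' → ℕ × S → ℝ := fun p z =>
      if z.1 = 0 then (((Finset.univ : Finset S).filter (fun y => q p.1 y = z.2)).card : ℝ) / 2
      else M' p.2 (z.1 - 1, z.2) / 2
    have hpt1 : ∀ p x, dp p.1 x → pt p x = (0, q p.1 x) := fun p x h => if_pos h
    have hpt2 : ∀ p x, ¬ dp p.1 x → pt p x = ((pt' p.2 x).1 + 1, (pt' p.2 x).2) :=
      fun p x h => if_neg h
    have hM0 : ∀ p z, M p (0, z) =
        (((Finset.univ : Finset S).filter (fun y => q p.1 y = z)).card : ℝ) / 2 :=
      fun p z => if_pos rfl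
    have hM1 : ∀ p i z, M p (i + 1, z) = M' p.2 (i, z) / 2 := fun p i z => if_neg (by simp)
    have hex : ∀ (F : Ω1 → ℝ) (H : Ω' → ℝ),
        ∑ p : Ω1 × Ω', w p.1 * w' p.2 * (F p.1 * H p.2) =
          (∑ a, w a * F a) * (∑ b, w' b * H b) := fun F H => prod_exp w w' F H
    have hww : ∀ p : Ω1 × Ω', 0 ≤ w p.1 * w' p.2 := fun p => mul_nonneg (hw0 _) (ih.w0 _)
    have hw1' : ∑ a, w a * (1 : ℝ) = 1 := by simpa using hw1
    have hw2' : ∑ b, w' b * (1 : ℝ) = 1 := by simpa using ih.w1
    have htot : ∑ p : Ω1 × Ω', w p.1 * w' p.2 = 1 := by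
      have h2 := hex (fun _ => 1) (fun _ => 1)
      rw [hw1', hw2', mul_one] at h2
      simpa using h2
    -- the index
    have hixeq : ∀ p x, (((pt p x).1 : ℝ) + 1) =
        1 * 1 + ind (¬ dp p.1 x) * (((pt' p.2 x).1 : ℝ) + 1) := by
      intro p x
      by_cases h : dp p.1 x
      · rw [hpt1 p x h, ind_false (by simpa using h)]
        simp
      · rw [hpt2 p x h, ind_true h]
        push_cast
        ring
    have hix : ∀ x, ∑ p : Ω1 × Ω', w p.1 * w' p.2 * (((pt p x).1 : ℝ) + 1) ≤ 4 / 3 := by
      intro x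
      have h2 : ∑ p : Ω1 × Ω', w p.1 * w' p.2 * (((pt p x).1 : ℝ) + 1) =
          (∑ a, w a * 1) * (∑ b, w' b * 1) +
          (∑ a, w a * ind (¬ dp a x)) * (∑ b, w' b * (((pt' b x).1 : ℝ) + 1)) := by
        rw [← hex (fun _ => 1) (fun _ => 1),
          ← hex (fun a => ind (¬ dp a x)) (fun b => ((pt' b x).1 : ℝ) + 1),
          ← Finset.sum_add_distrib]
        refine Finset.sum_congr rfl fun p _ => ?_
        rw [hixeq p x]
        ring
      rw [h2, hw1', hw2']
      have h3 := hdp x
      have h4 := ih.ix x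
      have h5 : 0 ≤ ∑ b, w' b * (((pt' b x).1 : ℝ) + 1) :=
        Finset.sum_nonneg fun b _ => mul_nonneg (ih.w0 b) (by positivity)
      have h6 : (∑ a, w a * ind (¬ dp a x)) * (∑ b, w' b * (((pt' b x).1 : ℝ) + 1)) ≤
          1 / 4 * (4 / 3) := mul_le_mul h3 h4 h5 (by norm_num)
      linarith
    refine ⟨Ω1 × Ω', inferInstance, fun p => w p.1 * w' p.2, pt, M, hww, htot, ?_, ?_, ?_, ?_, ?_,
      ?_, ?_, hix, ?_⟩
    · -- lt
      intro p x
      by_cases h : dp p.1 x
      · rw [hpt1 p x h]
        exact Nat.zero_le _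
      · rw [hpt2 p x h]
        exact Nat.succ_le_succ (ih.lt _ _)
    · -- diam
      intro p x y hlt he
      by_cases hx : dp p.1 x
      · by_cases hy : dp p.1 y
        · rw [hpt1 p x hx, hpt1 p y hy] at he
          exact hdiam p.1 x y (congrArg Prod.snd he)
        · rw [hpt1 p x hx, hpt2 p y hy] at he
          exact absurd (congrArg Prod.fst he) (by simp)
      · by_cases hy : dp p.1 y
        · rw [hpt2 p x hx, hpt1 p y hy] at he
          exact absurd (congrArg Prod.fst he) (by simp)
        · rw [hpt2 p x hx] at hlt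
          rw [hpt2 p x hx, hpt2 p y hy] at he
          refine ih.diam p.2 x y (by simpa using hlt) ?_
          have h3 := congrArg Prod.fst he
          have h4 := congrArg Prod.snd he
          exact Prod.ext (by simpa using h3) h4
    · -- Mn
      intro p z
      change 0 ≤ if z.1 = 0 then
        (((Finset.univ : Finset S).filter (fun y => q p.1 y = z.2)).card : ℝ) / 2
        else M' p.2 (z.1 - 1, z.2) / 2
      split_ifs
      · positivity
      · have := ih.Mn p.2 (z.1 - 1, z.2)
        linarith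
    · -- core
      intro p x hlt
      by_cases hx : dp p.1 x
      · rw [hpt1 p x hx, hM0]
        have h3 : nb D (Δ / (8 * β)) x ≤
            ((Finset.univ : Finset S).filter (fun y => q p.1 y = q p.1 x)).card := by
          unfold nb
          apply Finset.card_le_card
          intro y hy
          rw [Finset.mem_filter] at hy ⊢
          refine ⟨Finset.mem_univ _, ?_⟩
          rw [hD.symm y x] at hy
          exact (hpad p.1 x y hx hy.2).symm
        have h4 : (nb D (Δ / (8 * β)) x : ℝ) ≤
            (((Finset.univ : Finset S).filter (fun y => q p.1 y = q p.1 x)).card : ℝ) := by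
          exact_mod_cast h3
        simp only [zero_add, pow_one]
        linarith
      · rw [hpt2 p x hx] at hlt ⊢
        have h3 := ih.core p.2 x (by simpa using hlt)
        rw [hM1]
        simp only at h3 ⊢
        have h4 : (pt' p.2 x) = ((pt' p.2 x).1, (pt' p.2 x).2) := rfl
        rw [← h4, pow_succ]
        linarith
    · -- kraft
      intro p v
      exact kraft_step D Δ n (q p.1) (dp p.1) (pt' p.2) (M' p.2) (ih.Mn p.2) (hdiam p.1) v
        (ih.kraft p.2 v) (pt p) (M p) (hpt1 p) (hpt2 p) (hM0 p) (hM1 p)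
    · -- un
      intro x
      have h2 : ∑ p : Ω1 × Ω', w p.1 * w' p.2 * ind ((pt p x).1 = n + 1) ≤
          ∑ p : Ω1 × Ω', w p.1 * w' p.2 * (ind (¬ dp p.1 x) * ind ((pt' p.2 x).1 = n)) := by
        refine Finset.sum_le_sum fun p _ => mul_le_mul_of_nonneg_left ?_ (hww p)
        by_cases hx : dp p.1 x
        · rw [hpt1 p x hx, ind_false (by simp)]
          exact mul_nonneg (ind_nonneg _) (ind_nonneg _)
        · rw [hpt2 p x hx, ind_true hx, one_mul]
          exact ind_mono fun h => by simpa using h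
      refine h2.trans ?_
      rw [hex (fun a => ind (¬ dp a x)) (fun b => ind ((pt' b x).1 = n)), pow_succ, mul_comm]
      have h5 : 0 ≤ ∑ a, w a * ind (¬ dp a x) :=
        Finset.sum_nonneg fun a _ => mul_nonneg (hw0 a) (ind_nonneg _)
      exact mul_le_mul (ih.un x) (hdp x) h5 (by positivity)
    · -- sep
      intro x y
      rcases le_or_gt (D x y / (Δ / (8 * β))) 1 with hs | hs
      · have hs' : D x y ≤ Δ / (8 * β) := by
          rwa [div_le_one hr0] at hs
        have h2 : ∑ p : Ω1 × Ω', w p.1 * w' p.2 * ind (pt p x ≠ pt p y) ≤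
            ∑ p : Ω1 × Ω', w p.1 * w' p.2 *
              (ind ((dp p.1 x ∧ ¬ dp p.1 y) ∨ (¬ dp p.1 x ∧ dp p.1 y)) * 1) +
            ∑ p : Ω1 × Ω', w p.1 * w' p.2 *
              (ind (¬ dp p.1 x) * ind (pt' p.2 x ≠ pt' p.2 y)) := by
          rw [← Finset.sum_add_distrib]
          refine Finset.sum_le_sum fun p _ => ?_
          rw [← mul_add]
          refine mul_le_mul_of_nonneg_left ?_ (hww p)
          by_cases hx : dp p.1 x
          · by_cases hy : dp p.1 y
            · have h3 : pt p x = pt p y := by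
                rw [hpt1 p x hx, hpt1 p y hy, hpad p.1 x y hx hs']
              rw [ind_false (by simpa using h3)]
              exact add_nonneg (mul_nonneg (ind_nonneg _) zero_le_one)
                (mul_nonneg (ind_nonneg _) (ind_nonneg _))
            · rw [ind_true (Or.inl ⟨hx, hy⟩), one_mul]
              have := ind_le_one (pt p x ≠ pt p y)
              have := mul_nonneg (ind_nonneg (¬ dp p.1 x)) (ind_nonneg (pt' p.2 x ≠ pt' p.2 y))
              linarith
          · by_cases hy : dp p.1 y
            · rw [ind_true (Or.inr ⟨hx, hy⟩), one_mul]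
              have := ind_le_one (pt p x ≠ pt p y)
              have := mul_nonneg (ind_nonneg (¬ dp p.1 x)) (ind_nonneg (pt' p.2 x ≠ pt' p.2 y))
              linarith
            · rw [ind_true hx, one_mul]
              have h3 : ind (pt p x ≠ pt p y) ≤ ind (pt' p.2 x ≠ pt' p.2 y) := by
                refine ind_mono fun h h' => h ?_
                rw [hpt2 p x hx, hpt2 p y hy, h']
              have := mul_nonneg (ind_nonneg ((dp p.1 x ∧ ¬ dp p.1 y) ∨ (¬ dp p.1 x ∧ dp p.1 y)))
                (zero_le_one (α := ℝ))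
              linarith
        refine h2.trans ?_
        rw [hex (fun a => ind ((dp a x ∧ ¬ dp a y) ∨ (¬ dp a x ∧ dp a y))) (fun _ => 1),
          hex (fun a => ind (¬ dp a x)) (fun b => ind (pt' b x ≠ pt' b y)), hw2', mul_one]
        have h3 := hone x y hs'
        have h4 := ih.sep x y
        have h5 : 0 ≤ ∑ b, w' b * ind (pt' b x ≠ pt' b y) :=
          Finset.sum_nonneg fun b _ => mul_nonneg (ih.w0 b) (ind_nonneg _)
        have h6 := mul_le_mul (hdp x) h4 h5 (by norm_num)
        linarith
      · have h2 : ∑ p : Ω1 × Ω', w p.1 * w' p.2 * ind (pt p x ≠ pt p y) ≤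
            ∑ p : Ω1 × Ω', w p.1 * w' p.2 := by
          refine Finset.sum_le_sum fun p _ => ?_
          exact mul_le_of_le_one_right (hww p) (ind_le_one _)
        rw [htot] at h2
        linarith
    · -- ixs
      intro x y
      rcases le_or_gt (D x y / (Δ / (8 * β))) 1 with hs | hs
      · have hs' : D x y ≤ Δ / (8 * β) := by
          rwa [div_le_one hr0] at hs
        have h2 : ∑ p : Ω1 × Ω', w p.1 * w' p.2 *
              (ind (pt p x ≠ pt p y) * (((pt p x).1 : ℝ) + 1)) ≤
            ∑ p : Ω1 × Ω', w p.1 * w' p.2 *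
              (ind ((dp p.1 x ∧ ¬ dp p.1 y) ∨ (¬ dp p.1 x ∧ dp p.1 y)) *
                (1 + (((pt' p.2 x).1 : ℝ) + 1))) +
            ∑ p : Ω1 × Ω', w p.1 * w' p.2 *
              (ind (¬ dp p.1 x) * (ind (pt' p.2 x ≠ pt' p.2 y) +
                ind (pt' p.2 x ≠ pt' p.2 y) * (((pt' p.2 x).1 : ℝ) + 1))) := by
          rw [← Finset.sum_add_distrib]
          refine Finset.sum_le_sum fun p _ => ?_
          rw [← mul_add]
          refine mul_le_mul_of_nonneg_left ?_ (hww p)
          have hi0 : (0 : ℝ) ≤ ((pt' p.2 x).1 : ℝ) := Nat.cast_nonneg _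
          have hN : 0 ≤ ind (pt' p.2 x ≠ pt' p.2 y) +
              ind (pt' p.2 x ≠ pt' p.2 y) * (((pt' p.2 x).1 : ℝ) + 1) :=
            add_nonneg (ind_nonneg _) (mul_nonneg (ind_nonneg _) (by linarith))
          have hle : ((pt p x).1 : ℝ) + 1 ≤ 1 + (((pt' p.2 x).1 : ℝ) + 1) := by
            rw [hixeq p x, one_mul]
            have := mul_le_of_le_one_left (a := ind (¬ dp p.1 x))
              (b := ((pt' p.2 x).1 : ℝ) + 1) (by linarith) (ind_le_one _)
            linarith
          have hle2 : ind (pt p x ≠ pt p y) * (((pt p x).1 : ℝ) + 1) ≤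
              1 + (((pt' p.2 x).1 : ℝ) + 1) := by
            refine le_trans ?_ hle
            exact mul_le_of_le_one_left (by positivity) (ind_le_one _)
          by_cases hx : dp p.1 x
          · by_cases hy : dp p.1 y
            · have h3 : pt p x = pt p y := by
                rw [hpt1 p x hx, hpt1 p y hy, hpad p.1 x y hx hs']
              rw [ind_false (by simpa using h3), zero_mul]
              exact add_nonneg (mul_nonneg (ind_nonneg _) (by linarith))
                (mul_nonneg (ind_nonneg _) hN)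
            · rw [ind_true (Or.inl ⟨hx, hy⟩), one_mul]
              have := mul_nonneg (ind_nonneg (¬ dp p.1 x)) hN
              linarith
          · by_cases hy : dp p.1 y
            · rw [ind_true (Or.inr ⟨hx, hy⟩), one_mul]
              have := mul_nonneg (ind_nonneg (¬ dp p.1 x)) hN
              linarith
            · rw [ind_true hx, one_mul]
              have h3 : ind (pt p x ≠ pt p y) ≤ ind (pt' p.2 x ≠ pt' p.2 y) := by
                refine ind_mono fun h h' => h ?_
                rw [hpt2 p x hx, hpt2 p y hy, h']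
              have h4 : ind (pt p x ≠ pt p y) * (((pt p x).1 : ℝ) + 1) ≤
                  ind (pt' p.2 x ≠ pt' p.2 y) * (1 + (((pt' p.2 x).1 : ℝ) + 1)) :=
                mul_le_mul h3 hle (by positivity) (ind_nonneg _)
              have := mul_nonneg (ind_nonneg ((dp p.1 x ∧ ¬ dp p.1 y) ∨ (¬ dp p.1 x ∧ dp p.1 y)))
                (by linarith : (0 : ℝ) ≤ 1 + (((pt' p.2 x).1 : ℝ) + 1))
              linarith
        refine h2.trans ?_
        rw [hex (fun a => ind ((dp a x ∧ ¬ dp a y) ∨ (¬ dp a x ∧ dp a y)))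
            (fun b => 1 + (((pt' b x).1 : ℝ) + 1)),
          hex (fun a => ind (¬ dp a x)) (fun b => ind (pt' b x ≠ pt' b y) +
            ind (pt' b x ≠ pt' b y) * (((pt' b x).1 : ℝ) + 1))]
        have h3 := hone x y hs'
        have h4 := ih.sep x y
        have h5 := ih.ixs x y
        have h6 : ∑ b, w' b * (1 + (((pt' b x).1 : ℝ) + 1)) ≤ 1 + 4 / 3 := by
          have h7 : ∑ b, w' b * (1 + (((pt' b x).1 : ℝ) + 1)) =
              ∑ b, w' b * 1 + ∑ b, w' b * (((pt' b x).1 : ℝ) + 1) := by
            rw [← Finset.sum_add_distrib]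
            exact Finset.sum_congr rfl fun b _ => by ring
          rw [h7, hw2']
          linarith [ih.ix x]
        have h6' : 0 ≤ ∑ b, w' b * (1 + (((pt' b x).1 : ℝ) + 1)) :=
          Finset.sum_nonneg fun b _ => mul_nonneg (ih.w0 b) (by positivity)
        have h8 : ∑ b, w' b * (ind (pt' b x ≠ pt' b y) +
            ind (pt' b x ≠ pt' b y) * (((pt' b x).1 : ℝ) + 1)) ≤
            8 / 3 * (D x y / (Δ / (8 * β))) + 64 / 9 * (D x y / (Δ / (8 * β))) := by
          have h7 : ∑ b, w' b * (ind (pt' b x ≠ pt' b y) +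
              ind (pt' b x ≠ pt' b y) * (((pt' b x).1 : ℝ) + 1)) =
              ∑ b, w' b * ind (pt' b x ≠ pt' b y) +
              ∑ b, w' b * (ind (pt' b x ≠ pt' b y) * (((pt' b x).1 : ℝ) + 1)) := by
            rw [← Finset.sum_add_distrib]
            exact Finset.sum_congr rfl fun b _ => by ring
          rw [h7]
          linarith
        have h8' : 0 ≤ ∑ b, w' b * (ind (pt' b x ≠ pt' b y) +
            ind (pt' b x ≠ pt' b y) * (((pt' b x).1 : ℝ) + 1)) :=
          Finset.sum_nonneg fun b _ => mul_nonneg (ih.w0 b)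
            (add_nonneg (ind_nonneg _) (mul_nonneg (ind_nonneg _) (by positivity)))
        have hs1 := hs0 x y
        have h9 := mul_le_mul h3 h6 h6' (by linarith)
        have h10 := mul_le_mul (hdp x) h8 h8' (by norm_num)
        linarith
      · have h2 : ∑ p : Ω1 × Ω', w p.1 * w' p.2 *
              (ind (pt p x ≠ pt p y) * (((pt p x).1 : ℝ) + 1)) ≤
            ∑ p : Ω1 × Ω', w p.1 * w' p.2 * (((pt p x).1 : ℝ) + 1) := by
          refine Finset.sum_le_sum fun p _ => mul_le_mul_of_nonneg_left ?_ (hww p)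
          exact mul_le_of_le_one_left (by positivity) (ind_le_one _)
        have h3 := hix x
        linarith

end Pool.Agent.MP_a4c1f4_lc.Pad
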