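import Pool.Agent.Lib.MP_a4c1f4_lc.Pad.Spec

set_option linter.all false

/-!
Independence of the levels.
-/

namespace Pool.Agent.MP_a4c1f4_lc.Pad

open Finset Pool.Agent.MP_a4c1f4_lc Pool.Agent.MP_a4c1f4_lc.Dbl

namespace IndM

variable {h : ℕ} {Ω : Fin h → Type} [∀ k, Fintype (Ω k)]

theorem expG (w g : (k : Fin h) → Ω k → ℝ) :
    ∑ ω : (k : Fin h) → Ω k, (∏ k, w k (ω k)) * ∏ k, g k (ω k) = ∏ k, ∑ b, w k b * g k b := by
  classical
  rw [Fintype.prod_sum]
  apply Finset.sum_congr rfl
  intro ω _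
  rw [← Finset.prod_mul_distrib]

theorem sum1 (w : (k : Fin h) → Ω k → ℝ) (hw : ∀ k, ∑ b, w k b = 1) :
    ∑ ω : (k : Fin h) → Ω k, ∏ k, w k (ω k) = 1 := by
  have h1 := expG w (fun _ _ => 1)
  simp only [Finset.prod_const_one, mul_one] at h1
  rw [h1]
  exact Finset.prod_eq_one (fun k _ => hw k)

theorem exp1 (w : (k : Fin h) → Ω k → ℝ) (hw : ∀ k, ∑ b, w k b = 1) (k0 : Fin h)
    (F : Ω k0 → ℝ) :
    ∑ ω : (k : Fin h) → Ω k, (∏ k, w k (ω k)) * F (ω k0) = ∑ b, w k0 b * F b := by
  classical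
  have h1 := expG w (Function.update (fun _ _ => 1) k0 F)
  have h2 : ∀ ω : (k : Fin h) → Ω k,
      ∏ k, Function.update (fun (k : Fin h) (_ : Ω k) => (1 : ℝ)) k0 F k (ω k) = F (ω k0) := by
    intro ω
    rw [Finset.prod_eq_single k0]
    · rw [Function.update_self]
    · intro k _ hk
      rw [Function.update_of_ne hk]
    · intro hk
      exact absurd (Finset.mem_univ _) hk
  have h3 : ∏ k, ∑ b, w k b * Function.update (fun (k : Fin h) (_ : Ω k) => (1 : ℝ)) k0 F k b =
      ∑ b, w k0 b * F b := by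
    rw [Finset.prod_eq_single k0]
    · rw [Function.update_self]
    · intro k _ hk
      rw [Function.update_of_ne hk]
      simp only [mul_one]
      exact hw k
    · intro hk
      exact absurd (Finset.mem_univ _) hk
  rw [h3] at h1
  rw [← h1]
  apply Finset.sum_congr rfl
  intro ω _
  rw [h2]

theorem exp2 (w : (k : Fin h) → Ω k → ℝ) (hw : ∀ k, ∑ b, w k b = 1) (k0 k1 : Fin h)
    (hne : k0 ≠ k1) (F : Ω k0 → ℝ) (F' : Ω k1 → ℝ) :
    ∑ ω : (k : Fin h) → Ω k, (∏ k, w k (ω k)) * (F (ω k0) * F' (ω k1)) =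
      (∑ b, w k0 b * F b) * ∑ b, w k1 b * F' b := by
  classical
  have h1 := expG w (Function.update (Function.update (fun _ _ => 1) k0 F) k1 F')
  have h2 : ∀ ω : (k : Fin h) → Ω k,
      ∏ k, Function.update (Function.update (fun (k : Fin h) (_ : Ω k) => (1 : ℝ)) k0 F) k1 F'
        k (ω k) = F (ω k0) * F' (ω k1) := by
    intro ω
    rw [Finset.prod_eq_mul k0 k1 hne]
    · rw [Function.update_self, Function.update_of_ne hne, Function.update_self]
    · intro k _ hk
      rw [Function.update_of_ne hk.2, Function.update_of_ne hk.1]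
    · intro hk
      exact absurd (Finset.mem_univ _) hk
    · intro hk
      exact absurd (Finset.mem_univ _) hk
  have h3 : ∏ k, ∑ b, w k b *
      Function.update (Function.update (fun (k : Fin h) (_ : Ω k) => (1 : ℝ)) k0 F) k1 F' k b =
      (∑ b, w k0 b * F b) * ∑ b, w k1 b * F' b := by
    rw [Finset.prod_eq_mul k0 k1 hne]
    · rw [Function.update_self, Function.update_of_ne hne, Function.update_self]
    · intro k _ hk
      rw [Function.update_of_ne hk.2, Function.update_of_ne hk.1]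
      simp only [mul_one]
      exact hw k
    · intro hk
      exact absurd (Finset.mem_univ _) hk
    · intro hk
      exact absurd (Finset.mem_univ _) hk
  rw [h3] at h1
  rw [← h1]
  apply Finset.sum_congr rfl
  intro ω _
  rw [h2]

end IndM

open IndM

theorem indP : IndProp := by
  intro S _ D β ρ h Ω _ w pt M hD hβ hρ hO
  have hw : ∀ k, ∑ b, w k b = 1 := fun k => (hO k).w1
  have hw0 : ∀ k b, 0 ≤ w k b := fun k b => (hO k).w0 b
  have hl := Real.log_two_lt_d9
  have hl0 : 0 < Real.log 2 := Real.log_pos (by norm_num)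
  refine ⟨?_, sum1 w hw, ?_, ?_⟩
  · intro ω
    exact Finset.prod_nonneg (fun k _ => hw0 k _)
  · intro x y k k' A hA
    have hk4 : (0 : ℝ) < 4 ^ (k' : ℕ) * ρ := by positivity
    set t : ℝ := β * D x y / (4 ^ (k' : ℕ) * ρ) with ht
    have ht0 : 0 ≤ t := by
      have := hD.nonneg x y
      positivity
    have hgoal : (43 * A + 160) * β * D x y / (4 ^ (k' : ℕ) * ρ) = (43 * A + 160) * t := by
      rw [ht]
      ring
    rw [hgoal]
    have hs : ∑ b, w k' b * ind (pt k' b x ≠ pt k' b y) ≤ 43 * t := by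
      have h1 := (hO k').sep x y
      have h2 : 43 * β * D x y / (4 ^ (k' : ℕ) * ρ) = 43 * t := by
        rw [ht]
        ring
      rw [h2] at h1
      exact h1
    have hs0 : 0 ≤ ∑ b, w k' b * ind (pt k' b x ≠ pt k' b y) :=
      Finset.sum_nonneg (fun b _ => mul_nonneg (hw0 k' b) (ind_nonneg _))
    by_cases hkk : k = k'
    · subst hkk
      rw [exp1 w hw k (fun b => (A + Real.log 2 * (((pt k b x).1 : ℝ) + 1) +
          Real.log 2 * (((pt k b y).1 : ℝ) + 1)) * ind (pt k b x ≠ pt k b y))]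
      have e1 : ∑ b, w k b * ((A + Real.log 2 * (((pt k b x).1 : ℝ) + 1) +
          Real.log 2 * (((pt k b y).1 : ℝ) + 1)) * ind (pt k b x ≠ pt k b y)) =
          A * (∑ b, w k b * ind (pt k b x ≠ pt k b y)) +
          Real.log 2 * (∑ b, w k b * (ind (pt k b x ≠ pt k b y) * (((pt k b x).1 : ℝ) + 1))) +
          Real.log 2 * (∑ b, w k b * (ind (pt k b y ≠ pt k b x) * (((pt k b y).1 : ℝ) + 1))) := by
        rw [Finset.mul_sum, Finset.mul_sum, Finset.mul_sum, ← Finset.sum_add_distrib,
          ← Finset.sum_add_distrib]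
        apply Finset.sum_congr rfl
        intro b _
        have : ind (pt k b y ≠ pt k b x) = ind (pt k b x ≠ pt k b y) := by
          rw [ne_comm]
        rw [this]
        ring
      rw [e1]
      have h3 := (hO k).ixs x y
      have h4 := (hO k).ixs y x
      have h5 : 114 * β * D x y / (4 ^ (k : ℕ) * ρ) = 114 * t := by
        rw [ht]
        ring
      rw [hD.symm y x] at h4
      rw [h5] at h3 h4
      have h6 := mul_le_mul_of_nonneg_left hs hA
      have h7 := mul_le_mul_of_nonneg_left h3 hl0.le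
      have h8 := mul_le_mul_of_nonneg_left h4 hl0.le
      nlinarith
    · have e1 : ∀ ω : (k : Fin h) → Ω k, (∏ k, w k (ω k)) *
        ((A + Real.log 2 * (((pt k (ω k) x).1 : ℝ) + 1) +
          Real.log 2 * (((pt k (ω k) y).1 : ℝ) + 1)) *
            ind (pt k' (ω k') x ≠ pt k' (ω k') y)) =
        A * ((∏ k, w k (ω k)) * ind (pt k' (ω k') x ≠ pt k' (ω k') y)) +
        Real.log 2 * ((∏ k, w k (ω k)) *
          ((((pt k (ω k) x).1 : ℝ) + 1) * ind (pt k' (ω k') x ≠ pt k' (ω k') y))) +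
        Real.log 2 * ((∏ k, w k (ω k)) *
          ((((pt k (ω k) y).1 : ℝ) + 1) * ind (pt k' (ω k') x ≠ pt k' (ω k') y))) := by
        intro ω
        ring
      rw [Finset.sum_congr rfl (fun ω _ => e1 ω), Finset.sum_add_distrib, Finset.sum_add_distrib,
        ← Finset.mul_sum, ← Finset.mul_sum, ← Finset.mul_sum,
        exp1 w hw k' (fun b => ind (pt k' b x ≠ pt k' b y)),
        exp2 w hw k k' hkk (fun b => (((pt k b x).1 : ℝ) + 1))
          (fun b => ind (pt k' b x ≠ pt k' b y)),
        exp2 w hw k k' hkk (fun b => (((pt k b y).1 : ℝ) + 1))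
          (fun b => ind (pt k' b x ≠ pt k' b y))]
      have h3 := (hO k).ix x
      have h4 := (hO k).ix y
      have h3' : (∑ b, w k b * (((pt k b x).1 : ℝ) + 1)) *
          (∑ b, w k' b * ind (pt k' b x ≠ pt k' b y)) ≤ 8 / 3 * (43 * t) :=
        mul_le_mul h3 hs hs0 (by norm_num)
      have h4' : (∑ b, w k b * (((pt k b y).1 : ℝ) + 1)) *
          (∑ b, w k' b * ind (pt k' b x ≠ pt k' b y)) ≤ 8 / 3 * (43 * t) :=
        mul_le_mul h4 hs hs0 (by norm_num)
      have h6 := mul_le_mul_of_nonneg_left hs hA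
      have h7 := mul_le_mul_of_nonneg_left h3' hl0.le
      have h8 := mul_le_mul_of_nonneg_left h4' hl0.le
      nlinarith
  · intro x y k A hA
    rw [exp1 w hw k (fun b => (A + Real.log 2 * (((pt k b x).1 : ℝ) + 1) +
          Real.log 2 * (((pt k b y).1 : ℝ) + 1)))]
    have e1 : ∑ b, w k b * (A + Real.log 2 * (((pt k b x).1 : ℝ) + 1) +
          Real.log 2 * (((pt k b y).1 : ℝ) + 1)) =
        A * (∑ b, w k b) + Real.log 2 * (∑ b, w k b * (((pt k b x).1 : ℝ) + 1)) +
          Real.log 2 * (∑ b, w k b * (((pt k b y).1 : ℝ) + 1)) := by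
      rw [Finset.mul_sum, Finset.mul_sum, Finset.mul_sum, ← Finset.sum_add_distrib,
          ← Finset.sum_add_distrib]
      apply Finset.sum_congr rfl
      intro b _
      ring
    rw [e1, hw k]
    have h3 := (hO k).ix x
    have h4 := (hO k).ix y
    have h7 := mul_le_mul_of_nonneg_left h3 hl0.le
    have h8 := mul_le_mul_of_nonneg_left h4 hl0.le
    nlinarith

end Pool.Agent.MP_a4c1f4_lc.Pad
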