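import Pool.Agent.Lib.MP_a4c1f4_lc.Pad.Spec

/-!
# The two sums for the noise family of a hierarchy with arms
-/

namespace Pool.Agent.MP_a4c1f4_lc.Pad

open Finset Pool.Agent.MP_a4c1f4_lc Pool.Agent.MP_a4c1f4_lc.Dbl

namespace AmpM

theorem geo0 (i : ℕ) : ∑ k ∈ range (i + 1), (2 : ℝ) ^ k ≤ 2 * 2 ^ i := by
  induction i with
  | zero => simp
  | succ i ih =>
    rw [sum_range_succ, pow_succ]
    linarith

theorem geo (i j : ℕ) : ∑ k ∈ range (i + 1), (2 : ℝ) ^ k / 2 ^ j ≤ 2 * (2 ^ i / 2 ^ j) := by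
  rw [← sum_div, ← mul_div_assoc]
  exact div_le_div_of_nonneg_right (geo0 i) (by positivity)

/-- Part of a geometric sum. -/
theorem geo' (κ i j : ℕ) :
    ∑ k ∈ (range κ).filter (fun k => k ≤ i), (2 : ℝ) ^ k / 2 ^ j ≤ 2 * (2 ^ i / 2 ^ j) := by
  refine le_trans (sum_le_sum_of_subset_of_nonneg ?_ fun k _ _ => by positivity) (geo i j)
  intro k hk
  exact mem_range.2 (Nat.lt_succ_of_le (mem_filter.1 hk).2)

theorem ratio {i j : ℕ} (h : i ≤ j) : (2 : ℝ) ^ i / 2 ^ j = 1 / 2 ^ (j - i) := by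
  rw [div_eq_div_iff (by positivity) (by positivity), one_mul, ← pow_add, Nat.add_sub_cancel' h]

/-- The sum over the levels. -/
theorem sum_min {Λ M : ℝ} (hΛ : 0 ≤ Λ)
    (hM : ∀ n : ℕ, ∑ i ∈ range n, min 1 (Λ / 2 ^ i) ≤ M) (j n : ℕ) (f : ℕ → ℝ)
    (hf : ∀ i, i ≤ j → f i ≤ min 1 (Λ / 2 ^ (j - i))) (hf0 : ∀ i, j < i → f i = 0) :
    ∑ i ∈ range n, f i ≤ M := by
  have h0 : ∀ i : ℕ, (0 : ℝ) ≤ min 1 (Λ / 2 ^ (j - i)) := fun i =>
    le_min zero_le_one (by positivity)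
  calc ∑ i ∈ range n, f i = ∑ i ∈ (range n).filter (fun i => i ≤ j), f i := by
        refine (sum_filter_of_ne fun i _ hi => ?_).symm
        by_contra h
        exact hi (hf0 i (not_le.1 h))
    _ ≤ ∑ i ∈ (range n).filter (fun i => i ≤ j), min 1 (Λ / 2 ^ (j - i)) :=
        sum_le_sum fun i hi => hf i (mem_filter.1 hi).2
    _ ≤ ∑ i ∈ range (j + 1), min 1 (Λ / 2 ^ (j - i)) := by
        refine sum_le_sum_of_subset_of_nonneg ?_ fun i _ _ => h0 i
        intro i hi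
        exact mem_range.2 (Nat.lt_succ_of_le (mem_filter.1 hi).2)
    _ = ∑ i ∈ range (j + 1), min 1 (Λ / 2 ^ i) :=
        sum_range_reflect (fun i => min 1 (Λ / (2 : ℝ) ^ i)) (j + 1)
    _ ≤ M := hM _

section

variable (κ h j : ℕ) (A I : ℕ → ℝ) (Λ M : ℝ)

theorem main1 (hκj : κ ≤ j + 1) (hΛ : 0 ≤ Λ)
    (hM : ∀ n : ℕ, ∑ i ∈ range n, min 1 (Λ / 2 ^ i) ≤ M) (hA0 : ∀ i, 0 ≤ A i)
    (hAΛ : ∀ i, A i ≤ Λ) (hI0 : ∀ i, 0 ≤ I i) (hI1 : ∀ i, I i ≤ 1)
    (hI : ∀ i, I i ≠ 0 → i ≤ j ∧ A i * 4 ^ i ≤ 4 ^ j) :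
    ∑ k ∈ range κ, (4 : ℝ) ^ (k + 1) / (2 ^ (j + k) /
        (1 + ∑ i ∈ Finset.Ico k h, I i * (A i * (2 ^ i / 2 ^ j)))) ≤ 8 * (1 + M) := by
  have e1 : ∀ (k : ℕ) (B : ℝ), (4 : ℝ) ^ (k + 1) / (2 ^ (j + k) / B) =
      4 * (2 ^ k / 2 ^ j * B) := by
    intro k B
    have h4 : (4 : ℝ) ^ k = 2 ^ k * 2 ^ k := by
      rw [← mul_pow]
      norm_num
    rw [div_div_eq_mul_div, pow_succ, pow_add, h4]
    have h2 : (2 : ℝ) ^ k ≠ 0 := by positivity
    have h3 : (2 : ℝ) ^ j ≠ 0 := by positivity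
    field_simp
  simp only [e1, mul_add, mul_one, sum_add_distrib, mul_sum]
  have h1 : ∑ k ∈ range κ, (4 : ℝ) * (2 ^ k / 2 ^ j) ≤ 8 := by
    rw [← mul_sum]
    have h2 : ∑ k ∈ range κ, (2 : ℝ) ^ k / 2 ^ j ≤ ∑ k ∈ range (j + 1), (2 : ℝ) ^ k / 2 ^ j :=
      sum_le_sum_of_subset_of_nonneg (range_subset_range.2 hκj) fun k _ _ => by positivity
    have h3 := geo j j
    rw [div_self (by positivity)] at h3
    linarith
  have h2 : ∑ k ∈ range κ, ∑ i ∈ Finset.Ico k h,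
      (4 : ℝ) * (2 ^ k / 2 ^ j * (I i * (A i * (2 ^ i / 2 ^ j)))) ≤ 8 * M := by
    have h3 : ∑ k ∈ range κ, ∑ i ∈ Finset.Ico k h,
        (4 : ℝ) * (2 ^ k / 2 ^ j * (I i * (A i * (2 ^ i / 2 ^ j)))) =
        ∑ i ∈ range h, ∑ k ∈ (range κ).filter (fun k => k ≤ i),
          (4 : ℝ) * (2 ^ k / 2 ^ j * (I i * (A i * (2 ^ i / 2 ^ j)))) := by
      refine sum_comm' fun k i => ?_
      rw [mem_range, Finset.mem_Ico, mem_filter, mem_range, mem_range]
      tauto
    rw [h3]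
    calc ∑ i ∈ range h, ∑ k ∈ (range κ).filter (fun k => k ≤ i),
          (4 : ℝ) * (2 ^ k / 2 ^ j * (I i * (A i * (2 ^ i / 2 ^ j))))
        ≤ ∑ i ∈ range h, 8 * (I i * (A i * (2 ^ i / 2 ^ j) ^ 2)) := by
          refine sum_le_sum fun i _ => ?_
          rw [← mul_sum, ← sum_mul]
          have h4 := geo' κ i j
          have h5 : 0 ≤ I i * (A i * ((2 : ℝ) ^ i / 2 ^ j)) :=
            mul_nonneg (hI0 i) (mul_nonneg (hA0 i) (by positivity))
          have h6 := mul_le_mul_of_nonneg_right h4 h5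
          calc _ ≤ 4 * (2 * ((2 : ℝ) ^ i / 2 ^ j) * (I i * (A i * (2 ^ i / 2 ^ j)))) :=
                mul_le_mul_of_nonneg_left h6 (by norm_num)
            _ = _ := by ring
      _ = 8 * ∑ i ∈ range h, I i * (A i * (2 ^ i / 2 ^ j) ^ 2) := by rw [mul_sum]
      _ ≤ 8 * M := by
          refine mul_le_mul_of_nonneg_left ?_ (by norm_num)
          refine sum_min hΛ hM j h _ (fun i hij => ?_) fun i hij => ?_
          · by_cases hi : I i = 0
            · rw [hi, zero_mul]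
              exact le_min zero_le_one (by positivity)
            · have h7 := (hI i hi).2
              have h8 : A i * ((2 : ℝ) ^ i / 2 ^ j) ^ 2 ≤ 1 := by
                have h9 : ((2 : ℝ) ^ i / 2 ^ j) ^ 2 = 4 ^ i / 4 ^ j := by
                  rw [div_pow, ← pow_mul, ← pow_mul, mul_comm i, mul_comm j, pow_mul, pow_mul]
                  norm_num
                rw [h9, ← mul_div_assoc, div_le_one (by positivity)]
                exact h7
              have h10 : (2 : ℝ) ^ i / 2 ^ j ≤ 1 := by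
                rw [div_le_one (by positivity)]
                exact pow_le_pow_right₀ (by norm_num) hij
              have h11 : A i * ((2 : ℝ) ^ i / 2 ^ j) ^ 2 ≤ Λ / 2 ^ (j - i) := by
                have h12 : ((2 : ℝ) ^ i / 2 ^ j) ^ 2 ≤ (2 : ℝ) ^ i / 2 ^ j := by
                  rw [sq]
                  exact mul_le_of_le_one_left (by positivity) h10
                calc A i * ((2 : ℝ) ^ i / 2 ^ j) ^ 2 ≤ Λ * ((2 : ℝ) ^ i / 2 ^ j) :=
                      mul_le_mul (hAΛ i) h12 (by positivity) hΛ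
                  _ = Λ / 2 ^ (j - i) := by rw [ratio hij, mul_one_div]
              have h13 : 0 ≤ A i * ((2 : ℝ) ^ i / 2 ^ j) ^ 2 :=
                mul_nonneg (hA0 i) (by positivity)
              exact (mul_le_of_le_one_left h13 (hI1 i)).trans (le_min h8 h11)
          · by_contra hne
            have h7 : I i ≠ 0 := fun h0 => hne (by rw [h0, zero_mul])
            exact absurd (hI i h7).1 (not_le.2 hij)
  linarith

theorem main2 (hκh : κ ≤ h) (hκj : κ ≤ j + 1) (hΛ : 0 ≤ Λ)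
    (hM : ∀ n : ℕ, ∑ i ∈ range n, min 1 (Λ / 2 ^ i) ≤ M) (hA0 : ∀ i, 0 ≤ A i)
    (hAΛ : ∀ i, A i ≤ Λ) (hI0 : ∀ i, 0 ≤ I i) (hIκ : ∀ i, i < κ → I i = 1) :
    ∑ k ∈ range κ, (2 : ℝ) ^ (j + k) /
        (1 + ∑ i ∈ Finset.Ico k h, I i * (A i * (2 ^ i / 2 ^ j))) *
        ∑ i ∈ Finset.Ico k κ, A i ≤ 2 * 4 ^ j * M := by
  have h0 : ∀ i, 0 ≤ I i * (A i * ((2 : ℝ) ^ i / 2 ^ j)) := fun i =>
    mul_nonneg (hI0 i) (mul_nonneg (hA0 i) (by positivity))
  have hu0 : ∀ i, 0 ≤ A i * ((2 : ℝ) ^ i / 2 ^ j) := fun i => mul_nonneg (hA0 i) (by positivity)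
  simp only [mul_sum]
  have h3 : ∑ k ∈ range κ, ∑ i ∈ Finset.Ico k κ, (2 : ℝ) ^ (j + k) /
        (1 + ∑ i ∈ Finset.Ico k h, I i * (A i * (2 ^ i / 2 ^ j))) * A i =
      ∑ i ∈ range κ, ∑ k ∈ (range κ).filter (fun k => k ≤ i), (2 : ℝ) ^ (j + k) /
        (1 + ∑ i ∈ Finset.Ico k h, I i * (A i * (2 ^ i / 2 ^ j))) * A i := by
    refine sum_comm' fun k i => ?_
    rw [mem_range, Finset.mem_Ico, mem_filter, mem_range, mem_range]
    tauto
  rw [h3]
  calc ∑ i ∈ range κ, ∑ k ∈ (range κ).filter (fun k => k ≤ i), (2 : ℝ) ^ (j + k) /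
        (1 + ∑ i ∈ Finset.Ico k h, I i * (A i * (2 ^ i / 2 ^ j))) * A i
      ≤ ∑ i ∈ range κ, 2 * 4 ^ j * (A i * (2 ^ i / 2 ^ j) / (1 + A i * (2 ^ i / 2 ^ j))) := by
        refine sum_le_sum fun i hi => ?_
        have hi' := mem_range.1 hi
        have h4 : ∀ k ∈ (range κ).filter (fun k => k ≤ i), (2 : ℝ) ^ (j + k) /
            (1 + ∑ i ∈ Finset.Ico k h, I i * (A i * (2 ^ i / 2 ^ j))) * A i ≤
            (2 : ℝ) ^ k / 2 ^ j * (4 ^ j * (A i / (1 + A i * (2 ^ i / 2 ^ j)))) := by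
          intro k hk
          have hk' := (mem_filter.1 hk).2
          have h5 : 1 + A i * ((2 : ℝ) ^ i / 2 ^ j) ≤
              1 + ∑ i ∈ Finset.Ico k h, I i * (A i * (2 ^ i / 2 ^ j)) := by
            have h6 := single_le_sum (f := fun i => I i * (A i * ((2 : ℝ) ^ i / 2 ^ j)))
              (fun i _ => h0 i) (Finset.mem_Ico.2 ⟨hk', lt_of_lt_of_le hi' hκh⟩)
            simp only [hIκ i hi', one_mul] at h6
            linarith
          have h7 : (0 : ℝ) < 1 + A i * (2 ^ i / 2 ^ j) := by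
            have := hu0 i
            linarith
          have h8 : (2 : ℝ) ^ (j + k) = 2 ^ k / 2 ^ j * 4 ^ j := by
            have h9 : (4 : ℝ) ^ j = 2 ^ j * 2 ^ j := by
              rw [← mul_pow]
              norm_num
            rw [h9, pow_add]
            have h10 : (2 : ℝ) ^ j ≠ 0 := by positivity
            field_simp
          calc (2 : ℝ) ^ (j + k) /
                (1 + ∑ i ∈ Finset.Ico k h, I i * (A i * (2 ^ i / 2 ^ j))) * A i
              ≤ (2 : ℝ) ^ (j + k) / (1 + A i * (2 ^ i / 2 ^ j)) * A i :=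
                mul_le_mul_of_nonneg_right
                  (div_le_div_of_nonneg_left (by positivity) h7 h5) (hA0 i)
            _ = _ := by
                rw [h8]
                ring
        refine (sum_le_sum h4).trans ?_
        rw [← sum_mul]
        have h11 : 0 ≤ (4 : ℝ) ^ j * (A i / (1 + A i * (2 ^ i / 2 ^ j))) := by
          have := hu0 i
          exact mul_nonneg (by positivity) (div_nonneg (hA0 i) (by linarith))
        refine (mul_le_mul_of_nonneg_right (geo' κ i j) h11).trans (le_of_eq ?_)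
        ring
    _ = 2 * 4 ^ j * ∑ i ∈ range κ, A i * (2 ^ i / 2 ^ j) / (1 + A i * (2 ^ i / 2 ^ j)) := by
        rw [mul_sum]
    _ = 2 * 4 ^ j * ∑ i ∈ range κ,
          (if i < κ then A i * (2 ^ i / 2 ^ j) / (1 + A i * (2 ^ i / 2 ^ j)) else 0) := by
        congr 1
        refine sum_congr rfl fun i hi => ?_
        rw [if_pos (mem_range.1 hi)]
    _ ≤ 2 * 4 ^ j * M := by
        refine mul_le_mul_of_nonneg_left ?_ (by positivity)
        refine sum_min hΛ hM j κ _ (fun i hij => ?_) fun i hij => ?_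
        · split_ifs with hi
          · have h7 : (0 : ℝ) < 1 + A i * (2 ^ i / 2 ^ j) := by
              have := hu0 i
              linarith
            refine le_min ?_ ?_
            · rw [div_le_one h7]
              linarith
            · calc A i * ((2 : ℝ) ^ i / 2 ^ j) / (1 + A i * (2 ^ i / 2 ^ j))
                  ≤ A i * ((2 : ℝ) ^ i / 2 ^ j) :=
                    div_le_self (hu0 i) (by have := hu0 i; linarith)
                _ ≤ Λ * ((2 : ℝ) ^ i / 2 ^ j) :=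
                    mul_le_mul_of_nonneg_right (hAΛ i) (by positivity)
                _ = Λ / 2 ^ (j - i) := by rw [ratio hij, mul_one_div]
          · exact le_min zero_le_one (by positivity)
        · rw [if_neg]
          omega

end

end AmpM

theorem ampP (h1 : EgProp) (h2 : RsProp) (h3 : SumMProp) : AmpProp := by
  intro S _ D rp a h ρ Λ hPM hArms j x
  obtain ⟨hκh, hκj, hlv⟩ := (h2 S D rp a h ρ Λ hPM hArms).1 (j + 1) x
  have hA0 : ∀ i, 0 ≤ a i (rp i x) := fun i => hArms.nonneg i _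
  have hAΛ : ∀ i, a i (rp i x) ≤ Λ := fun i => hArms.le i _
  have hΛ : 0 ≤ Λ := (hA0 0).trans (hAΛ 0)
  have hM : ∀ n : ℕ, ∑ i ∈ range n, min 1 (Λ / 2 ^ i) ≤ m0 Λ := fun n => h3 n Λ hΛ
  have hI0 : ∀ i, 0 ≤ ind (lv rp a i x ≤ j + 1) := fun i => by
    unfold ind
    split_ifs <;> norm_num
  have hI1 : ∀ i, ind (lv rp a i x ≤ j + 1) ≤ 1 := fun i => by
    unfold ind
    split_ifs <;> norm_num
  have hI : ∀ i, ind (lv rp a i x ≤ j + 1) ≠ 0 → i ≤ j ∧ a i (rp i x) * 4 ^ i ≤ 4 ^ j := by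
    intro i hi
    have hi' : lv rp a i x ≤ j + 1 := by
      by_contra hne
      exact hi (if_neg hne)
    have hi2 : i + eg (a i (rp i x)) ≤ j := by
      have : i + 1 + eg (a i (rp i x)) ≤ j + 1 := hi'
      omega
    refine ⟨by omega, ?_⟩
    have h4 : a i (rp i x) ≤ 4 ^ eg (a i (rp i x)) := (le_max_right _ _).trans (h1.1 _)
    calc a i (rp i x) * 4 ^ i ≤ 4 ^ eg (a i (rp i x)) * 4 ^ i :=
          mul_le_mul_of_nonneg_right h4 (by positivity)
      _ = 4 ^ (i + eg (a i (rp i x))) := by rw [pow_add, mul_comm]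
      _ ≤ 4 ^ j := pow_le_pow_right₀ (by norm_num) hi2
  have hIκ : ∀ i, i < tj rp a h (j + 1) x → ind (lv rp a i x ≤ j + 1) = 1 := fun i hi =>
    if_pos (hlv i hi)
  refine ⟨?_, ?_, fun k => ?_⟩
  · exact AmpM.main1 _ h j (fun i => a i (rp i x)) (fun i => ind (lv rp a i x ≤ j + 1)) Λ (m0 Λ)
      hκj hΛ hM hA0 hAΛ hI0 hI1 hI
  · exact AmpM.main2 _ h j (fun i => a i (rp i x)) (fun i => ind (lv rp a i x ≤ j + 1)) Λ (m0 Λ)
      hκh hκj hΛ hM hA0 hAΛ hI0 hIκ
  · have h5 : 0 ≤ ∑ i ∈ Finset.Ico k h, ind (lv rp a i x ≤ j + 1) *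
        (a i (rp i x) * (2 ^ i / 2 ^ j)) :=
      sum_nonneg fun i _ => mul_nonneg (hI0 i) (mul_nonneg (hA0 i) (by positivity))
    unfold Bj
    linarith

end Pool.Agent.MP_a4c1f4_lc.Pad
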