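import Pool.Agent.Lib.MP_a4c1f4_lc.Pad.Spec
import Pool.Agent.Lib.MP_a4c1f4_lc.Dbl.Core
import Pool.Agent.Lib.MP_a4c1f4_lc.Dbl.Par

set_option linter.all false

/-!
# Theorem P: assembly of the algorithm
-/

namespace Pool.Agent.MP_a4c1f4_lc.Pad

open Finset Pool.Agent.MP_a4c1f4_lc Pool.Agent.MP_a4c1f4_lc.Dbl

namespace CoreQM

/-- The parameters. -/
theorem par (M N : ℕ) (α : ℝ) : ∃ (η : ℝ) (G : ℕ), 0 < η ∧ η ≤ 1 / 2 ∧
    erq M G η α * M * N ≤ 1 := by
  have hM : (0 : ℝ) ≤ M := Nat.cast_nonneg M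
  have hN : (0 : ℝ) ≤ N := Nat.cast_nonneg N
  set η : ℝ := 1 / (4 * ((M : ℝ) + 1) ^ 2 * ((N : ℝ) + 1)) with hη
  have hpos : 0 < η := by positivity
  have hle : η ≤ 1 / 2 := by
    rw [hη]
    apply one_div_le_one_div_of_le (by norm_num)
    have h1 : (1 : ℝ) ≤ ((M : ℝ) + 1) ^ 2 := by nlinarith
    nlinarith
  obtain ⟨G, hG⟩ := ParM.exists_small (1 - η) (M * α * M * N) ((M + 1) * M * N)
    (by linarith) (by linarith)
  refine ⟨η, G, hpos, hle, ?_⟩
  have h1 : η * ((M : ℝ) + 1) * M * N ≤ 1 / 4 := by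
    have e : η * ((M : ℝ) + 1) * M * N = 1 / 4 * (M / (M + 1)) * (N / (N + 1)) := by
      rw [hη]
      field_simp
    rw [e]
    have h2 : (M : ℝ) / (M + 1) ≤ 1 := by
      rw [div_le_one (by positivity)]
      linarith
    have h3 : (N : ℝ) / (N + 1) ≤ 1 := by
      rw [div_le_one (by positivity)]
      linarith
    have h4 : (0 : ℝ) ≤ (M : ℝ) / (M + 1) := by positivity
    have h5 : (0 : ℝ) ≤ (N : ℝ) / (N + 1) := by positivity
    nlinarith [mul_le_mul h2 h3 h5 zero_le_one]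
  unfold erq
  have e2 : (η * ((M : ℝ) + 1) + (1 - η) ^ G * (M * (α * G + 1) + 1)) * M * N
      = η * ((M : ℝ) + 1) * M * N
        + (1 - η) ^ G * (M * α * M * N * G + (M + 1) * M * N) := by
    ring
  rw [e2]
  linarith

/-- The constant `α`. -/
theorem alp {Ω Q : Type} [Fintype Ω] [Fintype Q] (am : Ω → ℕ → Q → ℝ) (H : ℕ)
    (h : ∀ ω j c, 0 < am ω j c) :
    ∃ α : ℝ, ∀ ω j, j < H → ∀ c, ∑ c', am ω j c' ≤ α * am ω j c := by
  have hn : ∀ ω j c, 0 ≤ (∑ c', am ω j c') / am ω j c := fun ω j c =>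
    div_nonneg (Finset.sum_nonneg fun c' _ => (h ω j c').le) (h ω j c).le
  refine ⟨∑ ω, ∑ j ∈ range H, ∑ c, (∑ c', am ω j c') / am ω j c, fun ω j hj c => ?_⟩
  rw [← div_le_iff₀ (h ω j c)]
  have h1 : (∑ c', am ω j c') / am ω j c ≤ ∑ c, (∑ c', am ω j c') / am ω j c :=
    Finset.single_le_sum (f := fun c => (∑ c', am ω j c') / am ω j c)
      (fun c _ => hn ω j c) (Finset.mem_univ c)
  have h2 : ∑ c, (∑ c', am ω j c') / am ω j c ≤
      ∑ j ∈ range H, ∑ c, (∑ c', am ω j c') / am ω j c :=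
    Finset.single_le_sum (f := fun j => ∑ c, (∑ c', am ω j c') / am ω j c)
      (fun j _ => Finset.sum_nonneg fun c _ => hn ω j c) (Finset.mem_range.2 hj)
  have h3 : ∑ j ∈ range H, ∑ c, (∑ c', am ω j c') / am ω j c ≤
      ∑ ω, ∑ j ∈ range H, ∑ c, (∑ c', am ω j c') / am ω j c :=
    Finset.single_le_sum (f := fun ω => ∑ j ∈ range H, ∑ c, (∑ c', am ω j c') / am ω j c)
      (fun ω _ => Finset.sum_nonneg fun j _ => Finset.sum_nonneg fun c _ => hn ω j c)
      (Finset.mem_univ ω)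
  exact h1.trans (h2.trans h3)

end CoreQM

theorem coreQP (h1 : ExgProp) (h2 : ChnProp) (h3 : LvQProp) (h4 : FeSProp) (h5 : AlgDProp) :
    CoreQProp := by
  intro S T _ _ _ _ D σ R κ hD hRF
  obtain ⟨Ω1, Q, _, _, _, w1, rs, H, ρ, dg, q, am, ct, R1, R2, hw0, hw1, hH, hF, hR, hκ⟩ := hRF
  obtain ⟨α, hα⟩ := CoreQM.alp am H (fun ω j c => (hF ω).am_pos j c)
  obtain ⟨η, G, hη0, hη2, her⟩ := CoreQM.par (Fintype.card T) (Fintype.card Q) α
  obtain ⟨e1, e2, _, _, _⟩ := h1 (Fin H × Q) G η hη0.le (by linarith)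
  have hne : Nonempty Ω1 := by
    by_contra hcon
    rw [not_nonempty_iff] at hcon
    rw [Fintype.sum_empty] at hw1
    exact zero_ne_one hw1
  obtain ⟨ω0⟩ := hne
  have hR12 : 0 ≤ R1 * R2 := mul_nonneg (hF ω0).R1n (hF ω0).R2n
  have hR0 : 0 ≤ R := by linarith
  refine ⟨Ω1 × (Fin H × Q → Fin (G + 1)), inferInstance,
    fun p => w1 p.1 * ∏ i, gw (1 - η) G (p.2 i),
    fun p x l => nw σ (rs p.1) (Yt σ (q p.1) (am p.1) η p.2) H x l, ?_, ?_, ?_, ?_⟩
  · intro p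
    exact mul_nonneg (hw0 p.1) (e1 p.2)
  · rw [Fintype.sum_prod_type]
    have h7 : ∀ ω : Ω1, ∑ g : Fin H × Q → Fin (G + 1), w1 ω * ∏ i, gw (1 - η) G (g i) =
        w1 ω := by
      intro ω
      rw [← Finset.mul_sum]
      exact (congrArg (fun x => w1 ω * x) e2).trans (mul_one _)
    rw [Finset.sum_congr rfl fun ω _ => h7 ω]
    exact hw1
  · intro p l hl
    exact h5 S T D σ (rs p.1) H ρ dg (Yt σ (q p.1) (am p.1) η p.2) (hH p.1) l hl
  · intro l τ hτ
    have hlen : l.length ≤ Fintype.card T := by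
      rw [← hτ.1]
      exact hτ.2.length_le_card
    have hfix : ∀ ω : Ω1, Exg G η (fun g : Fin H × Q → Fin (G + 1) =>
        stp (fun x l => D (σ x) (σ (nw σ (rs ω) (Yt σ (q ω) (am ω) η g) H x l))) l) ≤
        R * ∑ j ∈ range H, 4 ^ (j + 1) * ρ * sp σ (rs ω j) l τ := by
      intro ω
      have hstep : ∀ g : Fin H × Q → Fin (G + 1),
          stp (fun x l => D (σ x) (σ (nw σ (rs ω) (Yt σ (q ω) (am ω) η g) H x l))) l ≤
          ∑ j ∈ range H, (fe σ (rs ω) j l * (4 ^ (j + 1) * ρ) +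
            stp (mv D σ (rs ω) (Yt σ (q ω) (am ω) η g) j) l) := by
        intro g
        refine (CrAux.stp_le (M := Fintype.card T) (fun x l hl =>
          h2 S T D σ (rs ω) H ρ dg (Yt σ (q ω) (am ω) η g) hD (hH ω) x l hl) l hlen).trans
          (le_of_eq ?_)
        rw [CrAux.stp_sum (range H) (fun j x l => ind (Full σ (rs ω) j x l) *
          (4 ^ (j + 1) * ρ) + mv D σ (rs ω) (Yt σ (q ω) (am ω) η g) j x l) l]
        refine Finset.sum_congr rfl fun j _ => ?_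
        rw [CrAux.stp_add, CrAux.stp_mul]
        rfl
      refine (CrAux.Exg_le e1 hstep).trans ?_
      rw [CrAux.Exg_lin e2 (range H) (fun j => fe σ (rs ω) j l * (4 ^ (j + 1) * ρ))
        (fun j (g : Fin H × Q → Fin (G + 1)) =>
          stp (mv D σ (rs ω) (Yt σ (q ω) (am ω) η g) j) l), Finset.mul_sum]
      refine Finset.sum_le_sum fun j hj => ?_
      have hj' := Finset.mem_range.1 hj
      have h8 := h3 S T Q D σ (rs ω) H ρ dg (q ω) (am ω) (ct ω) R1 R2 G η α j l hD (hH ω)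
        (hF ω) hη0 hη2 hj' (fun c => hα ω j hj' c) hlen her
      have h4' := h4 S T σ (rs ω) H (fun _ _ => 0) (hH ω).nest j l
      have h9 := h4'.2.2.2 τ hτ
      have h0 : 0 ≤ fe σ (rs ω) j l := by
        rcases h4'.1 with h | h
        · rw [h]
        · linarith
      have hρ := (hH ω).pos
      have h10 : (0 : ℝ) ≤ 4 ^ (j + 1) * ρ := by positivity
      have h11 : 4 ^ (j + 1) * ρ * fe σ (rs ω) j l ≤ 4 ^ (j + 1) * ρ * sp σ (rs ω j) l τ :=
        mul_le_mul_of_nonneg_left h9 h10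
      have h13 : 0 ≤ 4 ^ (j + 1) * ρ * fe σ (rs ω) j l := mul_nonneg h10 h0
      calc fe σ (rs ω) j l * (4 ^ (j + 1) * ρ) +
            Exg G η (fun g : Fin H × Q → Fin (G + 1) =>
              stp (mv D σ (rs ω) (Yt σ (q ω) (am ω) η g) j) l) ≤
          fe σ (rs ω) j l * (4 ^ (j + 1) * ρ) +
            4 ^ (j + 1) * ρ * (R1 * R2 + 1) * fe σ (rs ω) j l :=
            add_le_add le_rfl h8
        _ = (R1 * R2 + 2) * (4 ^ (j + 1) * ρ * fe σ (rs ω) j l) := by ring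
        _ ≤ R * (4 ^ (j + 1) * ρ * fe σ (rs ω) j l) := mul_le_mul_of_nonneg_right hR h13
        _ ≤ _ := mul_le_mul_of_nonneg_left h11 hR0
    have hsplit : ∑ p : Ω1 × (Fin H × Q → Fin (G + 1)),
        (w1 p.1 * ∏ i, gw (1 - η) G (p.2 i)) *
        stp (fun x l => D (σ x)
          (σ (nw σ (rs p.1) (Yt σ (q p.1) (am p.1) η p.2) H x l))) l =
        ∑ ω, w1 ω * Exg G η (fun g : Fin H × Q → Fin (G + 1) =>
          stp (fun x l => D (σ x) (σ (nw σ (rs ω) (Yt σ (q ω) (am ω) η g) H x l))) l) := by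
      rw [Fintype.sum_prod_type]
      refine Finset.sum_congr rfl fun ω _ => ?_
      unfold Exg
      rw [Finset.mul_sum]
      refine Finset.sum_congr rfl fun g _ => ?_
      rw [mul_assoc]
    have hmain : ∑ ω, w1 ω * Exg G η (fun g : Fin H × Q → Fin (G + 1) =>
          stp (fun x l => D (σ x) (σ (nw σ (rs ω) (Yt σ (q ω) (am ω) η g) H x l))) l) ≤
        R * κ * acost (fun s t => D (σ s) (σ t)) l τ := by
      calc ∑ ω, w1 ω * Exg G η (fun g : Fin H × Q → Fin (G + 1) =>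
            stp (fun x l => D (σ x) (σ (nw σ (rs ω) (Yt σ (q ω) (am ω) η g) H x l))) l) ≤
          ∑ ω, w1 ω * (R * ∑ j ∈ range H, 4 ^ (j + 1) * ρ * sp σ (rs ω j) l τ) :=
            Finset.sum_le_sum fun ω _ => mul_le_mul_of_nonneg_left (hfix ω) (hw0 ω)
        _ = R * ∑ ω, w1 ω * ∑ j ∈ range H, 4 ^ (j + 1) * ρ * sp σ (rs ω j) l τ := by
            rw [Finset.mul_sum]
            refine Finset.sum_congr rfl fun ω _ => ?_
            ring
        _ ≤ R * (κ * acost (fun s t => D (σ s) (σ t)) l τ) :=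
            mul_le_mul_of_nonneg_left (CrAux.sp_bound D σ w1 rs H ρ κ hκ l τ hτ.1) hR0
        _ = _ := by ring
    exact (le_of_eq hsplit).trans hmain

end Pool.Agent.MP_a4c1f4_lc.Pad
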