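import Pool.Agent.Lib.MP_a4c1f4_lc.Pad.Spec

set_option linter.all false

/-!
The deterministic part: hierarchy and arms from partitions of all levels.
-/

namespace Pool.Agent.MP_a4c1f4_lc.Pad

open Finset Pool.Agent.MP_a4c1f4_lc Pool.Agent.MP_a4c1f4_lc.Dbl

namespace DetM

/-- The relation of level `k`. -/
def Rl {S : Type} (p : ℕ → S → ℕ × S) (h k : ℕ) (x y : S) : Prop :=
  ∀ i, k ≤ i → i < h → p i x = p i y

theorem choose_congr {S : Type} {P Q : S → Prop} (h : P = Q) (hp : ∃ x, P x) (hq : ∃ x, Q x) :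
    hp.choose = hq.choose := by
  subst h
  rfl

theorem rpo_spec {S : Type} (p : ℕ → S → ℕ × S) (h k : ℕ) (x : S) :
    Rl p h k (rpo p h k x) x := by
  unfold rpo
  have hh : ∃ y, ∀ i, k ≤ i → i < h → p i y = p i x := ⟨x, fun _ _ _ => rfl⟩
  rw [dif_pos hh]
  exact hh.choose_spec

theorem rpo_eq_of {S : Type} (p : ℕ → S → ℕ × S) (h k : ℕ) (x y : S) (H : Rl p h k x y) :
    rpo p h k x = rpo p h k y := by
  unfold rpo
  have h1 : (fun z => ∀ i, k ≤ i → i < h → p i z = p i x) =
      (fun z => ∀ i, k ≤ i → i < h → p i z = p i y) := by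
    funext z
    apply propext
    constructor
    · intro h1 i hi hi'
      rw [h1 i hi hi', H i hi hi']
    · intro h1 i hi hi'
      rw [h1 i hi hi', H i hi hi']
  have hx : ∃ z, ∀ i, k ≤ i → i < h → p i z = p i x := ⟨x, fun _ _ _ => rfl⟩
  have hy : ∃ z, ∀ i, k ≤ i → i < h → p i z = p i y := ⟨y, fun _ _ _ => rfl⟩
  rw [dif_pos hx, dif_pos hy]
  exact choose_congr h1 hx hy

theorem rpo_iff {S : Type} (p : ℕ → S → ℕ × S) (h k : ℕ) (x y : S) :
    rpo p h k x = rpo p h k y ↔ Rl p h k x y := by
  constructor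
  · intro H i hi hi'
    rw [← rpo_spec p h k x i hi hi', ← rpo_spec p h k y i hi hi', H]
  · exact rpo_eq_of p h k x y

theorem rpo_idem {S : Type} (p : ℕ → S → ℕ × S) (h k : ℕ) (x : S) :
    rpo p h k (rpo p h k x) = rpo p h k x :=
  rpo_eq_of p h k _ _ (rpo_spec p h k x)

theorem Rl.up {S : Type} {p : ℕ → S → ℕ × S} {h k : ℕ} {x y : S} (H : Rl p h k x y) :
    Rl p h (k + 1) x y := fun i hi hi' => H i (by omega) hi'

theorem nb_pos {S : Type} [Fintype S] {D : S → S → ℝ} (hD : PM D) (r : ℝ) (hr : 0 ≤ r) (x : S) :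
    (1 : ℝ) ≤ (nb D r x : ℝ) := by
  have h1 : 0 < nb D r x := by
    unfold nb
    apply Finset.card_pos.mpr
    refine ⟨x, ?_⟩
    rw [Finset.mem_filter]
    exact ⟨Finset.mem_univ _, by rw [hD.self]; exact hr⟩
  exact_mod_cast h1

theorem nb_le_card {S : Type} [Fintype S] (D : S → S → ℝ) (r : ℝ) (x : S) :
    (nb D r x : ℝ) ≤ (Fintype.card S : ℝ) := by
  have h1 : nb D r x ≤ Fintype.card S := by
    unfold nb
    exact (Finset.card_le_card (Finset.filter_subset _ _)).trans (le_of_eq Finset.card_univ)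
  exact_mod_cast h1

theorem nbh_le_card {S : Type} [Fintype S] (D : S → S → ℝ) (v : Finset S) (r : ℝ) :
    (nbh D v r : ℝ) ≤ (Fintype.card S : ℝ) := by
  have h1 : nbh D v r ≤ Fintype.card S := by
    unfold nbh
    exact (Finset.card_le_card (Finset.filter_subset _ _)).trans (le_of_eq Finset.card_univ)
  exact_mod_cast h1

open Classical in
/-- The class of level `k + 1`. -/
noncomputable def V {S : Type} [Fintype S] (p : ℕ → S → ℕ × S) (h k : ℕ) (z : S) : Finset S :=
  Finset.univ.filter (fun y => rpo p h (k + 1) y = rpo p h (k + 1) z)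

open Classical in
theorem mem_V {S : Type} [Fintype S] (p : ℕ → S → ℕ × S) (h k : ℕ) (z y : S) :
    y ∈ V p h k z ↔ Rl p h (k + 1) y z := by
  unfold V
  rw [Finset.mem_filter, rpo_iff]
  exact ⟨fun H => H.2, fun H => ⟨Finset.mem_univ _, H⟩⟩

open Classical in
theorem V_eq {S : Type} [Fintype S] (p : ℕ → S → ℕ × S) (h k : ℕ) (x z : S)
    (H : Rl p h (k + 1) x z) : V p h k x = V p h k z := by
  unfold V
  rw [rpo_eq_of p h (k + 1) x z H]

open Classical in
theorem ao_eq {S : Type} [Fintype S] (D : S → S → ℝ) (ρ : ℝ) (p : ℕ → S → ℕ × S)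
    (M : ℕ → ℕ × S → ℝ) (h k : ℕ) (z : S) (hk : k < h) :
    ao D ρ p M h k z = Real.log (nbh D (V p h k z) (4 ^ k * ρ)) - Real.log (M k (p k z)) := by
  unfold ao V
  rw [if_pos hk]

end DetM

open DetM

open Classical in
theorem detP : DetProp := by
  intro S _ _ D β ρ h p M hD hβ hρ hbig hsmall hlev
  have hc1 : (1 : ℝ) ≤ (Fintype.card S : ℝ) := by
    have : 0 < Fintype.card S := Fintype.card_pos
    exact_mod_cast this
  have hlogc : 0 ≤ Real.log (Fintype.card S : ℝ) := Real.log_nonneg hc1
  have hlog2 : Real.log 2 ≤ 1 := by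
    have := Real.log_two_lt_d9
    linarith
  have hlog2' : 0 < Real.log 2 := Real.log_pos (by norm_num)
  have hpk : ∀ k : ℕ, (0 : ℝ) < 4 ^ k * ρ := fun k => by positivity
  -- positivity of the masses
  have hnb : ∀ k, k < h → ∀ x, (1 : ℝ) ≤ (nb D (4 ^ k * ρ / (8 * β)) x : ℝ) := by
    intro k hk x
    apply nb_pos hD
    have := hpk k
    positivity
  have hMpos : ∀ k, k < h → ∀ x, 0 < M k (p k x) := by
    intro k hk x
    have h1 := (hlev k hk).2.1 x
    have h2 := hnb k hk x
    have h3 : (0 : ℝ) < 2 ^ ((p k x).1 + 1) := by positivity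
    by_contra hcon
    push Not at hcon
    nlinarith [mul_nonneg h3.le (neg_nonneg.mpr hcon)]
  have hMle : ∀ k, k < h → ∀ z, M k (p k z) ≤ (nbh D (V p h k z) (4 ^ k * ρ) : ℝ) := by
    intro k hk z
    refine le_trans ?_ ((hlev k hk).2.2.1 (V p h k z))
    apply Finset.single_le_sum (f := fun w => M k w)
    · intro w hw
      rw [Finset.mem_image] at hw
      obtain ⟨y, hy, rfl⟩ := hw
      exact (hMpos k hk y).le
    · rw [Finset.mem_image]
      exact ⟨z, (mem_V p h k z z).mpr (fun _ _ _ => rfl), rfl⟩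
  have hnbhpos : ∀ k, k < h → ∀ z, (0 : ℝ) < (nbh D (V p h k z) (4 ^ k * ρ) : ℝ) :=
    fun k hk z => lt_of_lt_of_le (hMpos k hk z) (hMle k hk z)
  -- the diameter of the classes
  have hdiam : ∀ k, k ≤ h → ∀ x y, rpo p h k x = rpo p h k y → D x y ≤ 4 ^ k * ρ := by
    intro k hk x y hxy
    rw [rpo_iff] at hxy
    rcases lt_or_eq_of_le hk with hk' | hk'
    · exact (hlev k hk').1 x y (hxy k le_rfl hk')
    · rw [hk']
      exact hbig x y
  -- lower bound of the logarithm of the mass
  have hlogM : ∀ k, k < h → ∀ x, Real.log (nb D (4 ^ k * ρ / (8 * β)) x) -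
      Real.log 2 * (((p k x).1 : ℝ) + 1) ≤ Real.log (M k (p k x)) := by
    intro k hk x
    have h1 := (hlev k hk).2.1 x
    have h2 := hnb k hk x
    have h3 := hMpos k hk x
    have h4 : Real.log (nb D (4 ^ k * ρ / (8 * β)) x) ≤
        Real.log (2 ^ ((p k x).1 + 1) * M k (p k x)) :=
      Real.log_le_log (by linarith) h1
    rw [Real.log_mul (by positivity) h3.ne', Real.log_pow] at h4
    push_cast at h4
    linarith
  refine ⟨?_, ?_, ?_⟩
  · refine ⟨⟨?_, ?_, hdiam, ?_, ?_, hρ⟩, ?_, ?_, ?_, ?_⟩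
    · -- nest
      intro k hk x y hxy
      rw [rpo_iff] at hxy ⊢
      exact hxy.up
    · -- zero
      intro x y hxy
      have h1 := hdiam 0 (Nat.zero_le _) x y hxy
      apply hsmall
      simpa using h1
    · -- one
      intro x y
      rw [rpo_iff]
      intro i hi hi'
      omega
    · -- deg
      intro k hk x
      refine (Finset.card_le_univ _)
    · -- idem
      intro k x hk
      exact rpo_idem p h k x
    · -- nonneg
      intro k z
      by_cases hk : k < h
      · rw [ao_eq D ρ p M h k z hk]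
        have := Real.log_le_log (hMpos k hk z) (hMle k hk z)
        linarith
      · unfold ao
        rw [if_neg hk]
    · -- le
      intro k z
      by_cases hk : k < h
      · rw [ao_eq D ρ p M h k z hk]
        have h1 : Real.log (nbh D (V p h k z) (4 ^ k * ρ) : ℝ) ≤ Real.log (Fintype.card S) :=
          Real.log_le_log (hnbhpos k hk z) (nbh_le_card D _ _)
        have h2 := hlogM k hk z
        have h3 : 0 ≤ Real.log (nb D (4 ^ k * ρ / (8 * β)) z) := Real.log_nonneg (hnb k hk z)
        have h4 := (hlev k hk).2.2.2 z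
        have h5 : Real.log ((4 : ℝ) ^ ((p k z).1 + 1)) ≤ Real.log (16 * Fintype.card S) :=
          Real.log_le_log (by positivity) h4
        rw [Real.log_pow, Real.log_mul (by norm_num) (by linarith)] at h5
        have h6 : Real.log 4 = 2 * Real.log 2 := by
          rw [show (4 : ℝ) = 2 ^ 2 by norm_num, Real.log_pow]
          norm_num
        have h7 : Real.log 16 = 4 * Real.log 2 := by
          rw [show (16 : ℝ) = 2 ^ 4 by norm_num, Real.log_pow]
          norm_num
        rw [h6, h7] at h5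
        push_cast at h5
        nlinarith
      · unfold ao
        rw [if_neg hk]
        linarith
    · -- kraft
      intro k hk x
      have hterm : ∀ z ∈ (Finset.univ.filter (fun y => rpo p h (k + 1) y =
          rpo p h (k + 1) x)).image (rpo p h k), Real.exp (-(ao D ρ p M h k z)) =
            M k (p k z) / (nbh D (V p h k x) (4 ^ k * ρ) : ℝ) := by
        intro z hz
        rw [Finset.mem_image] at hz
        obtain ⟨y, hy, rfl⟩ := hz
        rw [Finset.mem_filter, rpo_iff] at hy
        have h1 : Rl p h (k + 1) (rpo p h k y) x := by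
          intro i hi hi'
          rw [rpo_spec p h k y i (by omega) hi', hy.2 i hi hi']
        rw [ao_eq D ρ p M h k _ hk, V_eq p h k _ _ h1, neg_sub, Real.exp_sub,
          Real.exp_log (hMpos k hk _), Real.exp_log (hnbhpos k hk x)]
      rw [Finset.sum_congr rfl hterm, ← Finset.sum_div, div_le_one (hnbhpos k hk x)]
      refine le_trans ?_ ((hlev k hk).2.2.1 (V p h k x))
      have hinj : Set.InjOn (p k) ((Finset.univ.filter (fun y => rpo p h (k + 1) y =
          rpo p h (k + 1) x)).image (rpo p h k) : Finset S) := by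
        intro z hz z' hz' hzz
        rw [Finset.mem_coe, Finset.mem_image] at hz hz'
        obtain ⟨y, hy, rfl⟩ := hz
        obtain ⟨y', hy', rfl⟩ := hz'
        rw [Finset.mem_filter, rpo_iff] at hy hy'
        rw [rpo_iff]
        rw [rpo_spec p h k y k le_rfl hk, rpo_spec p h k y' k le_rfl hk] at hzz
        intro i hi hi'
        rcases Nat.eq_or_lt_of_le hi with h1 | h1
        · rw [← h1]
          exact hzz
        · rw [hy.2 i h1 hi', hy'.2 i h1 hi']
      rw [← Finset.sum_image (f := fun w => M k w) hinj]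
      apply Finset.sum_le_sum_of_subset_of_nonneg
      · intro w hw
        rw [Finset.mem_image] at hw
        obtain ⟨z, hz, rfl⟩ := hw
        rw [Finset.mem_image] at hz
        obtain ⟨y, hy, rfl⟩ := hz
        rw [Finset.mem_filter, rpo_iff] at hy
        rw [Finset.mem_image]
        exact ⟨y, (mem_V p h k x y).mpr hy.2, (rpo_spec p h k y k le_rfl hk).symm⟩
      · intro w hw _
        rw [Finset.mem_image] at hw
        obtain ⟨y, hy, rfl⟩ := hw
        exact (hMpos k hk y).le
  · -- second claim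
    intro k hk x
    rw [ao_eq D ρ p M h k _ hk, V_eq p h k _ x (rpo_spec p h k x).up,
      rpo_spec p h k x k le_rfl hk]
    have h1 : (nbh D (V p h k x) (4 ^ k * ρ) : ℝ) ≤ (nb D (5 * (4 ^ k * ρ)) x : ℝ) := by
      have : nbh D (V p h k x) (4 ^ k * ρ) ≤ nb D (5 * (4 ^ k * ρ)) x := by
        unfold nbh nb
        apply Finset.card_le_card
        intro y hy
        rw [Finset.mem_filter] at hy ⊢
        refine ⟨Finset.mem_univ _, ?_⟩
        obtain ⟨x', hx', hd⟩ := hy.2
        rw [mem_V] at hx'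
        have h2 := hdiam (k + 1) (by omega) x' x ((rpo_iff p h (k + 1) x' x).mpr hx')
        have h3 := hD.tri y x' x
        rw [hD.symm y x'] at h3
        have h4 : (4 : ℝ) ^ (k + 1) * ρ = 4 * (4 ^ k * ρ) := by ring
        linarith
      exact_mod_cast this
    have h2 : Real.log (nbh D (V p h k x) (4 ^ k * ρ) : ℝ) ≤
        Real.log (nb D (5 * (4 ^ k * ρ)) x : ℝ) := Real.log_le_log (hnbhpos k hk x) h1
    have h3 := hlogM k hk x
    linarith
  · -- third claim
    intro k x y hne
    by_contra hcon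
    push Not at hcon
    exact hne (rpo_eq_of p h k x y hcon)

end Pool.Agent.MP_a4c1f4_lc.Pad
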