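import Pool.Agent.Lib.MP_a4c1f4_lc.Pad.Spec

set_option autoImplicit false

namespace Pool.Agent.MP_a4c1f4_lc.Pad

open Finset Pool.Agent.MP_a4c1f4_lc Pool.Agent.MP_a4c1f4_lc.Dbl

namespace EgM

theorem one_le (u : ℝ) : 1 ≤ max 1 u := le_max_left _ _

theorem logb_nonneg (u : ℝ) : 0 ≤ Real.logb 4 (max 1 u) :=
  Real.logb_nonneg (by norm_num) (one_le u)

theorem pow_logb (u : ℝ) : (4 : ℝ) ^ Real.logb 4 (max 1 u) = max 1 u :=
  Real.rpow_logb (by norm_num) (by norm_num) (lt_of_lt_of_le one_pos (one_le u))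

end EgM

theorem egP : EgProp := by
  refine ⟨fun u => ?_, fun u => ?_, fun u v huv => ?_⟩
  · calc max 1 u = (4 : ℝ) ^ Real.logb 4 (max 1 u) := (EgM.pow_logb u).symm
      _ ≤ (4 : ℝ) ^ ((eg u : ℕ) : ℝ) :=
        Real.rpow_le_rpow_of_exponent_le (by norm_num) (Nat.le_ceil _)
      _ = 4 ^ (eg u) := Real.rpow_natCast _ _
  · calc (4 : ℝ) ^ (eg u) = (4 : ℝ) ^ ((eg u : ℕ) : ℝ) := (Real.rpow_natCast _ _).symm
      _ ≤ (4 : ℝ) ^ (Real.logb 4 (max 1 u) + 1) :=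
        Real.rpow_le_rpow_of_exponent_le (by norm_num) (Nat.ceil_lt_add_one (EgM.logb_nonneg u)).le
      _ = 4 * max 1 u := by
        rw [Real.rpow_add (by norm_num), EgM.pow_logb, Real.rpow_one]
        ring
  · refine Nat.ceil_mono ?_
    exact Real.logb_le_logb_of_le (by norm_num) (lt_of_lt_of_le one_pos (EgM.one_le u))
      (max_le_max_left 1 huv)

end Pool.Agent.MP_a4c1f4_lc.Pad
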