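import Pool.Agent.Lib.MP_a4c1f4_lc.Pad.Spec

/-!
# MP_a4c1f4_lc, Pad, file ExQ: the main probability estimate for a noise family
-/

namespace Pool.Agent.MP_a4c1f4_lc.Pad

open Finset Pool.Agent.MP_a4c1f4_lc Pool.Agent.MP_a4c1f4_lc.Dbl

namespace ExQM

theorem nvq_ne {Q : Type} [DecidableEq Q] {H G : ℕ} (g : Fin H × Q → Fin (G + 1)) (j : ℕ)
    (hj : j < H) (c : Q) (b : Fin (G + 1)) (j' : ℕ) (c' : Q) (hne : ¬ (j' = j ∧ c' = c)) :
    nvq (Function.update g (⟨j, hj⟩, c) b) j' c' = nvq g j' c' := by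
  unfold nvq
  split_ifs with hh
  · rw [Function.update_of_ne]
    intro he
    simp only [Prod.mk.injEq, Fin.mk.injEq] at he
    exact hne ⟨he.1, he.2⟩
  · rfl

theorem nvq_same {Q : Type} [DecidableEq Q] {H G : ℕ} (g : Fin H × Q → Fin (G + 1)) (j : ℕ)
    (hj : j < H) (c : Q) (b : Fin (G + 1)) :
    nvq (Function.update g (⟨j, hj⟩, c) b) j c = ((b : ℕ) : ℝ) := by
  unfold nvq
  rw [dif_pos hj, Function.update_self]

theorem nvq_nonneg {Q : Type} {H G : ℕ} (g : Fin H × Q → Fin (G + 1)) (j : ℕ) (c : Q) :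
    0 ≤ nvq g j c := by
  unfold nvq
  split_ifs
  · exact Nat.cast_nonneg _
  · exact le_rfl

theorem nvq_le {Q : Type} {H G : ℕ} (g : Fin H × Q → Fin (G + 1)) (j : ℕ) (c : Q) :
    nvq g j c ≤ G := by
  unfold nvq
  split_ifs with hj
  · have := (g (⟨j, hj⟩, c)).2
    exact_mod_cast Nat.lt_succ_iff.1 this
  · exact Nat.cast_nonneg _

theorem Yt_nonneg {S T Q : Type} [Fintype Q] {H G : ℕ} (σ : T → S) (q : ℕ → Q → S → Prop)
    (am : ℕ → Q → ℝ) {η : ℝ} (hη : 0 ≤ η) (g : Fin H × Q → Fin (G + 1)) (j : ℕ)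
    (ham : ∀ c', 0 < am j c') (t : T) : 0 ≤ Yt σ q am η g j t := by
  unfold Yt Yq
  refine Finset.sum_nonneg fun c _ => ?_
  have h1 := nvq_nonneg g j c
  have h2 := ind_nonneg (q j c (σ t))
  have h3 := (ham c).le
  positivity

theorem Yt_le {S T Q : Type} [Fintype Q] {H G : ℕ} (σ : T → S) (q : ℕ → Q → S → Prop)
    (am : ℕ → Q → ℝ) {η : ℝ} (hη : 0 ≤ η) (g : Fin H × Q → Fin (G + 1)) (j : ℕ)
    (ham : ∀ c', 0 < am j c') (t : T) :
    Yt σ q am η g j t ≤ (∑ c', am j c') * (η * G) := by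
  unfold Yt Yq
  rw [Finset.sum_mul]
  refine Finset.sum_le_sum fun c _ => ?_
  have h1 := nvq_nonneg g j c
  have h1' := nvq_le g j c
  have h2 := ind_nonneg (q j c (σ t))
  have h2' := ind_le_one (q j c (σ t))
  have h3 := (ham c).le
  have h4 : 0 ≤ am j c * (η * nvq g j c) := by positivity
  calc am j c * (η * nvq g j c) * ind (q j c (σ t)) ≤ am j c * (η * nvq g j c) * 1 :=
        mul_le_mul_of_nonneg_left h2' h4
    _ = am j c * (η * nvq g j c) := mul_one _
    _ ≤ am j c * (η * G) := by gcongr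

theorem Yt_other {S T Q : Type} [Fintype Q] [DecidableEq Q] {H G : ℕ} (σ : T → S)
    (q : ℕ → Q → S → Prop) (am : ℕ → Q → ℝ) (η : ℝ) (g : Fin H × Q → Fin (G + 1)) (j : ℕ)
    (hj : j < H) (c : Q) (b : Fin (G + 1)) (j' : ℕ) (hne : j' ≠ j) :
    Yt σ q am η (Function.update g (⟨j, hj⟩, c) b) j' = Yt σ q am η g j' := by
  funext t
  unfold Yt Yq
  refine Finset.sum_congr rfl fun c' _ => ?_
  rw [nvq_ne g j hj c b j' c' fun hh => hne hh.1]

theorem Yt_same {S T Q : Type} [Fintype Q] [DecidableEq Q] {H G : ℕ} (σ : T → S)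
    (q : ℕ → Q → S → Prop) (am : ℕ → Q → ℝ) (η : ℝ) (g : Fin H × Q → Fin (G + 1)) (j : ℕ)
    (hj : j < H) (c : Q) (b : Fin (G + 1)) (Qs : Finset T)
    (hQs : ∀ t, t ∈ Qs ↔ q j c (σ t)) :
    Yt σ q am η (Function.update g (⟨j, hj⟩, c) b) j =
      Yg (Yt σ q am η (Function.update g (⟨j, hj⟩, c) 0) j) Qs (am j c * η) (b : ℕ) := by
  funext t
  unfold Yg
  rw [← sub_eq_iff_eq_add']
  unfold Yt Yq
  rw [← Finset.sum_sub_distrib, Finset.sum_eq_single c]
  · by_cases hz : q j c (σ t)
    · have hmem : t ∈ Qs := (hQs t).2 hz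
      rw [ind_true hmem, ind_true hz, nvq_same, nvq_same]
      simp only [Fin.val_zero, Nat.cast_zero]
      ring
    · have hmem : ¬ t ∈ Qs := fun hh => hz ((hQs t).1 hh)
      rw [ind_false hmem, ind_false hz]
      ring
  · intro c' _ hc'
    rw [nvq_ne g j hj c b j c' fun hh => hc' hh.2,
      nvq_ne g j hj c 0 j c' fun hh => hc' hh.2, sub_self]
  · intro hh
    exact absurd (Finset.mem_univ c) hh

open Classical in
theorem exists_Qs {S T Q : Type} [Fintype T] (σ : T → S) (q : ℕ → Q → S → Prop) (j : ℕ) (c : Q) :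
    ∃ Qs : Finset T, ∀ t, t ∈ Qs ↔ q j c (σ t) := by
  refine ⟨Finset.univ.filter (fun t => q j c (σ t)), fun t => ?_⟩
  rw [Finset.mem_filter]
  exact ⟨fun h => h.2, fun h => ⟨Finset.mem_univ _, h⟩⟩

end ExQM

open ExQM in
theorem exQP (h1 : TopProp) (h2 : DelProp) (h3 : OneTProp) (h4 : ExSProp) (h5 : UsCProp)
    (h6 : StpProp) (h7 : FeSProp) (h8 : ExgProp) : ExQProp := by
  intro S T Q _ _ _ _ _ _ σ rs q am H G η α j c x l hN hη hη2 hj ham hα
  obtain ⟨w1, w2, w3, w4, w5⟩ := h8 (Fin H × Q) G η hη.le (by linarith)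
  have hmono : ∀ f f' : (Fin H × Q → Fin (G + 1)) → ℝ, (∀ g, f g ≤ f' g) →
      Exg G η f ≤ Exg G η f' :=
    fun f f' hf => Finset.sum_le_sum fun g _ => mul_le_mul_of_nonneg_left (hf g) (w1 g)
  have hzero : Exg G η (fun _ : Fin H × Q → Fin (G + 1) => (0 : ℝ)) = 0 := by
    unfold Exg
    exact Finset.sum_eq_zero fun g _ => mul_zero _
  have hη1 : (0 : ℝ) ≤ 1 - η := by linarith
  have hsum0 : am j c ≤ ∑ c', am j c' :=
    Finset.single_le_sum (f := fun c' => am j c') (fun c' _ => (ham c').le) (Finset.mem_univ c)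
  have hα0 : 0 ≤ α := by
    by_contra hcon
    push Not at hcon
    have e1 := ham c
    nlinarith
  have her : 0 ≤ erq (Fintype.card T) G η α := by
    unfold erq
    positivity
  by_cases hP : ¬ Full σ rs j x l ∧ ¬ Full σ rs (j + 1) x l
  swap
  · have e1 : ∀ g : Fin H × Q → Fin (G + 1), ind (¬ Full σ rs j x l ∧ ¬ Full σ rs (j + 1) x l ∧
        q j c (σ (nw σ rs (Yt σ q am η g) j x l)) ∧
          ¬ q j c (σ (nw σ rs (Yt σ q am η g) (j + 1) x l))) = 0 :=
      fun g => ind_false fun hh => hP ⟨hh.1, hh.2.1⟩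
    have e2 : ∀ g : Fin H × Q → Fin (G + 1), gn σ rs (Yt σ q am η g) j x l = 0 := by
      intro g
      unfold gn
      rw [ind_false hP, mul_zero]
    simp only [e1, e2, hzero, mul_zero, zero_mul, zero_add]
    exact mul_nonneg her (ind_nonneg _)
  -- notation
  let A : (Fin H × Q → Fin (G + 1)) → Finset T :=
    fun g => av σ rs (Yt σ q am η g) j (rs (j + 1) (σ x)) l
  let n : (Fin H × Q → Fin (G + 1)) → ℕ :=
    fun g => nn σ rs (Yt σ q am η g) j (rs (j + 1) (σ x)) l
  let y : (Fin H × Q → Fin (G + 1)) → T := fun g => nw σ rs (Yt σ q am η g) j x l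
  let y' : (Fin H × Q → Fin (G + 1)) → T := fun g => nw σ rs (Yt σ q am η g) (j + 1) x l
  have hS : ∀ g, y g ∈ A g ∧ n g < (A g).card ∧
      y' g = nx (Yt σ q am η g j) (A g) (n g) (y g) :=
    fun g => (h6 S T σ rs H (Yt σ q am η g) hN x l).2 j hj hP.1 hP.2
  have hgn : ∀ g : Fin H × Q → Fin (G + 1), gn σ rs (Yt σ q am η g) j x l =
      gain (Yt σ q am η g j) (A g) (n g) (y g) := by
    intro g
    unfold gn
    rw [ind_true hP, mul_one]
  have hgain : ∀ g : Fin H × Q → Fin (G + 1), 0 ≤ gn σ rs (Yt σ q am η g) j x l := by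
    intro g
    rw [hgn]
    exact (h2 T (Yt σ q am η g j) (A g) (n g) (y g) (hS g).1 (hS g).2.1).2.2
  have hind : ∀ g : Fin H × Q → Fin (G + 1), ind (¬ Full σ rs j x l ∧ ¬ Full σ rs (j + 1) x l ∧
        q j c (σ (nw σ rs (Yt σ q am η g) j x l)) ∧
          ¬ q j c (σ (nw σ rs (Yt σ q am η g) (j + 1) x l))) =
      ind (q j c (σ (y g)) ∧ ¬ q j c (σ (y' g))) := by
    intro g
    congr 1
    apply propext
    exact ⟨fun hh => hh.2.2, fun hh => ⟨hP.1, hP.2, hh⟩⟩
  simp only [hind]
  by_cases hfe : 1 ≤ fe σ rs j l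
  swap
  · -- nothing to add
    have e1 : ∀ g : Fin H × Q → Fin (G + 1), ind (q j c (σ (y g)) ∧ ¬ q j c (σ (y' g))) = 0 := by
      intro g
      apply ind_false
      obtain ⟨f1, -, f3, -⟩ := h7 S T σ rs H (Yt σ q am η g) hN j l
      have f4 := f3 hj (rs (j + 1) (σ x))
      have f5 : fe σ rs j l = 0 := f1.resolve_right hfe
      rw [f5] at f4
      have f6 : n g = 0 := by
        have : ((n g : ℕ) : ℝ) ≤ 0 := f4
        exact_mod_cast le_antisymm this (Nat.cast_nonneg _)
      obtain ⟨s1, s2, s3⟩ := hS g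
      have f7 : y g ∉ tp (Yt σ q am η g j) (A g) (n g) := by
        rw [f6]
        unfold tp
        intro hh
        exact absurd (Finset.mem_filter.1 hh).2 (Nat.not_lt_zero _)
      rw [s3, ((h2 T (Yt σ q am η g j) (A g) (n g) (y g) s1 s2).1 f7).1]
      exact fun hh => hh.2 hh.1
    simp only [e1, hzero]
    have e2 : 0 ≤ Exg G η (fun g : Fin H × Q → Fin (G + 1) =>
        gn σ rs (Yt σ q am η g) j x l *
          ind (q j c (σ (nw σ rs (Yt σ q am η g) j x l)))) := by
      rw [← hzero]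
      exact hmono _ _ fun g => mul_nonneg (hgain g) (ind_nonneg _)
    have e3 := mul_nonneg her (ind_nonneg (1 ≤ fe σ rs j l))
    have e4 := ham c
    positivity
  rw [ind_true hfe, mul_one]
  obtain ⟨Qs, hQs⟩ := exists_Qs σ q j c
  have key : Exg G η (fun g : Fin H × Q → Fin (G + 1) =>
      ind (q j c (σ (y g)) ∧ ¬ q j c (σ (y' g)))) ≤
      Exg G η (fun g : Fin H × Q → Fin (G + 1) => 1 / am j c * (gn σ rs (Yt σ q am η g) j x l *
        ind (q j c (σ (y g)))) + erq (Fintype.card T) G η α) := by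
    set i : Fin H × Q := (⟨j, hj⟩, c) with hi
    rw [w5 _ i, w5 (fun g : Fin H × Q → Fin (G + 1) => 1 / am j c *
        (gn σ rs (Yt σ q am η g) j x l * ind (q j c (σ (y g)))) +
          erq (Fintype.card T) G η α) i]
    refine hmono _ _ fun g => ?_
    set B : T → ℝ := Yt σ q am η (Function.update g i 0) j with hB
    set a : ℝ := am j c * η with ha
    have hamp : 0 < am j c := ham c
    have ha0 : 0 ≤ a := by positivity
    -- what does not depend on `b`
    have c1 : ∀ b : Fin (G + 1), us σ rs (Yt σ q am η (Function.update g i b)) j l =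
        us σ rs (Yt σ q am η g) j l ∧ y (Function.update g i b) = y g := by
      intro b
      exact h5 S T σ rs (Yt σ q am η (Function.update g i b)) (Yt σ q am η g) j
        (fun i' hi' => Yt_other σ q am η g j hj c b i' hi'.ne) x l
    have c2 : ∀ b : Fin (G + 1), A (Function.update g i b) = A g := by
      intro b
      change av _ _ _ _ _ _ = av _ _ _ _ _ _
      unfold av
      rw [(c1 b).1]
    have c3 : ∀ b : Fin (G + 1), n (Function.update g i b) = n g := by
      intro b
      change nn _ _ _ _ _ _ = nn _ _ _ _ _ _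
      unfold nn
      rw [(c1 b).1]
    have c4 : ∀ b : Fin (G + 1), Yt σ q am η (Function.update g i b) j = Yg B Qs a (b : ℕ) :=
      fun b => Yt_same σ q am η g j hj c b Qs hQs
    obtain ⟨s1, s2, -⟩ := hS g
    by_cases hy : q j c (σ (y g))
    swap
    · refine Finset.sum_le_sum fun b _ => mul_le_mul_of_nonneg_left ?_ (w4 b)
      rw [(c1 b).2, ind_false hy, ind_false fun hh => hy hh.1]
      simpa using her
    have hyq : y g ∈ Qs := (hQs (y g)).2 hy
    have d1 : ∀ b : Fin (G + 1), ind (q j c (σ (y (Function.update g i b))) ∧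
        ¬ q j c (σ (y' (Function.update g i b)))) =
        ind (nx (Yg B Qs a (b : ℕ)) (A g) (n g) (y g) ∉ Qs) := by
      intro b
      congr 1
      rw [(hS _).2.2, (c1 b).2, c2, c3, c4, hQs]
      apply propext
      exact ⟨fun hh => hh.2, fun hh => ⟨hy, hh⟩⟩
    have d2 : ∀ b : Fin (G + 1), gn σ rs (Yt σ q am η (Function.update g i b)) j x l =
        gain (Yg B Qs a (b : ℕ)) (A g) (n g) (y g) := by
      intro b
      rw [hgn, c2, c3, (c1 b).2, c4]
    have d3 : ∀ b : Fin (G + 1), ind (q j c (σ (y (Function.update g i b)))) = 1 := by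
      intro b
      rw [(c1 b).2, ind_true hy]
    simp only [d1, d2, d3, mul_one]
    have hnM : (n g : ℝ) ≤ Fintype.card T := by
      have e1 : (A g).card ≤ Fintype.card T := Finset.card_le_univ _
      exact_mod_cast s2.le.trans e1
    have hUG : gain (Yg B Qs a G) (A g) (n g) (y g) ≤ n g * (α * am j c * (η * G)) := by
      have e1 : Yg B Qs a G = Yt σ q am η (Function.update g i (Fin.last G)) j := by
        rw [c4]
        rfl
      rw [e1]
      unfold gain
      have e2 : 0 ≤ ∑ s ∈ tp (Yt σ q am η (Function.update g i (Fin.last G)) j)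
          ((A g).erase (y g)) (n g), Yt σ q am η (Function.update g i (Fin.last G)) j s :=
        Finset.sum_nonneg fun s _ => Yt_nonneg σ q am hη.le _ j ham s
      have e3 : ∑ s ∈ tp (Yt σ q am η (Function.update g i (Fin.last G)) j) (A g) (n g),
          Yt σ q am η (Function.update g i (Fin.last G)) j s ≤ n g * (α * am j c * (η * G)) := by
        refine (Finset.sum_le_card_nsmul _ _ (α * am j c * (η * G)) fun s _ => ?_).trans ?_
        · refine (Yt_le σ q am hη.le _ j ham s).trans ?_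
          have : 0 ≤ η * (G : ℝ) := by positivity
          exact mul_le_mul_of_nonneg_right hα this
        rw [nsmul_eq_mul]
        have e4 := (h1 T (Yt σ q am η (Function.update g i (Fin.last G)) j) (A g) (n g)).1
        have e5 : ((tp (Yt σ q am η (Function.update g i (Fin.last G)) j) (A g) (n g)).card : ℝ) ≤
            n g := by
          rw [e4]
          exact_mod_cast min_le_left _ _
        gcongr
      linarith
    have hmain := h4 G (n g) η (am j c) (n g * (α * am j c * (η * G)))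
      (fun b => gain (Yg B Qs a b) (A g) (n g) (y g))
      (fun b => a * ((tp (Yg B Qs a b) (A g) (n g) ∩ Qs).card : ℝ))
      (fun b => ind (nx (Yg B Qs a b) (A g) (n g) (y g) ∉ Qs)) hη hη2 hamp hUG
      (fun b _ => ⟨(h2 T (Yg B Qs a b) (A g) (n g) (y g) s1 s2).2.2,
        mul_nonneg ha0 (Nat.cast_nonneg _), by
        have e1 : (tp (Yg B Qs a b) (A g) (n g) ∩ Qs).card ≤ n g := by
          refine (Finset.card_le_card Finset.inter_subset_left).trans ?_
          rw [(h1 T (Yg B Qs a b) (A g) (n g)).1]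
          exact min_le_left _ _
        have e2 : ((tp (Yg B Qs a b) (A g) (n g) ∩ Qs).card : ℝ) ≤ n g := by exact_mod_cast e1
        exact mul_le_mul_of_nonneg_left e2 ha0⟩)
      (fun b => ⟨ind_nonneg _, ind_le_one _⟩)
      (fun b _ => h3 T B (A g) Qs (n g) (y g) a ha0 s1 hyq s2 b)
    have hsum : ∑ b : Fin (G + 1), gw (1 - η) G b * (1 / am j c *
        gain (Yg B Qs a (b : ℕ)) (A g) (n g) (y g) + erq (Fintype.card T) G η α) =
        1 / am j c * ∑ b : Fin (G + 1), gw (1 - η) G b *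
          gain (Yg B Qs a (b : ℕ)) (A g) (n g) (y g) + erq (Fintype.card T) G η α := by
      simp only [mul_add, Finset.sum_add_distrib]
      rw [← Finset.sum_mul, w3, one_mul, Finset.mul_sum]
      congr 1
      refine Finset.sum_congr rfl fun b _ => ?_
      ring
    rw [hsum]
    refine hmain.trans (add_le_add le_rfl ?_)
    unfold erq
    have g1 : (n g * (α * am j c * (η * G)) + am j c * η * n g) / (am j c * η) ≤
        (Fintype.card T : ℝ) * (α * G + 1) := by
      have g2 : (n g * (α * am j c * (η * G)) + am j c * η * n g) / (am j c * η) =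
          n g * (α * G + 1) := by
        field_simp
      rw [g2]
      have g3 : 0 ≤ α * (G : ℝ) + 1 := by positivity
      exact mul_le_mul_of_nonneg_right hnM g3
    gcongr
  refine key.trans (le_of_eq ?_)
  unfold Exg
  simp only [mul_add, Finset.sum_add_distrib]
  rw [← Finset.sum_mul, w2, one_mul, Finset.mul_sum]
  congr 1
  refine Finset.sum_congr rfl fun g _ => ?_
  ring

end Pool.Agent.MP_a4c1f4_lc.Pad
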