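import Pool.Agent.Lib.MP_a4c1f4_lc.Pad.Spec
import Pool.Agent.Lib.MP_a4c1f4_lc.Dbl.MaxG

set_option linter.all false

/-!
# The noise family of a hierarchy with arms
-/

namespace Pool.Agent.MP_a4c1f4_lc.Pad

open Finset Pool.Agent.MP_a4c1f4_lc Pool.Agent.MP_a4c1f4_lc.Dbl

namespace FamQM

variable {S : Type} {rp : ℕ → S → S} {a : ℕ → S → ℝ} {h : ℕ}

lemma up (hn : Nst rp h) {x y : S} {k : ℕ} (hk : rp k x = rp k y) :
    ∀ i, k ≤ i → i ≤ h → rp i x = rp i y := by
  intro i hki
  induction i, hki using Nat.le_induction with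
  | base => intro _; exact hk
  | succ n hn1 ih => intro hh; exact hn n (by omega) x y (ih (by omega))

lemma rp_rp (hn : Nst rp h) (hid : ∀ k x, k ≤ h → rp k (rp k x) = rp k x) (x : S) {k i : ℕ}
    (hki : k ≤ i) (hi : i ≤ h) : rp i (rp k x) = rp i x :=
  up hn (hid k x (by omega)) i hki hi

lemma lv_eq {x y : S} {i : ℕ} (he : rp i x = rp i y) : lv rp a i x = lv rp a i y := by
  unfold lv; rw [he]

lemma Bj_eq (hn : Nst rp h) (hid : ∀ k x, k ≤ h → rp k (rp k x) = rp k x) (x : S) (j k : ℕ) :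
    Bj rp a h j k (rp k x) = Bj rp a h j k x := by
  unfold Bj
  congr 1
  refine Finset.sum_congr rfl fun i hi => ?_
  have hi' := Finset.mem_Ico.1 hi
  have he : rp i (rp k x) = rp i x := rp_rp hn hid x hi'.1 (by omega)
  rw [lv_eq he, he]

lemma Gs_eq (hn : Nst rp h) (hid : ∀ k x, k ≤ h → rp k (rp k x) = rp k x) (x : S) (k κ : ℕ)
    (hκ : κ ≤ h) : Gs rp a k κ (rp k x) = Gs rp a k κ x := by
  unfold Gs
  refine Finset.sum_congr rfl fun i hi => ?_
  have hi' := Finset.mem_Ico.1 hi
  have he : rp i (rp k x) = rp i x := rp_rp hn hid x hi'.1 (by omega)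
  rw [he]

lemma sumq [Fintype S] (g : ℕ → S → ℝ) (j : ℕ) (x : S) (hκ : tj rp a h (j + 1) x ≤ h) :
    ∑ c : Fin h × S, g (c.1 : ℕ) c.2 * ind (qj rp a h j c x) =
      ∑ k ∈ range (tj rp a h (j + 1) x), g k (rp k x) := by
  classical
  set κ := tj rp a h (j + 1) x with hk
  rw [Fintype.sum_prod_type]
  have h1 : ∀ k : Fin h, ∑ z : S, g (k : ℕ) z * ind (qj rp a h j (k, z) x) =
      if (k : ℕ) < κ then g (k : ℕ) (rp k x) else 0 := by
    intro k
    rw [Finset.sum_eq_single (rp k x)]
    · unfold qj ind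
      by_cases hc : (k : ℕ) < κ
      · rw [if_pos hc, if_pos ⟨rfl, hc⟩, mul_one]
      · rw [if_neg hc, if_neg (fun hh => hc hh.2), mul_zero]
    · intro z _ hz
      unfold qj ind
      rw [if_neg (fun hh => hz hh.1.symm), mul_zero]
    · intro hh; exact absurd (Finset.mem_univ _) hh
  rw [Finset.sum_congr rfl fun k _ => h1 k]
  rw [Fin.sum_univ_eq_sum_range (fun k => if k < κ then g k (rp k x) else 0) h]
  rw [← Finset.sum_filter]
  refine Finset.sum_congr ?_ fun _ _ => rfl
  ext k
  simp only [Finset.mem_filter, Finset.mem_range]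
  omega

lemma m0_ge (Λ : ℝ) : 3 ≤ m0 Λ := by
  unfold m0
  have : 0 ≤ Real.logb 2 (max 1 Λ) := Real.logb_nonneg (by norm_num) (le_max_left _ _)
  linarith

end FamQM

open FamQM in
open Classical in
theorem famQP (h1 : ExgProp) (h2 : EgProp) (h3 : RsProp) (h4 : KrfProp) (h5 : AmpProp) :
    FamQProp := by
  intro S _ _ D rp a h ρ Λ hPM hΛ hA
  obtain ⟨hT, hR, hH, _⟩ := h3 S D rp a h ρ Λ hPM hA
  have hA5 := h5 S D rp a h ρ Λ hPM hA
  have hn : Nst rp h := hA.hier.nest
  have hid := hA.idem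
  have hρ : 0 < ρ := hA.hier.pos
  have hBj : ∀ j k x, 1 ≤ Bj rp a h j k x := fun j k x => (hA5 j x).2.2 k
  have hm0 := m0_ge Λ
  refine ⟨?_, ?_, ?_, ?_, ?_, ?_, ?_, ?_⟩
  · intro j c
    unfold amj
    have := hBj j c.1 c.2
    positivity
  · intro j c
    unfold ctj
    split_ifs <;> positivity
  · intro j c _
    unfold ctj
    split_ifs with hc
    · exact pow_le_pow_right₀ (by norm_num) (by omega)
    · positivity
  · linarith
  · linarith
  · -- mv
    intro j hj x y hxy
    obtain ⟨ht, hr⟩ := (hR (j + 1) x y).1 hxy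
    set κ := tj rp a h (j + 1) x with hκ
    obtain ⟨hκh, hκj, _⟩ := hT (j + 1) x
    have hnn : ∀ c ∈ (Finset.univ : Finset (Fin h × S)),
        0 ≤ ctj h j c * ρ * ind (qj rp a h j c x ∧ ¬ qj rp a h j c y) := by
      intro c _
      have h0 : 0 ≤ ctj h j c := by unfold ctj; split_ifs <;> positivity
      exact mul_nonneg (mul_nonneg h0 hρ.le) (ind_nonneg _)
    by_cases h0 : rp 0 x = rp 0 y
    · rw [hA.hier.zero x y h0]
      exact Finset.sum_nonneg hnn
    · have hex : ∃ k, rp k x = rp k y := ⟨κ, hr⟩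
      set k1 := Nat.find hex with hk1
      have hk1s : rp k1 x = rp k1 y := Nat.find_spec hex
      have hk1le : k1 ≤ κ := Nat.find_min' hex hr
      have hk1pos : k1 ≠ 0 := by
        intro h00
        rw [h00] at hk1s
        exact h0 hk1s
      obtain ⟨k0, hk0⟩ := Nat.exists_eq_succ_of_ne_zero hk1pos
      have hk0n : rp k0 x ≠ rp k0 y := Nat.find_min hex (by omega)
      have hk0h : k0 < h := by omega
      have hD : D x y ≤ 4 ^ (k0 + 1) * ρ := by
        have := hA.hier.diam k1 (by omega) x y hk1s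
        rwa [hk0] at this
      have hterm : D x y ≤ ctj h j (⟨k0, hk0h⟩, rp k0 x) * ρ *
          ind (qj rp a h j (⟨k0, hk0h⟩, rp k0 x) x ∧ ¬ qj rp a h j (⟨k0, hk0h⟩, rp k0 x) y) := by
        have e1 : ctj h j ((⟨k0, hk0h⟩ : Fin h), rp k0 x) = 4 ^ (k0 + 1) := by
          unfold ctj
          rw [if_pos (by show k0 ≤ j; omega)]
        have e2 : ind (qj rp a h j (⟨k0, hk0h⟩, rp k0 x) x ∧
            ¬ qj rp a h j (⟨k0, hk0h⟩, rp k0 x) y) = 1 := by
          unfold ind
          rw [if_pos]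
          refine ⟨⟨rfl, ?_⟩, fun hh => hk0n hh.1.symm⟩
          show k0 < κ
          omega
        rw [e1, e2, mul_one]
        exact hD
      exact hterm.trans (Finset.single_le_sum hnn (Finset.mem_univ _))
  · -- r1
    intro j hj x
    obtain ⟨hκh, hκj, _⟩ := hT (j + 1) x
    have e := sumq (rp := rp) (a := a) (h := h)
      (fun k z => (if k ≤ j then (4 : ℝ) ^ (k + 1) else 0) / (2 ^ (j + k) / Bj rp a h j k z)) j x hκh
    have e' : ∑ c, ctj h j c / amj rp a h j c * ind (qj rp a h j c x) =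
        ∑ c : Fin h × S, ((if (c.1 : ℕ) ≤ j then (4 : ℝ) ^ ((c.1 : ℕ) + 1) else 0) /
          (2 ^ (j + (c.1 : ℕ)) / Bj rp a h j (c.1 : ℕ) c.2)) * ind (qj rp a h j c x) := rfl
    rw [e', e]
    refine le_trans (le_of_eq ?_) (hA5 j x).1
    refine Finset.sum_congr rfl fun k hk => ?_
    have hk' := Finset.mem_range.1 hk
    rw [if_pos (by omega : k ≤ j), Bj_eq hn hid x j k]
  · -- r2
    intro G η hη hη2 j hj x F hF
    obtain ⟨hw, hsum, hgw1, hgw0, hres⟩ := h1 (Fin (h + eg Λ) × (Fin h × S)) G η hη.le (by linarith)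
    obtain ⟨hκh, hκj, _⟩ := hT (j + 1) x
    set κ := tj rp a h (j + 1) x with hκ
    have hconst : ∀ c : ℝ, Exg (I := Fin (h + eg Λ) × (Fin h × S)) G η (fun _ => c) = c := by
      intro c
      unfold Exg
      rw [← Finset.sum_mul, hsum, one_mul]
    have hmono : ∀ f1 f2 : (Fin (h + eg Λ) × (Fin h × S) → Fin (G + 1)) → ℝ, (∀ g, f1 g ≤ f2 g) →
        Exg G η f1 ≤ Exg G η f2 := by
      intro f1 f2 hf
      unfold Exg
      exact Finset.sum_le_sum fun g _ => mul_le_mul_of_nonneg_left (hf g) (hw g)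
    -- the value of the noise variables
    set N : (Fin (h + eg Λ) × (Fin h × S) → Fin (G + 1)) → ℕ → S → ℝ := fun g k z =>
      if hk : k < h then nvq g j ((⟨k, hk⟩ : Fin h), z) else 0 with hN
    have hone : ∀ (k : ℕ) (z : S), k < h → Exg G η (fun g => Real.exp (η * N g k z / 2)) ≤ 4 := by
      intro k z hk
      have e0 : (fun g : Fin (h + eg Λ) × (Fin h × S) → Fin (G + 1) => Real.exp (η * N g k z / 2)) =
          fun g => Real.exp (η * ((g (⟨j, hj⟩, ((⟨k, hk⟩ : Fin h), z)) : ℕ) : ℝ) / 2) := by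
        funext g
        simp only [hN, dif_pos hk, nvq, dif_pos hj]
      rw [e0, hres (fun g => Real.exp (η * ((g (⟨j, hj⟩, ((⟨k, hk⟩ : Fin h), z)) : ℕ) : ℝ) / 2))
        (⟨j, hj⟩, ((⟨k, hk⟩ : Fin h), z))]
      have e : (fun g : Fin (h + eg Λ) × (Fin h × S) → Fin (G + 1) => ∑ b : Fin (G + 1),
          gw (1 - η) G b * Real.exp (η * ((Function.update g (⟨j, hj⟩, ((⟨k, hk⟩ : Fin h), z)) b
            (⟨j, hj⟩, ((⟨k, hk⟩ : Fin h), z)) : ℕ) : ℝ) / 2)) =
          fun _ => ∑ b : Fin (G + 1), gw (1 - η) G b * Real.exp (η * ((b : ℕ) : ℝ) / 2) := by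
        funext g
        simp only [Function.update_self]
      rw [e, hconst]
      exact MaxGM.moment G η hη hη2
    set Im : ℕ → Finset S := fun k => (Finset.univ.filter (fun y => rp κ y = rp κ x)).image (rp k)
      with hIm
    set W : ℕ → (Fin (h + eg Λ) × (Fin h × S) → Fin (G + 1)) → ℝ := fun k g =>
      ∑ z ∈ Im k, Real.exp (-(Gs rp a k κ z)) * Real.exp (η * N g k z / 2) with hW
    -- expectation of W
    have hEW : ∀ k, k < κ → Exg G η (W k) ≤ 4 := by
      intro k hk
      have e1 : Exg G η (W k) =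
          ∑ z ∈ Im k, Real.exp (-(Gs rp a k κ z)) * Exg G η (fun g => Real.exp (η * N g k z / 2)) := by
        unfold Exg
        simp only [hW, Finset.mul_sum]
        rw [Finset.sum_comm]
        refine Finset.sum_congr rfl fun z _ => Finset.sum_congr rfl fun g _ => ?_
        ring
      rw [e1]
      calc ∑ z ∈ Im k, Real.exp (-(Gs rp a k κ z)) * Exg G η (fun g => Real.exp (η * N g k z / 2))
          ≤ ∑ z ∈ Im k, Real.exp (-(Gs rp a k κ z)) * 4 := by
            refine Finset.sum_le_sum fun z _ => ?_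
            exact mul_le_mul_of_nonneg_left (hone k z (by omega)) (Real.exp_pos _).le
        _ = (∑ z ∈ Im k, Real.exp (-(Gs rp a k κ z))) * 4 := by rw [Finset.sum_mul]
        _ ≤ 1 * 4 := by
            apply mul_le_mul_of_nonneg_right _ (by norm_num)
            refine le_trans (le_of_eq ?_) (h4 S D rp a h ρ Λ hA k κ hk.le hκh x)
            refine Finset.sum_congr ?_ fun _ _ => rfl
            ext z
            simp only [hIm, Finset.mem_image, Finset.mem_filter]
        _ = 4 := by norm_num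
    have hWn : ∀ k g, 0 ≤ W k g := by
      intro k g
      exact Finset.sum_nonneg fun z _ => mul_nonneg (Real.exp_pos _).le (Real.exp_pos _).le
    -- pointwise bound
    have hpt : ∀ g, F g ≤ 4 ^ (j + 1) * m0 Λ + ∑ k ∈ range κ, 2 ^ (j + k) * 2 * W k g := by
      intro g
      obtain ⟨y, hy, hFy⟩ := hF g
      obtain ⟨ht, hr⟩ := (hR (j + 1) y x).1 hy
      have hty : tj rp a h (j + 1) y = κ := ht
      rw [hty] at hr
      have hYq : Yq (qj rp a h) (amj rp a h) η g j y = ∑ k ∈ range κ,
          2 ^ (j + k) / Bj rp a h j k y * (η * N g k (rp k y)) := by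
        have e := sumq (rp := rp) (a := a) (h := h)
          (fun k z => 2 ^ (j + k) / Bj rp a h j k z * (η * N g k z)) j y (by rw [hty]; exact hκh)
        have e' : Yq (qj rp a h) (amj rp a h) η g j y =
            ∑ c : Fin h × S, (2 ^ (j + (c.1 : ℕ)) / Bj rp a h j (c.1 : ℕ) c.2 *
              (η * N g (c.1 : ℕ) c.2)) * ind (qj rp a h j c y) := by
          unfold Yq
          refine Finset.sum_congr rfl fun c _ => ?_
          have e3 : N g (c.1 : ℕ) c.2 = nvq g j c := by
            simp only [hN, dif_pos c.1.2]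
          rw [e3]
          rfl
        rw [e', e, hty]
        refine Finset.sum_congr rfl fun k hk => ?_
        rw [Bj_eq hn hid y j k]
      have hkk : ∀ k ∈ range κ, 2 ^ (j + k) / Bj rp a h j k y * (η * N g k (rp k y)) ≤
          2 * (2 ^ (j + k) / Bj rp a h j k y * Gs rp a k κ y) + 2 ^ (j + k) * 2 * W k g := by
        intro k hk
        have hk' := Finset.mem_range.1 hk
        have hB := hBj j k y
        set G1 := Gs rp a k κ y with hG1
        set E := Real.exp (-G1) * Real.exp (η * N g k (rp k y) / 2) with hE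
        have hb : η * N g k (rp k y) ≤ 2 * G1 + 2 * E := by
          have h3 := Real.add_one_le_exp (-G1 + η * N g k (rp k y) / 2)
          rw [Real.exp_add] at h3
          linarith
        have hE0 : 0 ≤ E := mul_nonneg (Real.exp_pos _).le (Real.exp_pos _).le
        have hEW' : E ≤ W k g := by
          have hz : rp k y ∈ Im k := by
            simp only [hIm, Finset.mem_image, Finset.mem_filter, Finset.mem_univ, true_and]
            exact ⟨y, hr, rfl⟩
          have := Finset.single_le_sum (f := fun z => Real.exp (-(Gs rp a k κ z)) *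
            Real.exp (η * N g k z / 2)) (fun z _ => mul_nonneg (Real.exp_pos _).le
              (Real.exp_pos _).le) hz
          simp only [Gs_eq hn hid y k κ hκh] at this
          exact this
        have hpow : (0 : ℝ) < 2 ^ (j + k) := by positivity
        have hA0 : 0 ≤ 2 ^ (j + k) / Bj rp a h j k y := by positivity
        have hA1 : 2 ^ (j + k) / Bj rp a h j k y ≤ 2 ^ (j + k) := div_le_self hpow.le hB
        calc 2 ^ (j + k) / Bj rp a h j k y * (η * N g k (rp k y))
            ≤ 2 ^ (j + k) / Bj rp a h j k y * (2 * G1 + 2 * E) :=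
              mul_le_mul_of_nonneg_left hb hA0
          _ = 2 * (2 ^ (j + k) / Bj rp a h j k y * G1) +
              2 ^ (j + k) / Bj rp a h j k y * (2 * E) := by ring
          _ ≤ 2 * (2 ^ (j + k) / Bj rp a h j k y * G1) + 2 ^ (j + k) * (2 * W k g) := by
              have : 2 ^ (j + k) / Bj rp a h j k y * (2 * E) ≤ 2 ^ (j + k) * (2 * W k g) :=
                mul_le_mul hA1 (by linarith) (by linarith) hpow.le
              linarith
          _ = _ := by ring
      have hsumG : ∑ k ∈ range κ, 2 * (2 ^ (j + k) / Bj rp a h j k y * Gs rp a k κ y) ≤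
          4 ^ (j + 1) * m0 Λ := by
        rw [← Finset.mul_sum]
        have := (hA5 j y).2.1
        rw [hty] at this
        have e4 : (4 : ℝ) ^ (j + 1) * m0 Λ = 2 * (2 * 4 ^ j * m0 Λ) := by ring
        rw [e4]
        linarith
      calc F g ≤ Yq (qj rp a h) (amj rp a h) η g j y := hFy
        _ = _ := hYq
        _ ≤ ∑ k ∈ range κ, (2 * (2 ^ (j + k) / Bj rp a h j k y * Gs rp a k κ y) +
              2 ^ (j + k) * 2 * W k g) := Finset.sum_le_sum hkk
        _ = ∑ k ∈ range κ, 2 * (2 ^ (j + k) / Bj rp a h j k y * Gs rp a k κ y) +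
              ∑ k ∈ range κ, 2 ^ (j + k) * 2 * W k g := Finset.sum_add_distrib
        _ ≤ _ := by linarith
    calc Exg G η F ≤ Exg G η (fun g => 4 ^ (j + 1) * m0 Λ +
          ∑ k ∈ range κ, 2 ^ (j + k) * 2 * W k g) := hmono _ _ hpt
      _ = 4 ^ (j + 1) * m0 Λ + ∑ k ∈ range κ, 2 ^ (j + k) * 2 * Exg G η (W k) := by
          have e1 : Exg (I := Fin (h + eg Λ) × (Fin h × S)) G η (fun g => 4 ^ (j + 1) * m0 Λ +
              ∑ k ∈ range κ, 2 ^ (j + k) * 2 * W k g) =
              Exg (I := Fin (h + eg Λ) × (Fin h × S)) G η (fun _ => 4 ^ (j + 1) * m0 Λ) +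
                ∑ k ∈ range κ, 2 ^ (j + k) * 2 * Exg G η (W k) := by
            unfold Exg
            simp only [Finset.mul_sum, mul_add, Finset.sum_add_distrib]
            congr 1
            rw [Finset.sum_comm]
            refine Finset.sum_congr rfl fun k _ => Finset.sum_congr rfl fun g _ => ?_
            ring
          rw [e1, hconst]
      _ ≤ 4 ^ (j + 1) * m0 Λ + ∑ k ∈ range κ, 2 ^ (j + k) * 2 * 4 := by
          have : ∑ k ∈ range κ, 2 ^ (j + k) * 2 * Exg G η (W k) ≤
              ∑ k ∈ range κ, (2 : ℝ) ^ (j + k) * 2 * 4 := by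
            refine Finset.sum_le_sum fun k hk => ?_
            exact mul_le_mul_of_nonneg_left (hEW k (Finset.mem_range.1 hk)) (by positivity)
          linarith
      _ ≤ 4 ^ (j + 1) * m0 Λ + ∑ k ∈ range (j + 1), (2 : ℝ) ^ (j + k) * 2 * 4 := by
          have : ∑ k ∈ range κ, (2 : ℝ) ^ (j + k) * 2 * 4 ≤
              ∑ k ∈ range (j + 1), (2 : ℝ) ^ (j + k) * 2 * 4 := by
            apply Finset.sum_le_sum_of_subset_of_nonneg
            · intro k hk
              simp only [Finset.mem_range] at hk ⊢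
              omega
            · intros; positivity
          linarith
      _ ≤ 4 ^ (j + 1) * (m0 Λ + 4) := by
          have e2 : ∑ k ∈ range (j + 1), (2 : ℝ) ^ (j + k) * 2 * 4 =
              8 * 2 ^ j * ∑ k ∈ range (j + 1), (2 : ℝ) ^ k := by
            rw [Finset.mul_sum]
            refine Finset.sum_congr rfl fun k _ => ?_
            rw [pow_add]; ring
          have e3 : ∑ k ∈ range (j + 1), (2 : ℝ) ^ k = 2 ^ (j + 1) - 1 := by
            rw [geom_sum_eq (by norm_num)]
            norm_num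
          have e4 : (4 : ℝ) ^ j = 2 ^ j * 2 ^ j := by
            rw [← mul_pow]; norm_num
          rw [e2, e3]
          have hp : (0 : ℝ) < 2 ^ j := by positivity
          have e5 : (4 : ℝ) ^ (j + 1) = 4 * (2 ^ j * 2 ^ j) := by rw [pow_succ, e4]; ring
          have e6 : (2 : ℝ) ^ (j + 1) = 2 * 2 ^ j := by rw [pow_succ]; ring
          rw [e5, e6]
          nlinarith

end Pool.Agent.MP_a4c1f4_lc.Pad
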