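import Pool.Agent.Lib.MP_a4c1f4_lc.Pad.Spec

set_option linter.all false

/-!
# Tree metrics have padded decompositions
-/

namespace Pool.Agent.MP_a4c1f4_lc.Pad

open Finset Pool.Agent.MP_a4c1f4_lc Pool.Agent.MP_a4c1f4_lc.Dbl

namespace FourM

open Classical in
theorem count (Gp : ℕ) (hG : 0 < Gp) (W lo hi : ℝ) (hW : 0 < W) (hlo : lo ≤ hi) :
    (((univ : Finset (Fin Gp)).filter (fun a : Fin Gp => ∃ b : ℤ, lo < b * W - W * (a : ℕ) / Gp ∧
      b * W - W * (a : ℕ) / Gp ≤ hi)).card : ℝ) ≤ (hi - lo) * Gp / W + 1 := by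
  have hG' : (0 : ℝ) < Gp := by exact_mod_cast hG
  set P : Fin Gp → ℤ → Prop := fun a b => lo < b * W - W * (a : ℕ) / Gp ∧
      b * W - W * (a : ℕ) / Gp ≤ hi with hP
  have hch : ∀ a : Fin Gp, ∃ n : ℤ, (∃ b, P a b) →
      (∃ b : ℤ, n = b * Gp - (a : ℕ)) ∧ lo * Gp / W < n ∧ (n : ℝ) ≤ hi * Gp / W := by
    intro a
    by_cases h : ∃ b, P a b
    · obtain ⟨b, hb1, hb2⟩ := h
      refine ⟨b * Gp - (a : ℕ), fun _ => ⟨⟨b, rfl⟩, ?_, ?_⟩⟩
      · push_cast
        rw [div_lt_iff₀ hW]
        have h1 : (b * W - W * (a : ℕ) / Gp) * Gp = ((b : ℝ) * Gp - (a : ℕ)) * W := by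
          field_simp
        rw [← h1]
        exact mul_lt_mul_of_pos_right hb1 hG'
      · push_cast
        rw [le_div_iff₀ hW]
        have h1 : (b * W - W * (a : ℕ) / Gp) * Gp = ((b : ℝ) * Gp - (a : ℕ)) * W := by
          field_simp
        rw [← h1]
        exact mul_le_mul_of_nonneg_right hb2 hG'.le
    · exact ⟨0, fun h' => absurd h' h⟩
  choose f hf using hch
  have hcard : ((univ : Finset (Fin Gp)).filter (fun a : Fin Gp => ∃ b : ℤ, P a b)).card ≤
      (Finset.Ioc ⌊lo * Gp / W⌋ ⌊hi * Gp / W⌋).card := by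
    apply Finset.card_le_card_of_injOn f
    · intro a ha
      rw [Finset.mem_coe, Finset.mem_filter] at ha
      obtain ⟨_, h1, h2⟩ := hf a ha.2
      rw [Finset.mem_coe, Finset.mem_Ioc]
      exact ⟨Int.floor_lt.2 h1, Int.le_floor.2 h2⟩
    · intro a ha a' ha' haa
      rw [Finset.mem_coe, Finset.mem_filter] at ha ha'
      obtain ⟨⟨b, hb⟩, _, _⟩ := hf a ha.2
      obtain ⟨⟨b', hb'⟩, _, _⟩ := hf a' ha'.2
      have h1 : b * Gp - (a : ℕ) = b' * Gp - ((a' : ℕ) : ℤ) := by rw [← hb, ← hb', haa]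
      have h2 : ((a : ℕ) : ℤ) % Gp = ((a' : ℕ) : ℤ) % Gp := by
        have h3 : ((a : ℕ) : ℤ) = (a' : ℕ) + (b - b') * Gp := by linarith
        rw [h3, Int.add_mul_emod_self_right]
      have h4 : ((a : ℕ) : ℤ) % Gp = (a : ℕ) :=
        Int.emod_eq_of_lt (by positivity) (by exact_mod_cast a.2)
      have h5 : ((a' : ℕ) : ℤ) % Gp = (a' : ℕ) :=
        Int.emod_eq_of_lt (by positivity) (by exact_mod_cast a'.2)
      rw [h4, h5] at h2
      exact Fin.ext (by exact_mod_cast h2)
  rw [Int.card_Ioc] at hcard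
  have h6 : ((⌊hi * Gp / W⌋ - ⌊lo * Gp / W⌋).toNat : ℝ) ≤ (hi - lo) * Gp / W + 1 := by
    have h7 : (((⌊hi * Gp / W⌋ - ⌊lo * Gp / W⌋).toNat : ℤ) : ℝ) =
        ((max (⌊hi * Gp / W⌋ - ⌊lo * Gp / W⌋) 0 : ℤ) : ℝ) := by
      rw [Int.toNat_eq_max]
    have h8 : (((⌊hi * Gp / W⌋ - ⌊lo * Gp / W⌋).toNat : ℤ) : ℝ) =
        ((⌊hi * Gp / W⌋ - ⌊lo * Gp / W⌋).toNat : ℝ) := by push_cast; rfl
    rw [← h8, h7]
    push_cast
    apply max_le
    · have h9 := Int.floor_le (hi * Gp / W)
      have h10 := Int.lt_floor_add_one (lo * Gp / W)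
      have h11 : (hi - lo) * Gp / W = hi * Gp / W - lo * Gp / W := by ring
      rw [h11]
      linarith
    · have : 0 ≤ (hi - lo) * Gp / W := by
        apply div_nonneg (mul_nonneg (by linarith) hG'.le) hW.le
      linarith
  calc (((univ : Finset (Fin Gp)).filter (fun a : Fin Gp => ∃ b : ℤ, P a b)).card : ℝ)
      ≤ ((⌊hi * Gp / W⌋ - ⌊lo * Gp / W⌋).toNat : ℝ) := by exact_mod_cast hcard
    _ ≤ _ := h6

/-- a positive lower bound of the positive distances -/
theorem exists_dm {S : Type} [Fintype S] (D : S → S → ℝ) :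
    ∃ dm : ℝ, 0 < dm ∧ ∀ x y, 0 < D x y → dm ≤ D x y := by
  classical
  by_cases h : ((univ : Finset (S × S)).filter (fun p => 0 < D p.1 p.2)).Nonempty
  · obtain ⟨p, hp, hmin⟩ := Finset.exists_min_image _ (fun p : S × S => D p.1 p.2) h
    rw [Finset.mem_filter] at hp
    refine ⟨D p.1 p.2, hp.2, fun x y hxy => ?_⟩
    exact hmin (x, y) (Finset.mem_filter.2 ⟨Finset.mem_univ _, hxy⟩)
  · refine ⟨1, one_pos, fun x y hxy => ?_⟩
    exact absurd ⟨(x, y), Finset.mem_filter.2 ⟨Finset.mem_univ _, hxy⟩⟩ h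

/-- Gromov product -/
noncomputable def gp {S : Type} (D : S → S → ℝ) (o x y : S) : ℝ := (D o x + D o y - D x y) / 2

/-- the level -/
noncomputable def bl {S : Type} (D : S → S → ℝ) (o : S) (W s : ℝ) (x : S) : ℤ :=
  ⌊(D o x + s) / W⌋

theorem bl_le {S : Type} (D : S → S → ℝ) (o : S) {W : ℝ} (s : ℝ) (hW : 0 < W) (x : S) :
    bl D o W s x * W - s ≤ D o x := by
  have h := Int.floor_le ((D o x + s) / W)
  rw [le_div_iff₀ hW] at h
  unfold bl
  linarith

theorem bl_lt {S : Type} (D : S → S → ℝ) (o : S) {W : ℝ} (s : ℝ) (hW : 0 < W) (x : S) :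
    D o x < (bl D o W s x + 1) * W - s := by
  have h := Int.lt_floor_add_one ((D o x + s) / W)
  rw [div_lt_iff₀ hW] at h
  unfold bl
  linarith

theorem bl_eq {S : Type} (D : S → S → ℝ) (o : S) {W : ℝ} (s : ℝ) (hW : 0 < W) (x : S) (b : ℤ)
    (h1 : b * W - s ≤ D o x) (h2 : D o x < (b + 1) * W - s) : bl D o W s x = b := by
  unfold bl
  rw [Int.floor_eq_iff]
  constructor
  · rw [le_div_iff₀ hW]; linarith
  · rw [div_lt_iff₀ hW]; linarith

/-- the relation -/
def Rl {S : Type} (D : S → S → ℝ) (o : S) (W s : ℝ) (x y : S) : Prop :=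
  bl D o W s x = bl D o W s y ∧ bl D o W s x * W - s ≤ gp D o x y

theorem gp_symm {S : Type} {D : S → S → ℝ} (hD : PM D) (o x y : S) : gp D o x y = gp D o y x := by
  unfold gp; rw [hD.symm x y]; ring

theorem gp_self {S : Type} {D : S → S → ℝ} (hD : PM D) (o x : S) : gp D o x x = D o x := by
  unfold gp; rw [hD.self x]; ring

theorem gp_min {S : Type} {D : S → S → ℝ} (hD : PM D)
    (h4 : ∀ x y z w, D x y + D z w ≤ max (D x z + D y w) (D x w + D y z)) (o x y z : S) (c : ℝ)
    (h1 : c ≤ gp D o x y) (h2 : c ≤ gp D o y z) : c ≤ gp D o x z := by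
  unfold gp at *
  have h := h4 x z y o
  have e1 := hD.symm y o
  have e2 := hD.symm z o
  have e3 := hD.symm x o
  have e4 := hD.symm z y
  rcases le_max_iff.1 h with h | h <;> linarith

theorem gp_ge {S : Type} {D : S → S → ℝ} (hD : PM D) (o x y : S) :
    D o x - D x y ≤ gp D o x y := by
  unfold gp
  have h := hD.tri o y x
  have e := hD.symm x y
  linarith

/-- the equivalence relation -/
def st {S : Type} {D : S → S → ℝ} (hD : PM D)
    (h4 : ∀ x y z w, D x y + D z w ≤ max (D x z + D y w) (D x w + D y z)) (o : S) (W s : ℝ)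
    (hW : 0 < W) : Setoid S where
  r := Rl D o W s
  iseqv := by
    refine ⟨?_, ?_, ?_⟩
    · intro x
      refine ⟨rfl, ?_⟩
      rw [gp_self hD]
      exact bl_le D o s hW x
    · rintro x y ⟨h1, h2⟩
      refine ⟨h1.symm, ?_⟩
      rw [← h1, gp_symm hD]
      exact h2
    · rintro x y z ⟨h1, h2⟩ ⟨h3, h5⟩
      refine ⟨h1.trans h3, ?_⟩
      refine gp_min hD h4 o x y z _ h2 ?_
      rw [h1]
      exact h5

/-- not related points give a cut of the interval -/
theorem exists_cut {S : Type} {D : S → S → ℝ} (hD : PM D) (o : S) {W : ℝ} (s : ℝ) (hW : 0 < W)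
    (x y : S) (r : ℝ) (hr : D x y ≤ r) (hr0 : 0 ≤ r) (hn : ¬ Rl D o W s x y) :
    ∃ b : ℤ, D o x - r < b * W - s ∧ b * W - s ≤ D o x + r := by
  by_contra hno
  push Not at hno
  apply hn
  have h1 := bl_le D o s hW x
  have h2 := bl_lt D o s hW x
  have h3 : bl D o W s x * W - s ≤ D o x - r := by
    by_contra h
    have := hno (bl D o W s x) (by linarith)
    linarith
  have h4 : D o x + r < (bl D o W s x + 1) * W - s := by
    have := hno (bl D o W s x + 1) (by push_cast; linarith)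
    push_cast at this
    exact this
  have t1 := hD.tri o x y
  have t2 := hD.tri o y x
  have e := hD.symm x y
  refine ⟨(bl_eq D o s hW y (bl D o W s x) (by linarith) (by linarith)).symm, ?_⟩
  have := gp_ge hD o x y
  linarith

end FourM

open FourM in
theorem fourP : FourProp := by
  intro S _ _ D hD h4 Δ hΔ
  classical
  obtain ⟨o⟩ := ‹Nonempty S›
  obtain ⟨dm, hdm, hdm'⟩ := exists_dm D
  have hW : (0 : ℝ) < Δ / 2 := by linarith
  set W : ℝ := Δ / 2 with hWd
  obtain ⟨G0, hG0⟩ := exists_nat_ge (W / dm)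
  set Gp : ℕ := G0 + 1 with hGd
  have hG : 0 < Gp := Nat.succ_pos _
  have hG' : (0 : ℝ) < Gp := by exact_mod_cast hG
  have hGW : 1 / (Gp : ℝ) ≤ dm / W := by
    rw [div_le_div_iff₀ hG' hW, one_mul]
    have h1 : W / dm ≤ Gp := by
      rw [hGd]; push_cast; linarith
    rw [div_le_iff₀ hdm] at h1
    linarith
  let s : Fin Gp → ℝ := fun a => W * (a : ℕ) / Gp
  let q : Fin Gp → S → S := fun a x =>
    (Quotient.mk (st hD h4 o W (s a) hW) x).out
  have hq : ∀ a x y, q a x = q a y ↔ Rl D o W (s a) x y := by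
    intro a x y
    constructor
    · intro h
      have h1 := congrArg (Quotient.mk (st hD h4 o W (s a) hW)) h
      have h2 : Quotient.mk (st hD h4 o W (s a) hW) x = Quotient.mk (st hD h4 o W (s a) hW) y := by
        calc Quotient.mk (st hD h4 o W (s a) hW) x
            = Quotient.mk (st hD h4 o W (s a) hW) (q a x) := (Quotient.out_eq _).symm
          _ = Quotient.mk (st hD h4 o W (s a) hW) (q a y) := h1
          _ = _ := Quotient.out_eq _
      exact Quotient.exact h2
    · intro h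
      have h2 : Quotient.mk (st hD h4 o W (s a) hW) x = Quotient.mk (st hD h4 o W (s a) hW) y :=
        Quotient.sound h
      show (Quotient.mk (st hD h4 o W (s a) hW) x).out = (Quotient.mk (st hD h4 o W (s a) hW) y).out
      rw [h2]
  refine ⟨Fin Gp, inferInstance, fun _ => 1 / Gp, q, fun _ => by positivity, ?_, ?_, ?_⟩
  · rw [Finset.sum_const, Finset.card_univ, Fintype.card_fin, nsmul_eq_mul]
    field_simp
  · intro a x y hxy
    obtain ⟨h1, h2⟩ := (hq a x y).1 hxy
    have h3 := bl_lt D o (s a) hW x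
    have h5 := bl_lt D o (s a) hW y
    rw [← h1] at h5
    unfold gp at h2
    have h6 : Δ = 2 * W := by rw [hWd]; ring
    rw [h6]
    linarith
  · intro x r hr
    rcases lt_or_ge r dm with hrd | hrd
    · have h0 : ∀ a : Fin Gp, ind (∃ y, D x y ≤ r ∧ q a x ≠ q a y) = 0 := by
        intro a
        apply ind_false
        rintro ⟨y, hy, hne⟩
        have hD0 : D x y = 0 := by
          rcases (hD.nonneg x y).eq_or_lt with h | h
          · exact h.symm
          · have := hdm' x y h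
            linarith
        apply hne
        rw [hq]
        have t1 := hD.tri o x y
        have t2 := hD.tri o y x
        have e := hD.symm x y
        have ht : D o x = D o y := by linarith
        refine ⟨by unfold bl; rw [ht], ?_⟩
        have h1 := bl_le D o (s a) hW x
        have h2 := gp_ge hD o x y
        linarith
      calc ∑ a, 1 / (Gp : ℝ) * ind (∃ y, D x y ≤ r ∧ q a x ≠ q a y) = ∑ a : Fin Gp, 0 := by
            apply Finset.sum_congr rfl
            intro a _
            rw [h0 a, mul_zero]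
        _ = 0 := Finset.sum_const_zero
        _ ≤ 6 * r / Δ := by positivity
    · have hle : ∀ a : Fin Gp, ind (∃ y, D x y ≤ r ∧ q a x ≠ q a y) ≤
          ind (∃ b : ℤ, D o x - r < b * W - W * (a : ℕ) / Gp ∧
            b * W - W * (a : ℕ) / Gp ≤ D o x + r) := by
        intro a
        apply ind_mono
        rintro ⟨y, hy, hne⟩
        refine exists_cut hD o (s a) hW x y r hy hr ?_
        intro hR
        exact hne ((hq a x y).2 hR)
      have hcount := count Gp hG W (D o x - r) (D o x + r) hW (by linarith)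
      calc ∑ a, 1 / (Gp : ℝ) * ind (∃ y, D x y ≤ r ∧ q a x ≠ q a y)
          ≤ ∑ a : Fin Gp, 1 / (Gp : ℝ) * ind (∃ b : ℤ, D o x - r < b * W - W * (a : ℕ) / Gp ∧
            b * W - W * (a : ℕ) / Gp ≤ D o x + r) := by
            apply Finset.sum_le_sum
            intro a _
            exact mul_le_mul_of_nonneg_left (hle a) (by positivity)
        _ = 1 / (Gp : ℝ) * (((univ : Finset (Fin Gp)).filter (fun a : Fin Gp => ∃ b : ℤ,
              D o x - r < b * W - W * (a : ℕ) / Gp ∧
              b * W - W * (a : ℕ) / Gp ≤ D o x + r)).card : ℝ) := by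
            rw [← Finset.mul_sum, Finset.card_filter]
            push_cast
            rfl
        _ ≤ 1 / (Gp : ℝ) * (((D o x + r) - (D o x - r)) * Gp / W + 1) :=
            mul_le_mul_of_nonneg_left hcount (by positivity)
        _ = 2 * r / W + 1 / Gp := by field_simp; ring
        _ ≤ 2 * r / W + r / W := by
            have : dm / W ≤ r / W := div_le_div_of_nonneg_right hrd hW.le
            linarith
        _ = 6 * r / Δ := by
            have h6 : Δ = 2 * W := by rw [hWd]; ring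
            rw [h6]
            field_simp
            ring

end Pool.Agent.MP_a4c1f4_lc.Pad
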