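import Pool.Agent.Lib.MP_a4c1f4_lc.Pad.Spec

set_option linter.all false

/-!
# Kraft inequality for paths in a hierarchy with arms
-/

namespace Pool.Agent.MP_a4c1f4_lc.Pad

open Finset Pool.Agent.MP_a4c1f4_lc Pool.Agent.MP_a4c1f4_lc.Dbl

namespace KrfM

lemma up {S : Type} {rp : ℕ → S → S} {h : ℕ} (hn : Nst rp h) {k i : ℕ} (hki : k ≤ i)
    (hi : i ≤ h) {x y : S} (hxy : rp k x = rp k y) : rp i x = rp i y := by
  induction i, hki using Nat.le_induction with
  | base => exact hxy
  | succ j hj ih => exact hn j (by omega) x y (ih (by omega))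

lemma gs_congr {S : Type} {rp : ℕ → S → S} {h : ℕ} (hn : Nst rp h) (a : ℕ → S → ℝ) {k κ : ℕ}
    (hκ : κ ≤ h) {x y : S} (hxy : rp k x = rp k y) : Gs rp a k κ x = Gs rp a k κ y := by
  unfold Gs
  refine Finset.sum_congr rfl ?_
  intro i hi
  have hi' := Finset.mem_Ico.mp hi
  rw [up hn hi'.1 (by omega) hxy]

lemma gs_succ {S : Type} (rp : ℕ → S → S) (a : ℕ → S → ℝ) {k κ : ℕ} (hk : k < κ) (x : S) :
    Gs rp a k κ x = a k (rp k x) + Gs rp a (k + 1) κ x := by
  unfold Gs
  rw [Finset.sum_eq_sum_Ico_succ_bot hk]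

open Classical in
lemma main {S : Type} [Fintype S] (D : S → S → ℝ) (rp : ℕ → S → S) (a : ℕ → S → ℝ) (h : ℕ)
    (ρ Λ : ℝ) (hA : Arms D rp a h ρ Λ) (κ : ℕ) (hκ : κ ≤ h) (x : S) :
    ∀ n k : ℕ, k + n = κ →
    ∑ z ∈ (Finset.univ.filter (fun y => rp κ y = rp κ x)).image (rp k),
      Real.exp (-(Gs rp a k κ z)) ≤ 1 := by
  intro n
  induction n with
  | zero =>
    intro k hk
    have hk' : k = κ := by omega
    subst hk'
    have h1 : (Finset.univ.filter (fun y => rp k y = rp k x)).image (rp k) ⊆ {rp k x} := by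
      intro z hz
      obtain ⟨y, hy, rfl⟩ := Finset.mem_image.mp hz
      simpa using hy
    refine (Finset.sum_le_sum_of_subset_of_nonneg h1 (fun _ _ _ => (Real.exp_pos _).le)).trans ?_
    simp [Gs]
  | succ n ih =>
    intro k hk
    have hkκ : k < κ := by omega
    have hkh : k < h := by omega
    have hnest := hA.hier.nest
    have ih' := ih (k + 1) (by omega)
    have hmaps : ∀ z ∈ (Finset.univ.filter (fun y => rp κ y = rp κ x)).image (rp k),
        rp (k + 1) z ∈ (Finset.univ.filter (fun y => rp κ y = rp κ x)).image (rp (k + 1)) := by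
      intro z hz
      obtain ⟨y, hy, rfl⟩ := Finset.mem_image.mp hz
      have hy' : rp κ y = rp κ x := by simpa using hy
      refine Finset.mem_image.mpr ⟨rp k y, ?_, rfl⟩
      simp only [Finset.mem_filter, Finset.mem_univ, true_and]
      rw [← hy']
      exact up hnest hkκ.le hκ (hA.idem k y hkh.le)
    rw [← Finset.sum_fiberwise_of_maps_to hmaps]
    refine le_trans (Finset.sum_le_sum ?_) ih'
    intro z' hz'
    obtain ⟨w, hw, hwz⟩ := Finset.mem_image.mp hz'
    have hz'i : rp (k + 1) z' = z' := by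
      rw [← hwz]
      exact hA.idem (k + 1) w (by omega)
    have hterm : ∀ z ∈ ((Finset.univ.filter (fun y => rp κ y = rp κ x)).image (rp k)).filter
        (fun z => rp (k + 1) z = z'),
        Real.exp (-(Gs rp a k κ z)) =
          Real.exp (-(a k z)) * Real.exp (-(Gs rp a (k + 1) κ z')) := by
      intro z hz
      obtain ⟨hz1, hz2⟩ := Finset.mem_filter.mp hz
      obtain ⟨y, hy, hyz⟩ := Finset.mem_image.mp hz1
      have hzz : rp k z = z := by
        rw [← hyz]
        exact hA.idem k y hkh.le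
      have hg : Gs rp a (k + 1) κ z = Gs rp a (k + 1) κ z' :=
        gs_congr hnest a hκ (by rw [hz'i, hz2])
      rw [gs_succ rp a hkκ z, hzz, hg, ← Real.exp_add]
      congr 1
      ring
    rw [Finset.sum_congr rfl hterm, ← Finset.sum_mul]
    have hsub : ((Finset.univ.filter (fun y => rp κ y = rp κ x)).image (rp k)).filter
        (fun z => rp (k + 1) z = z') ⊆
        (Finset.univ.filter (fun y => rp (k + 1) y = rp (k + 1) z')).image (rp k) := by
      intro z hz
      obtain ⟨hz1, hz2⟩ := Finset.mem_filter.mp hz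
      obtain ⟨y, hy, hyz⟩ := Finset.mem_image.mp hz1
      have hzz : rp k z = z := by
        rw [← hyz]
        exact hA.idem k y hkh.le
      refine Finset.mem_image.mpr ⟨z, ?_, hzz⟩
      simp only [Finset.mem_filter, Finset.mem_univ, true_and]
      rw [hz2, hz'i]
    have hkr := hA.kraft k hkh z'
    have h2 : ∑ z ∈ ((Finset.univ.filter (fun y => rp κ y = rp κ x)).image (rp k)).filter
        (fun z => rp (k + 1) z = z'), Real.exp (-(a k z)) ≤ 1 :=
      (Finset.sum_le_sum_of_subset_of_nonneg hsub (fun _ _ _ => (Real.exp_pos _).le)).trans hkr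
    calc _ ≤ 1 * Real.exp (-(Gs rp a (k + 1) κ z')) :=
          mul_le_mul_of_nonneg_right h2 (Real.exp_pos _).le
      _ = _ := one_mul _

end KrfM

theorem krfP : KrfProp := by
  intro S _ D rp a h ρ Λ hA k κ hk hκ x
  exact KrfM.main D rp a h ρ Λ hA κ hκ x (κ - k) k (by omega)

end Pool.Agent.MP_a4c1f4_lc.Pad
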