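import Pool.Agent.Lib.MP_a4c1f4_lc.Pad.Spec
import Pool.Agent.Lib.MP_a4c1f4_lc.Dbl.LvC

/-!
# MP_a4c1f4_lc, Pad, file LvQ: the expected cost of the moves of one layer
-/

namespace Pool.Agent.MP_a4c1f4_lc.Pad

open Finset Pool.Agent.MP_a4c1f4_lc Pool.Agent.MP_a4c1f4_lc.Dbl

namespace LvQM

theorem nvq_nonneg {Q : Type} {H G : ℕ} (g : Fin H × Q → Fin (G + 1)) (j : ℕ) (c : Q) :
    0 ≤ nvq g j c := by
  unfold nvq
  split_ifs
  · exact Nat.cast_nonneg _
  · exact le_rfl

theorem Yt_nonneg {S T Q : Type} [Fintype Q] {H G : ℕ} (σ : T → S) (q : ℕ → Q → S → Prop)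
    (am : ℕ → Q → ℝ) {η : ℝ} (hη : 0 ≤ η) (g : Fin H × Q → Fin (G + 1)) (j : ℕ)
    (ham : ∀ c', 0 < am j c') (t : T) : 0 ≤ Yt σ q am η g j t := by
  unfold Yt Yq
  refine Finset.sum_nonneg fun c _ => ?_
  have h1 := nvq_nonneg g j c
  have h2 := ind_nonneg (q j c (σ t))
  have h3 := (ham c).le
  positivity

theorem gn_nonneg {S T : Type} [Fintype T] [DecidableEq T] (h2 : DelProp) (h6 : StpProp)
    (σ : T → S) (rs : ℕ → S → S) (H : ℕ) (Y : ℕ → T → ℝ) (hN : Nst rs H) (j : ℕ) (hj : j < H)
    (x : T) (l : List T) : 0 ≤ gn σ rs Y j x l := by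
  unfold gn
  by_cases hP : ¬ Full σ rs j x l ∧ ¬ Full σ rs (j + 1) x l
  · rw [ind_true hP, mul_one]
    have hS := (h6 S T σ rs H Y hN x l).2 j hj hP.1 hP.2
    exact (h2 T (Y j) _ _ _ hS.1 hS.2.1).2.2
  · rw [ind_false hP, mul_zero]

theorem rs_of_le {S : Type} (rs : ℕ → S → S) (H : ℕ) (hN : Nst rs H) (j : ℕ) (hj : j < H)
    (x y : S) (h : rs j x = rs j y) : rs (j + 1) x = rs (j + 1) y := hN j hj x y h

end LvQM

open Pool.Agent.MP_a4c1f4_lc.Dbl.LvCM LvQM in
theorem lvQP (h1 : ExgProp) (h2 : DelProp) (h3 : ExQProp) (h4 : PotProp) (h5 : FeSProp)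
    (h6 : StpProp) : LvQProp := by
  intro S T Q _ _ _ _ _ _ D σ rs H ρ dg q am ct R1 R2 G η α j l hD hH hF h0 h0' hj hα hl her
  have hN : Nst rs H := hH.nest
  have hρ : 0 < ρ := hH.pos
  have hη0 : 0 ≤ η := h0.le
  have hη1 : η ≤ 1 := by linarith
  have hfe0 : ∀ l : List T, 0 ≤ fe σ rs j l := by
    intro l
    rcases (h5 S T σ rs H (fun _ _ => 0) hN j l).1 with h8 | h8
    · exact h8.ge
    · linarith
  have hfem : ∀ (x : T) (l : List T), fe σ rs j l ≤ fe σ rs j (x :: l) := fun x l =>
    (h5 S T σ rs H (fun _ _ => 0) hN j l).2.1 x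
  set E := max (erq (Fintype.card T) G η α) 0 with hE
  have hE0 : 0 ≤ E := le_max_right _ _
  have hEle : erq (Fintype.card T) G η α ≤ E := le_max_left _ _
  have hE1 : E * Fintype.card T * Fintype.card Q ≤ 1 := by
    rcases le_total (erq (Fintype.card T) G η α) 0 with h | h
    · rw [hE, max_eq_right h]
      simp
    · rw [hE, max_eq_left h]
      exact her
  set A := ∑ c, ct j c with hA
  have hA0 : 0 ≤ A := Finset.sum_nonneg fun c _ => hF.ct0 j c
  have hA1 : A ≤ Fintype.card Q * 4 ^ (j + 1) := by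
    have e1 : A ≤ (Finset.univ : Finset Q).card • (4 : ℝ) ^ (j + 1) :=
      Finset.sum_le_card_nsmul _ _ _ fun c _ => hF.ct1 j c hj
    rw [nsmul_eq_mul, Finset.card_univ] at e1
    exact e1
  have hgn : ∀ (g : Fin H × Q → Fin (G + 1)) (x : T) (l : List T),
      0 ≤ gn σ rs (Yt σ q am η g) j x l :=
    fun g x l => gn_nonneg h2 h6 σ rs H (Yt σ q am η g) hN j hj x l
  -- one step
  have step : ∀ (x : T) (l : List T),
      Exg G η (fun g : Fin H × Q → Fin (G + 1) => mv D σ rs (Yt σ q am η g) j x l) ≤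
        R1 * ρ * Exg G η (fun g : Fin H × Q → Fin (G + 1) => gn σ rs (Yt σ q am η g) j x l) +
          A * ρ * E * ind (1 ≤ fe σ rs j l) := by
    intro x l
    calc Exg G η (fun g : Fin H × Q → Fin (G + 1) => mv D σ rs (Yt σ q am η g) j x l)
        ≤ Exg G η (fun g : Fin H × Q → Fin (G + 1) => ∑ c, ct j c * ρ *
            ind (¬ Full σ rs j x l ∧ ¬ Full σ rs (j + 1) x l ∧
              q j c (σ (nw σ rs (Yt σ q am η g) j x l)) ∧
              ¬ q j c (σ (nw σ rs (Yt σ q am η g) (j + 1) x l)))) := by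
          refine Exg_mono h1 hη0 hη1 fun g => ?_
          unfold mv
          by_cases hP : ¬ Full σ rs j x l ∧ ¬ Full σ rs (j + 1) x l
          · rw [ind_true hP, mul_one]
            have e1 := (((h6 S T σ rs H (Yt σ q am η g) hN x l).1 j hj.le).2 hP.1).2.2
            have e2 := (((h6 S T σ rs H (Yt σ q am η g) hN x l).1 (j + 1) hj).2 hP.2).2.2
            have e3 := hN j hj _ _ e1
            refine (hF.mv j hj _ _ (e3.trans e2.symm)).trans (le_of_eq ?_)
            refine Finset.sum_congr rfl fun c _ => ?_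
            congr 2
            apply propext
            exact ⟨fun hh => ⟨hP.1, hP.2, hh⟩, fun hh => hh.2.2⟩
          · rw [ind_false hP, mul_zero]
            exact Finset.sum_nonneg fun c _ => mul_nonneg (mul_nonneg (hF.ct0 j c) hρ.le)
              (ind_nonneg _)
      _ = ∑ c, ct j c * ρ * Exg G η (fun g : Fin H × Q → Fin (G + 1) =>
            ind (¬ Full σ rs j x l ∧ ¬ Full σ rs (j + 1) x l ∧
              q j c (σ (nw σ rs (Yt σ q am η g) j x l)) ∧
              ¬ q j c (σ (nw σ rs (Yt σ q am η g) (j + 1) x l)))) := by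
          rw [Exg_sum]
          exact Finset.sum_congr rfl fun c _ => Exg_mul _ _
      _ ≤ ∑ c, ct j c * ρ * (1 / am j c *
            Exg G η (fun g : Fin H × Q → Fin (G + 1) => gn σ rs (Yt σ q am η g) j x l *
              ind (q j c (σ (nw σ rs (Yt σ q am η g) j x l)))) +
              E * ind (1 ≤ fe σ rs j l)) := by
          refine Finset.sum_le_sum fun c _ => mul_le_mul_of_nonneg_left ?_
            (mul_nonneg (hF.ct0 j c) hρ.le)
          refine (h3 S T Q σ rs q am H G η α j c x l hN h0 h0' hj (hF.am_pos j) (hα c)).trans ?_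
          exact add_le_add le_rfl (mul_le_mul_of_nonneg_right hEle (ind_nonneg _))
      _ = Exg G η (fun g : Fin H × Q → Fin (G + 1) => ρ * (gn σ rs (Yt σ q am η g) j x l *
            ∑ c, ct j c / am j c * ind (q j c (σ (nw σ rs (Yt σ q am η g) j x l))))) +
            A * ρ * E * ind (1 ≤ fe σ rs j l) := by
          simp only [mul_add, Finset.sum_add_distrib]
          congr 1
          · have e1 : ∀ g : Fin H × Q → Fin (G + 1), ρ * (gn σ rs (Yt σ q am η g) j x l *
                ∑ c, ct j c / am j c * ind (q j c (σ (nw σ rs (Yt σ q am η g) j x l)))) =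
                ∑ c, ct j c * ρ * (1 / am j c) * (gn σ rs (Yt σ q am η g) j x l *
                  ind (q j c (σ (nw σ rs (Yt σ q am η g) j x l)))) := by
              intro g
              rw [Finset.mul_sum, Finset.mul_sum]
              refine Finset.sum_congr rfl fun c _ => ?_
              ring
            simp only [e1]
            rw [Exg_sum]
            refine Finset.sum_congr rfl fun c _ => ?_
            rw [Exg_mul, mul_assoc, mul_assoc, mul_assoc]
          · rw [hA, Finset.sum_mul, Finset.sum_mul, Finset.sum_mul]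
            refine Finset.sum_congr rfl fun c _ => ?_
            ring
      _ ≤ R1 * ρ * Exg G η (fun g : Fin H × Q → Fin (G + 1) => gn σ rs (Yt σ q am η g) j x l) +
            A * ρ * E * ind (1 ≤ fe σ rs j l) := by
          refine add_le_add ?_ le_rfl
          rw [← Exg_mul]
          refine Exg_mono h1 hη0 hη1 fun g => ?_
          have e1 := hF.r1 j hj (σ (nw σ rs (Yt σ q am η g) j x l))
          have e2 := hgn g x l
          calc ρ * (gn σ rs (Yt σ q am η g) j x l *
                ∑ c, ct j c / am j c * ind (q j c (σ (nw σ rs (Yt σ q am η g) j x l)))) ≤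
                ρ * (gn σ rs (Yt σ q am η g) j x l * R1) :=
                mul_le_mul_of_nonneg_left (mul_le_mul_of_nonneg_left e1 e2) hρ.le
            _ = R1 * ρ * gn σ rs (Yt σ q am η g) j x l := by ring
  -- the sum of the losses
  set B := (4 : ℝ) ^ (j + 1) * R2 with hB
  have hB0 : 0 ≤ B := mul_nonneg (by positivity) hF.R2n
  have hYt : ∀ (g : Fin H × Q → Fin (G + 1)) (t : T), 0 ≤ Yt σ q am η g j t :=
    fun g t => LvQM.Yt_nonneg σ q am hη0 g j (hF.am_pos j) t
  have loss : ∀ l : List T, Exg G η (fun g : Fin H × Q → Fin (G + 1) =>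
      stp (gn σ rs (Yt σ q am η g) j) l) ≤ B * fe σ rs j l := by
    intro l
    calc Exg G η (fun g : Fin H × Q → Fin (G + 1) => stp (gn σ rs (Yt σ q am η g) j) l)
        ≤ Exg G η (fun g : Fin H × Q → Fin (G + 1) => stp (fun x l => Yt σ q am η g j
            (nw σ rs (Yt σ q am η g) (j + 1) x l) *
              ind (Full σ rs j x l ∧ ¬ Full σ rs (j + 1) x l)) l) :=
          Exg_mono h1 hη0 hη1 fun g => h4 S T σ rs H (Yt σ q am η g) j hN hj (hYt g) l
      _ = stp (fun x l => Exg G η (fun g : Fin H × Q → Fin (G + 1) => Yt σ q am η g j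
            (nw σ rs (Yt σ q am η g) (j + 1) x l) *
              ind (Full σ rs j x l ∧ ¬ Full σ rs (j + 1) x l))) l := Exg_stp _ l
      _ ≤ stp (fun x l => B * ind (Full σ rs j x l)) l := by
          refine stp_mono (fun x l => ?_) l
          by_cases hFu : Full σ rs j x l
          · rw [ind_true hFu, mul_one]
            by_cases hG : Full σ rs (j + 1) x l
            · rw [ind_false (fun h => h.2 hG)]
              simp only [mul_zero]
              rw [Exg_zero]
              exact hB0
            · rw [ind_true ⟨hFu, hG⟩]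
              simp only [mul_one]
              refine hF.r2 G η h0 h0' j hj (σ x) _ fun g => ?_
              exact ⟨σ (nw σ rs (Yt σ q am η g) (j + 1) x l),
                (((h6 S T σ rs H (Yt σ q am η g) hN x l).1 (j + 1) (by omega)).2 hG).2.2, le_rfl⟩
          · rw [ind_false hFu, ind_false (fun h => hFu h.1)]
            simp only [mul_zero]
            rw [Exg_zero]
      _ = B * fe σ rs j l := stp_mul _ _ l
  -- the error terms
  have err : ∀ l : List T, stp (fun _ l => ind (1 ≤ fe σ rs j l)) l ≤ l.length * fe σ rs j l := by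
    intro l
    induction l with
    | nil =>
      show (0 : ℝ) ≤ _
      exact mul_nonneg (Nat.cast_nonneg _) (hfe0 _)
    | cons x l ih =>
      show stp (fun _ l => ind (1 ≤ fe σ rs j l)) l + ind (1 ≤ fe σ rs j l) ≤ _
      have h8 := ind_le_self (hfe0 l)
      have h9 := hfem x l
      have h10 : (((x :: l).length : ℕ) : ℝ) = l.length + 1 := by
        rw [List.length_cons]
        push_cast
        ring
      rw [h10]
      have h11 : ((l.length : ℝ) + 1) * fe σ rs j l ≤ ((l.length : ℝ) + 1) * fe σ rs j (x :: l) :=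
        mul_le_mul_of_nonneg_left h9 (by positivity)
      have h12 : stp (fun _ l => ind (1 ≤ fe σ rs j l)) l ≤ l.length * fe σ rs j l := by
        exact ih
      linarith
  have hloss := loss l
  have herr := err l
  have hfe := hfe0 l
  have hlr : (l.length : ℝ) ≤ Fintype.card T := by exact_mod_cast hl
  have hR1 := hF.R1n
  have hR2 := hF.R2n
  have main : Exg G η (fun g : Fin H × Q → Fin (G + 1) =>
      stp (mv D σ rs (Yt σ q am η g) j) l) ≤
      R1 * ρ * (B * fe σ rs j l) + A * ρ * E * (Fintype.card T * fe σ rs j l) := by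
    calc Exg G η (fun g : Fin H × Q → Fin (G + 1) => stp (mv D σ rs (Yt σ q am η g) j) l)
        = stp (fun x l => Exg G η (fun g : Fin H × Q → Fin (G + 1) =>
            mv D σ rs (Yt σ q am η g) j x l)) l := Exg_stp _ l
      _ ≤ stp (fun x l => R1 * ρ * Exg G η (fun g : Fin H × Q → Fin (G + 1) =>
            gn σ rs (Yt σ q am η g) j x l) + A * ρ * E * ind (1 ≤ fe σ rs j l)) l :=
          stp_mono step l
      _ = R1 * ρ * stp (fun x l => Exg G η (fun g : Fin H × Q → Fin (G + 1) =>
            gn σ rs (Yt σ q am η g) j x l)) l +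
          A * ρ * E * stp (fun _ l => ind (1 ≤ fe σ rs j l)) l := by
          rw [stp_add, stp_mul, stp_mul]
      _ ≤ R1 * ρ * (B * fe σ rs j l) + A * ρ * E * (Fintype.card T * fe σ rs j l) := by
          refine add_le_add (mul_le_mul_of_nonneg_left ?_ (by positivity))
            (mul_le_mul_of_nonneg_left ?_ (by positivity))
          · rw [← Exg_stp]
            exact hloss
          · exact herr.trans (mul_le_mul_of_nonneg_right hlr hfe)
  have e2 : A * ρ * E * (Fintype.card T * fe σ rs j l) ≤ 4 ^ (j + 1) * ρ * fe σ rs j l := by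
    have f1 : A * ρ * E * (Fintype.card T * fe σ rs j l) ≤
        Fintype.card Q * 4 ^ (j + 1) * ρ * E * (Fintype.card T * fe σ rs j l) := by
      refine mul_le_mul_of_nonneg_right ?_ (by positivity)
      exact mul_le_mul_of_nonneg_right (mul_le_mul_of_nonneg_right hA1 hρ.le) hE0
    have f2 : Fintype.card Q * 4 ^ (j + 1) * ρ * E * (Fintype.card T * fe σ rs j l) =
        (E * Fintype.card T * Fintype.card Q) * (4 ^ (j + 1) * ρ * fe σ rs j l) := by ring
    have f3 : (E * Fintype.card T * Fintype.card Q) * (4 ^ (j + 1) * ρ * fe σ rs j l) ≤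
        1 * (4 ^ (j + 1) * ρ * fe σ rs j l) :=
      mul_le_mul_of_nonneg_right hE1 (by positivity)
    linarith
  have e3 : R1 * ρ * (B * fe σ rs j l) + 4 ^ (j + 1) * ρ * fe σ rs j l =
      4 ^ (j + 1) * ρ * (R1 * R2 + 1) * fe σ rs j l := by
    rw [hB]
    ring
  linarith

end Pool.Agent.MP_a4c1f4_lc.Pad
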