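import Pool.Agent.Lib.MP_a4c1f4_lc.Pad.Spec

set_option linter.all false

/-!
# One round of the padded decomposition with a random threshold
-/

namespace Pool.Agent.MP_a4c1f4_lc.Pad

open Finset Pool.Agent.MP_a4c1f4_lc Pool.Agent.MP_a4c1f4_lc.Dbl

namespace RndM

/-- A set of indices with small pairwise differences is small. -/
theorem card_le {G : ℕ} (A : Finset (Fin G)) (T : ℝ) (hT : 0 ≤ T)
    (h : ∀ i ∈ A, ∀ j ∈ A, i ≤ j → ((j : ℕ) : ℝ) - ((i : ℕ) : ℝ) < T) : (A.card : ℝ) ≤ T + 1 := by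
  rcases A.eq_empty_or_nonempty with h0 | h0
  · subst h0
    simp
    linarith
  · have ha := A.min'_mem h0
    have hb := A.max'_mem h0
    have hab : A.min' h0 ≤ A.max' h0 := A.min'_le _ hb
    have h1 := h _ ha _ hb hab
    have hsub : A ⊆ Finset.Icc (A.min' h0) (A.max' h0) := fun i hi =>
      Finset.mem_Icc.2 ⟨A.min'_le _ hi, A.le_max' _ hi⟩
    have h2 := Finset.card_le_card hsub
    rw [Fin.card_Icc] at h2
    have h3 : (A.card : ℝ) ≤ (((A.max' h0 : Fin G) : ℕ) : ℝ) + 1 - ((A.min' h0 : Fin G) : ℕ) := by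
      have hle : ((A.min' h0 : Fin G) : ℕ) ≤ ((A.max' h0 : Fin G) : ℕ) + 1 := by
        have : ((A.min' h0 : Fin G) : ℕ) ≤ ((A.max' h0 : Fin G) : ℕ) := hab
        omega
      have h4 : ((A.card : ℕ) : ℝ) ≤ ((((A.max' h0 : Fin G) : ℕ) + 1 - ((A.min' h0 : Fin G) : ℕ) : ℕ) : ℝ) := by
        exact_mod_cast h2
      rw [Nat.cast_sub hle] at h4
      push_cast at h4
      exact h4
    linarith

/-- A lower bound for the positive values of `D`. -/
theorem exists_G {S : Type} [Fintype S] (D : S → S → ℝ) (r0 : ℝ) (hr : 0 < r0) :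
    ∃ G : ℕ, 1 ≤ G ∧ ∀ x y, 0 < D x y → 1 ≤ G * (D x y / r0) := by
  classical
  have h : ∀ p : S × S, ∃ G : ℕ, 0 < D p.1 p.2 → 1 ≤ G * (D p.1 p.2 / r0) := by
    intro p
    by_cases hp : 0 < D p.1 p.2
    · obtain ⟨G, hG⟩ := exists_nat_ge (1 / (D p.1 p.2 / r0))
      refine ⟨G, fun _ => ?_⟩
      have h1 : 0 < D p.1 p.2 / r0 := by positivity
      rwa [div_le_iff₀ h1] at hG
    · exact ⟨0, fun h => absurd h hp⟩
  choose g hg using h
  refine ⟨1 + ∑ p, g p, by omega, fun x y hxy => ?_⟩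
  have h1 := hg (x, y) hxy
  have h2 : g (x, y) ≤ 1 + ∑ p, g p := by
    have := Finset.single_le_sum (f := g) (fun i _ => Nat.zero_le _) (Finset.mem_univ (x, y))
    omega
  have h3 : (g (x, y) : ℝ) ≤ ((1 + ∑ p, g p : ℕ) : ℝ) := by exact_mod_cast h2
  have h4 : 0 ≤ D x y / r0 := by positivity
  calc (1 : ℝ) ≤ g (x, y) * (D x y / r0) := h1
    _ ≤ _ := mul_le_mul_of_nonneg_right h3 h4

end RndM

open RndM in
theorem rndP : RndProp := by
  classical
  intro S _ D β Δ hD hβ hΔ hP
  obtain ⟨Ω0, _, w0, q0, hw0, hw1, hdiam, hpad⟩ := hP Δ hΔ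
  set r0 : ℝ := Δ / (8 * β) with hr0
  have hβ0 : 0 < β := by linarith
  have hr0p : 0 < r0 := by rw [hr0]; positivity
  obtain ⟨G, hG1, hG⟩ := exists_G D r0 hr0p
  have hG0 : (0 : ℝ) < G := by exact_mod_cast (by omega : 0 < G)
  let r : Fin G → ℝ := fun i => r0 * (1 + (((i : ℕ) : ℝ) + 1) / G)
  have hrlo : ∀ i, r0 ≤ r i := by
    intro i
    have : 0 ≤ (((i : ℕ) : ℝ) + 1) / G := by positivity
    show r0 ≤ r0 * (1 + (((i : ℕ) : ℝ) + 1) / G)
    nlinarith
  have hrhi : ∀ i, r i ≤ 2 * r0 := by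
    intro i
    have h1 : (((i : ℕ) : ℝ) + 1) / G ≤ 1 := by
      rw [div_le_one hG0]
      exact_mod_cast i.2
    show r0 * (1 + (((i : ℕ) : ℝ) + 1) / G) ≤ 2 * r0
    nlinarith
  have hrd : ∀ i j : Fin G, r j - r i = (((j : ℕ) : ℝ) - ((i : ℕ) : ℝ)) * (r0 / G) := by
    intro i j
    show r0 * (1 + (((j : ℕ) : ℝ) + 1) / G) - r0 * (1 + (((i : ℕ) : ℝ) + 1) / G) = _
    field_simp
    ring
  let dp : Ω0 × Fin G → S → Prop := fun ω x => ∀ y, D x y ≤ r ω.2 → q0 ω.1 x = q0 ω.1 y
  have hsum : ∀ F : Ω0 × Fin G → ℝ,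
      ∑ ω, w0 ω.1 / G * F ω = ∑ ω, w0 ω * ((∑ i, F (ω, i)) / G) := by
    intro F
    rw [Fintype.sum_prod_type]
    refine Finset.sum_congr rfl fun ω _ => ?_
    simp only
    rw [← Finset.mul_sum]
    ring
  refine ⟨Ω0 × Fin G, inferInstance, fun ω => w0 ω.1 / G, fun ω => q0 ω.1, dp, ?_, ?_, ?_, ?_,
    ?_, ?_⟩
  · intro ω
    exact div_nonneg (hw0 _) hG0.le
  · have := hsum (fun _ => 1)
    simp only [mul_one, Finset.sum_const, Finset.card_univ, Fintype.card_fin, nsmul_eq_mul] at this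
    rw [this, div_self hG0.ne']
    simpa using hw1
  · intro ω x y h
    exact hdiam _ x y h
  · intro ω x y h1 h2
    exact h1 y (h2.trans (hrlo _))
  · intro x
    have h1 : ∀ ω : Ω0 × Fin G, ind (¬ dp ω x) ≤
        ind (∃ y, D x y ≤ 2 * r0 ∧ q0 ω.1 x ≠ q0 ω.1 y) := by
      intro ω
      refine ind_mono fun h => ?_
      simp only [dp] at h
      push Not at h
      obtain ⟨y, hy1, hy2⟩ := h
      exact ⟨y, hy1.trans (hrhi _), hy2⟩
    calc ∑ ω : Ω0 × Fin G, w0 ω.1 / G * ind (¬ dp ω x)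
        ≤ ∑ ω : Ω0 × Fin G, w0 ω.1 / G * ind (∃ y, D x y ≤ 2 * r0 ∧ q0 ω.1 x ≠ q0 ω.1 y) :=
          Finset.sum_le_sum fun ω _ =>
            mul_le_mul_of_nonneg_left (h1 ω) (div_nonneg (hw0 _) hG0.le)
      _ = ∑ ω, w0 ω * ind (∃ y, D x y ≤ 2 * r0 ∧ q0 ω x ≠ q0 ω y) := by
          rw [hsum]
          refine Finset.sum_congr rfl fun ω _ => ?_
          simp only [Finset.sum_const, Finset.card_univ, Fintype.card_fin, nsmul_eq_mul]
          rw [mul_div_assoc, mul_comm (G : ℝ), div_mul_cancel₀ _ hG0.ne']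
      _ ≤ β * (2 * r0) / Δ := hpad x _ (by linarith)
      _ = 1 / 4 := by
          rw [hr0]
          field_simp
          norm_num
  · intro x y hxy
    have hDn := hD.nonneg x y
    have key : ∀ ω : Ω0, ∑ i, ind ((dp (ω, i) x ∧ ¬ dp (ω, i) y) ∨ (¬ dp (ω, i) x ∧ dp (ω, i) y))
        ≤ 2 * (D x y / r0) * G := by
      intro ω
      -- the general inequality
      have gen : ∀ x y : S, D x y ≤ r0 → ∀ i j : Fin G, i ≤ j → (dp (ω, j) x) →
          (¬ dp (ω, i) y) → (((j : ℕ) : ℝ) - ((i : ℕ) : ℝ)) * (r0 / G) < D x y := by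
        intro x y hxy i j hij hx hy
        simp only [dp] at hx hy
        push Not at hy
        obtain ⟨z, hz1, hz2⟩ := hy
        have hq : q0 ω x = q0 ω y := hx y (hxy.trans (hrlo _))
        have h1 : r j < D x z := by
          by_contra hcon
          push Not at hcon
          exact hz2 (hq ▸ hx z hcon)
        have h2 := hD.tri x y z
        rw [← hrd]
        linarith
      have mono : ∀ x : S, ∀ i j : Fin G, i ≤ j → dp (ω, j) x → dp (ω, i) x := by
        intro x i j hij h z hz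
        refine h z (hz.trans ?_)
        have h1 := hrd i j
        have h2 : 0 ≤ (((j : ℕ) : ℝ) - ((i : ℕ) : ℝ)) * (r0 / G) := by
          refine mul_nonneg (sub_nonneg.2 ?_) (by positivity)
          exact_mod_cast hij
        show r i ≤ r j
        linarith
      set A : Finset (Fin G) := Finset.univ.filter fun i =>
        (dp (ω, i) x ∧ ¬ dp (ω, i) y) ∨ (¬ dp (ω, i) x ∧ dp (ω, i) y) with hA
      have hcard : ∑ i, ind ((dp (ω, i) x ∧ ¬ dp (ω, i) y) ∨ (¬ dp (ω, i) x ∧ dp (ω, i) y)) =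
          (A.card : ℝ) := by
        rw [hA, Finset.card_filter]
        push_cast
        refine Finset.sum_congr rfl fun i _ => ?_
        unfold ind
        split_ifs <;> rfl
      rw [hcard]
      have hdiff : ∀ i ∈ A, ∀ j ∈ A, i ≤ j →
          (((j : ℕ) : ℝ) - ((i : ℕ) : ℝ)) * (r0 / G) < D x y := by
        intro i hi j hj hij
        rw [hA, Finset.mem_filter] at hi hj
        rcases hj.2 with hj2 | hj2
        · -- x deep at j, so x deep at i, so y not deep at i
          have h1 := mono x i j hij hj2.1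
          have h2 : ¬ dp (ω, i) y := by
            rcases hi.2 with h | h
            · exact h.2
            · exact absurd h1 h.1
          exact gen x y hxy i j hij hj2.1 h2
        · have h1 := mono y i j hij hj2.2
          have h2 : ¬ dp (ω, i) x := by
            rcases hi.2 with h | h
            · exact absurd h1 h.2
            · exact h.1
          rw [hD.symm x y]
          exact gen y x (by rw [← hD.symm x y]; exact hxy) i j hij hj2.2 h2
      rcases hDn.eq_or_lt with h0 | h0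
      · -- D x y = 0
        have hemp : A = ∅ := by
          rw [Finset.eq_empty_iff_forall_notMem]
          intro i hi
          have := hdiff i hi i hi le_rfl
          rw [← h0] at this
          simp at this
        rw [hemp, ← h0]
        simp
      · have hT : 1 ≤ G * (D x y / r0) := hG x y h0
        have h1 := card_le A (G * (D x y / r0)) (by linarith) (by
          intro i hi j hj hij
          have h2 := hdiff i hi j hj hij
          have h3 : 0 < r0 / G := by positivity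
          rw [← lt_div_iff₀ h3] at h2
          refine h2.trans_eq ?_
          field_simp)
        linarith
    calc ∑ ω : Ω0 × Fin G, w0 ω.1 / G *
          ind ((dp ω x ∧ ¬ dp ω y) ∨ (¬ dp ω x ∧ dp ω y))
        = ∑ ω, w0 ω * ((∑ i, ind ((dp (ω, i) x ∧ ¬ dp (ω, i) y) ∨
            (¬ dp (ω, i) x ∧ dp (ω, i) y))) / G) := hsum _
      _ ≤ ∑ ω, w0 ω * (2 * (D x y / r0)) := by
          refine Finset.sum_le_sum fun ω _ => mul_le_mul_of_nonneg_left ?_ (hw0 ω)
          rw [div_le_iff₀ hG0]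
          exact key ω
      _ = 2 * (D x y / r0) := by rw [← Finset.sum_mul, hw1, one_mul]

end Pool.Agent.MP_a4c1f4_lc.Pad
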