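import Pool.Agent.Lib.MP_a4c1f4_lc.Pad.Spec

set_option autoImplicit false

namespace Pool.Agent.MP_a4c1f4_lc.Pad

open Finset Pool.Agent.MP_a4c1f4_lc Pool.Agent.MP_a4c1f4_lc.Dbl

namespace RsM

variable {S : Type} {rp : ℕ → S → S} {a : ℕ → S → ℝ} {h : ℕ}

theorem tj_le (J : ℕ) (x : S) : tj rp a h J x ≤ h := by
  classical
  unfold tj
  exact Nat.findGreatest_le h

theorem tj_spec (J : ℕ) (x : S) : ∀ k, k < tj rp a h J x → lv rp a k x ≤ J := by
  classical
  have h1 := Nat.findGreatest_spec (P := fun κ => ∀ k, k < κ → lv rp a k x ≤ J) (n := h)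
    (Nat.zero_le h) (fun k hk => absurd hk (Nat.not_lt_zero k))
  unfold tj
  convert h1

theorem le_tj (J : ℕ) (x : S) (κ : ℕ) (hκ : κ ≤ h) (hP : ∀ k, k < κ → lv rp a k x ≤ J) :
    κ ≤ tj rp a h J x := by
  classical
  have h1 := Nat.le_findGreatest (P := fun κ => ∀ k, k < κ → lv rp a k x ≤ J) hκ hP
  unfold tj
  convert h1

theorem tj_le_J (J : ℕ) (x : S) : tj rp a h J x ≤ J := by
  rcases Nat.eq_zero_or_pos (tj rp a h J x) with h0 | h0
  · omega
  · have h1 := tj_spec (rp := rp) (a := a) (h := h) J x (tj rp a h J x - 1) (by omega)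
    unfold lv at h1
    omega

theorem up (N : Nst rp h) (κ : ℕ) (x y : S) (hxy : rp κ x = rp κ y) (k : ℕ) (h1 : κ ≤ k)
    (h2 : k ≤ h) : rp k x = rp k y := by
  induction k, h1 using Nat.le_induction with
  | base => exact hxy
  | succ k hk ih => exact N k (by omega) x y (ih (by omega))

theorem lv_eq (k : ℕ) (x y : S) (hxy : rp k x = rp k y) : lv rp a k x = lv rp a k y := by
  unfold lv
  rw [hxy]

theorem tj_mono_aux (N : Nst rp h) (J κ : ℕ) (x y : S) (hxy : rp κ x = rp κ y)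
    (hy : ∀ k, k < κ → lv rp a k y ≤ J) : tj rp a h J x ≤ tj rp a h J y := by
  refine le_tj J y _ (tj_le J x) fun k hk => ?_
  rcases Nat.lt_or_ge k κ with h1 | h1
  · exact hy k h1
  · have h2 : k ≤ h := hk.le.trans (tj_le J x)
    rw [← lv_eq k x y (up N κ x y hxy k h1 h2)]
    exact tj_spec J x k hk

theorem tj_eq (N : Nst rp h) (J κ : ℕ) (x y : S) (hxy : rp κ x = rp κ y)
    (hx : ∀ k, k < κ → lv rp a k x ≤ J) (hy : ∀ k, k < κ → lv rp a k y ≤ J) :
    tj rp a h J x = tj rp a h J y :=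
  le_antisymm (tj_mono_aux N J κ x y hxy hy) (tj_mono_aux N J κ y x hxy.symm hx)

theorem choose_eq (p q : S → Prop) (hp : ∃ z, p z) (hq : ∃ z, q z) (hpq : p = q) :
    hp.choose = hq.choose := by
  subst hpq
  rfl

theorem rs_spec (J : ℕ) (x : S) : tj rp a h J (rs rp a h J x) = tj rp a h J x ∧
    rp (tj rp a h J x) (rs rp a h J x) = rp (tj rp a h J x) x := by
  have hh : ∃ y, tj rp a h J y = tj rp a h J x ∧ rp (tj rp a h J x) y = rp (tj rp a h J x) x :=
    ⟨x, rfl, rfl⟩
  have h1 : rs rp a h J x = hh.choose := by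
    unfold rs
    rw [dif_pos hh]
  rw [h1]
  exact hh.choose_spec

theorem rs_iff (J : ℕ) (x y : S) : rs rp a h J x = rs rp a h J y ↔
    (tj rp a h J x = tj rp a h J y ∧ rp (tj rp a h J x) x = rp (tj rp a h J x) y) := by
  constructor
  · intro hxy
    have h1 := rs_spec (rp := rp) (a := a) (h := h) J x
    have h2 := rs_spec (rp := rp) (a := a) (h := h) J y
    have h3 : tj rp a h J x = tj rp a h J y := by rw [← h1.1, ← h2.1, hxy]
    refine ⟨h3, ?_⟩
    rw [← h1.2, hxy, h3]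
    exact h2.2
  · rintro ⟨h1, h2⟩
    have hx : ∃ z, tj rp a h J z = tj rp a h J x ∧
        rp (tj rp a h J x) z = rp (tj rp a h J x) x := ⟨x, rfl, rfl⟩
    have hy : ∃ z, tj rp a h J z = tj rp a h J y ∧
        rp (tj rp a h J y) z = rp (tj rp a h J y) y := ⟨y, rfl, rfl⟩
    have e1 : rs rp a h J x = hx.choose := by
      unfold rs
      rw [dif_pos hx]
    have e2 : rs rp a h J y = hy.choose := by
      unfold rs
      rw [dif_pos hy]
    rw [e1, e2]
    refine choose_eq _ _ hx hy ?_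
    funext z
    rw [h2, h1]

theorem rs_of (N : Nst rp h) (J κ : ℕ) (hκ : κ ≤ h) (x y : S) (hxy : rp κ x = rp κ y)
    (hx : ∀ k, k < κ → lv rp a k x ≤ J) (hy : ∀ k, k < κ → lv rp a k y ≤ J) :
    rs rp a h J x = rs rp a h J y := by
  rw [rs_iff]
  exact ⟨tj_eq N J κ x y hxy hx hy,
    up N κ x y hxy _ (le_tj J x κ hκ hx) (tj_le J x)⟩

theorem geo (H n : ℕ) : ∑ J ∈ range H, (4 : ℝ) ^ (J + 1) * ind (J < n) ≤
    4 / 3 * (4 : ℝ) ^ (min H n) := by
  induction H with
  | zero =>
    rw [Finset.sum_range_zero]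
    positivity
  | succ H ih =>
    rw [Finset.sum_range_succ]
    rcases Nat.lt_or_ge H n with h1 | h1
    · rw [ind_true h1, mul_one, min_eq_left (by omega : H + 1 ≤ n)]
      rw [min_eq_left h1.le] at ih
      have h2 : (4 : ℝ) ^ (H + 1) = 4 * 4 ^ H := by rw [pow_succ]; ring
      rw [h2]
      linarith
    · rw [ind_false (Nat.not_lt.2 h1), mul_zero, add_zero, min_eq_right (by omega : n ≤ H + 1)]
      rw [min_eq_right h1] at ih
      exact ih

theorem geo' (H n : ℕ) : ∑ J ∈ range H, (4 : ℝ) ^ (J + 1) * ind (J < n) ≤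
    4 / 3 * (4 : ℝ) ^ n := by
  refine (geo H n).trans ?_
  refine mul_le_mul_of_nonneg_left ?_ (by norm_num)
  exact pow_le_pow_right₀ (by norm_num) (min_le_right _ _)

theorem ind_le (N : Nst rp h) (one : ∀ x y, rp h x = rp h y) (J : ℕ) (x y : S) :
    ind (rs rp a h J x ≠ rs rp a h J y) ≤ ∑ k ∈ range h, ind (rp k x ≠ rp k y) *
      (ind (J < lv rp a k x) + ind (J < lv rp a k y)) := by
  classical
  have hnn : ∀ k ∈ range h, 0 ≤ ind (rp k x ≠ rp k y) *
      (ind (J < lv rp a k x) + ind (J < lv rp a k y)) := fun k _ =>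
    mul_nonneg (ind_nonneg _) (add_nonneg (ind_nonneg _) (ind_nonneg _))
  by_cases hne : rs rp a h J x = rs rp a h J y
  · rw [ind_false (not_not.2 hne)]
    exact Finset.sum_nonneg hnn
  · rw [ind_true hne]
    have hex : ∃ k, k < h ∧ rp k x ≠ rp k y ∧ (J < lv rp a k x ∨ J < lv rp a k y) := by
      by_contra hcon
      push Not at hcon
      have hκ : ∃ κ, rp κ x = rp κ y := ⟨h, one x y⟩
      have h1 := Nat.find_spec hκ
      have h2 : Nat.find hκ ≤ h := Nat.find_min' hκ (one x y)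
      have h3 : ∀ k, k < Nat.find hκ → rp k x ≠ rp k y := fun k hk => Nat.find_min hκ hk
      exact hne (rs_of N J (Nat.find hκ) h2 x y h1
        (fun k hk => (hcon k (by omega) (h3 k hk)).1)
        (fun k hk => (hcon k (by omega) (h3 k hk)).2))
    obtain ⟨k, hk, h1, h2⟩ := hex
    refine le_trans ?_ (Finset.single_le_sum hnn (mem_range.2 hk))
    rw [ind_true h1, one_mul]
    rcases h2 with h2 | h2
    · rw [ind_true h2]
      linarith [ind_nonneg (J < lv rp a k y)]
    · rw [ind_true h2]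
      linarith [ind_nonneg (J < lv rp a k x)]

theorem lv_pow (E2 : ∀ u : ℝ, (4 : ℝ) ^ (eg u) ≤ 4 * max 1 u) (ha : ∀ k z, 0 ≤ a k z)
    (k : ℕ) (x : S) : (4 : ℝ) ^ (lv rp a k x) ≤ 4 ^ (k + 1) * (4 * (1 + a k (rp k x))) := by
  unfold lv
  rw [pow_add]
  refine mul_le_mul_of_nonneg_left ?_ (by positivity)
  refine (E2 _).trans (mul_le_mul_of_nonneg_left ?_ (by norm_num))
  exact max_le (by linarith [ha k (rp k x)]) (by linarith)

end RsM

theorem rsP (h1 : EgProp) : RsProp := by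
  classical
  obtain ⟨_, E2, E3⟩ := h1
  intro S _ D rp a h ρ Λ hD hA
  have N : Nst rp h := hA.hier.nest
  have hρ : 0 < ρ := hA.hier.pos
  have htop : ∀ x, tj rp a h (h + eg Λ) x = h := by
    intro x
    refine le_antisymm (RsM.tj_le _ x) (RsM.le_tj _ x h le_rfl fun k hk => ?_)
    unfold lv
    have h2 := E3 _ _ (hA.le k (rp k x))
    omega
  refine ⟨fun J x => ⟨RsM.tj_le J x, RsM.tj_le_J J x, RsM.tj_spec J x⟩,
    fun J x y => RsM.rs_iff J x y, ?_, fun x y => ?_⟩
  · refine ⟨?_, ?_, ?_, ?_, ?_, hρ⟩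
    · intro J _ x y hxy
      rw [RsM.rs_iff] at hxy
      refine RsM.rs_of N (J + 1) (tj rp a h J x) (RsM.tj_le J x) x y hxy.2 (fun k hk => ?_)
        (fun k hk => ?_)
      · exact (RsM.tj_spec J x k hk).trans (Nat.le_succ J)
      · rw [hxy.1] at hk
        exact (RsM.tj_spec J y k hk).trans (Nat.le_succ J)
    · intro x y hxy
      rw [RsM.rs_iff] at hxy
      have h2 : tj rp a h 0 x = 0 := Nat.le_zero.1 (RsM.tj_le_J 0 x)
      rw [h2] at hxy
      exact hA.hier.zero x y hxy.2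
    · intro J _ x y hxy
      rw [RsM.rs_iff] at hxy
      refine (hA.hier.diam _ (RsM.tj_le J x) x y hxy.2).trans ?_
      refine mul_le_mul_of_nonneg_right ?_ hρ.le
      exact pow_le_pow_right₀ (by norm_num) (RsM.tj_le_J J x)
    · intro x y
      rw [RsM.rs_iff, htop x, htop y]
      exact ⟨rfl, hA.hier.one x y⟩
    · intro J _ x
      exact Finset.card_le_univ _
  · have hi : ∀ J, ind (rs rp a h J x ≠ rs rp a h J y) ≤
        ∑ k ∈ range h, ind (rp k x ≠ rp k y) *
          (ind (J < lv rp a k x) + ind (J < lv rp a k y)) :=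
      fun J => RsM.ind_le N hA.hier.one J x y
    calc ∑ J ∈ range (h + eg Λ), 4 ^ (J + 1) * ρ * ind (rs rp a h J x ≠ rs rp a h J y)
        ≤ ∑ J ∈ range (h + eg Λ), 4 ^ (J + 1) * ρ * ∑ k ∈ range h, ind (rp k x ≠ rp k y) *
          (ind (J < lv rp a k x) + ind (J < lv rp a k y)) := by
          refine Finset.sum_le_sum fun J _ => ?_
          exact mul_le_mul_of_nonneg_left (hi J) (by positivity)
      _ = ∑ k ∈ range h, ρ * ind (rp k x ≠ rp k y) *
          (∑ J ∈ range (h + eg Λ), (4 : ℝ) ^ (J + 1) * ind (J < lv rp a k x) +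
            ∑ J ∈ range (h + eg Λ), (4 : ℝ) ^ (J + 1) * ind (J < lv rp a k y)) := by
          simp only [Finset.mul_sum]
          rw [Finset.sum_comm]
          refine Finset.sum_congr rfl fun k _ => ?_
          rw [← Finset.sum_add_distrib, Finset.mul_sum]
          refine Finset.sum_congr rfl fun J _ => ?_
          ring
      _ ≤ ∑ k ∈ range h, ρ * ind (rp k x ≠ rp k y) *
          (4 / 3 * (4 ^ (k + 1) * (4 * (1 + a k (rp k x)))) +
            4 / 3 * (4 ^ (k + 1) * (4 * (1 + a k (rp k y))))) := by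
          refine Finset.sum_le_sum fun k _ => ?_
          refine mul_le_mul_of_nonneg_left ?_ (mul_nonneg hρ.le (ind_nonneg _))
          refine add_le_add ?_ ?_
          · refine (RsM.geo' _ _).trans (mul_le_mul_of_nonneg_left ?_ (by norm_num))
            exact RsM.lv_pow E2 hA.nonneg k x
          · refine (RsM.geo' _ _).trans (mul_le_mul_of_nonneg_left ?_ (by norm_num))
            exact RsM.lv_pow E2 hA.nonneg k y
      _ = 16 / 3 * ∑ k ∈ range h, 4 ^ (k + 1) * ρ *
          ((2 + a k (rp k x) + a k (rp k y)) * ind (rp k x ≠ rp k y)) := by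
          rw [Finset.mul_sum]
          refine Finset.sum_congr rfl fun k _ => ?_
          ring

end Pool.Agent.MP_a4c1f4_lc.Pad
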