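import Pool.Agent.Lib.MP_a4c1f4_lc.Dbl.Spec

set_option linter.all false

/-!
# Theorem P: online transportation in metrics with padded decompositions (trees, planar graphs)

Goal: if the set of the `m` sites has `β`-padded decompositions at all scales (`Pdd D β`; tree
metrics: `β = 6`, planar and minor-free metrics: `β = O(1)`), then there is a randomized online
algorithm for arbitrary capacities with ratio
`O(β (1 + ln β) (1 + ln m) (1 + ln (1 + ln m))^2)`.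

PLAN. `m` is the number of the sites, `L = ln m`.
(1) A random hierarchy `rp` of clusters (clusters of level `k` have diameter at most `4^k ρ`) with
*arms*: every cluster `z` of level `k` has an arm `a k z ≥ 0` such that the numbers `exp (- a)` of the
subclusters of a cluster have sum at most one (Kraft), see `Arms`. The arms of `x` are about the
logarithmic growth of the balls around `x`, so their sum over all levels is `O(L)`, and `x`, `y` are
in different clusters of level `k` with probability `O(β D x y / (4^k ρ))`.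
(2) The edge above a cluster of level `k` gets the length `4^(k+1) max 1 a`. The path maximum of these
lengths is an ultrametric; its clusters of level `J` are given by `rs J` (`lv`, `tj`, `rs`,
`RsProp`). The expected distortion is `∑_k 4^k (1 + a_k) P(separated at k) / D = O(β L)`.
(3) The algorithm is the one of `../Dbl/Spec.lean` (natives first) for the hierarchy `rs`, but the
noise of the layer `j` uses the clusters of the hierarchy `rp` that lie in the cluster of level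
`j + 1` of `rs` (`qj`), with amplitudes `amj`. The two sums which control the cost are `O(ln L)`
(`AmpProp`, `FamQProp`), so the cost of one full event of layer `j` is `O(4^j (ln L)^2)`.
Every file proves one of the statements below; the statements it uses are hypotheses.
All the theorems of `../Dbl/*` which are stated for an arbitrary hierarchy and arbitrary noise `Y` are
used again (`TopProp`, `DelProp`, `OneTProp`, `ExSProp`, `UsCProp`, `StpProp`, `PotProp`, `ChnProp`,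
`FeSProp`, `AlgDProp`, `ExgProp`); see the docstrings in `../Dbl/Spec.lean`.
-/

namespace Pool.Agent.MP_a4c1f4_lc.Pad

open Finset Pool.Agent.MP_a4c1f4_lc Pool.Agent.MP_a4c1f4_lc.Dbl

/-! ## Noise families for a hierarchy -/

/-- The value of a noise variable (layer `j`, index `c`). -/
noncomputable def nvq {Q : Type} {H G : ℕ} (g : Fin H × Q → Fin (G + 1)) (j : ℕ) (c : Q) : ℝ :=
  if hj : j < H then ((g (⟨j, hj⟩, c) : ℕ) : ℝ) else 0

/-- The noise of the layer `j` at the site `x`: the variable `c` is seen by the sites `x` with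
`q j c x` and has the amplitude `am j c`. -/
noncomputable def Yq {S Q : Type} [Fintype Q] {H G : ℕ} (q : ℕ → Q → S → Prop)
    (am : ℕ → Q → ℝ) (η : ℝ) (g : Fin H × Q → Fin (G + 1)) (j : ℕ) (x : S) : ℝ :=
  ∑ c, am j c * (η * nvq g j c) * ind (q j c x)

/-- The noise at a copy of a site. -/
noncomputable def Yt {S T Q : Type} [Fintype Q] {H G : ℕ} (σ : T → S) (q : ℕ → Q → S → Prop)
    (am : ℕ → Q → ℝ) (η : ℝ) (g : Fin H × Q → Fin (G + 1)) (j : ℕ) (t : T) : ℝ :=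
  Yq q am η g j (σ t)

/-- A noise family for the hierarchy `rs` with `H` layers. Moving from `x` to `y` in a
cluster of level `j + 1` costs at most the sum of `ct j c * ρ` over the sets `q j c` that contain
`x` and not `y`; `R1` bounds the sum of the costs divided by the amplitudes, `R2` the
expected largest noise. -/
structure Fam {S Q : Type} [Fintype S] [Fintype Q] [DecidableEq Q] (D : S → S → ℝ)
    (rs : ℕ → S → S) (H : ℕ) (ρ : ℝ) (q : ℕ → Q → S → Prop) (am ct : ℕ → Q → ℝ)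
    (R1 R2 : ℝ) : Prop where
  am_pos : ∀ j c, 0 < am j c
  ct0 : ∀ j c, 0 ≤ ct j c
  ct1 : ∀ j c, j < H → ct j c ≤ 4 ^ (j + 1)
  R1n : 0 ≤ R1
  R2n : 0 ≤ R2
  mv : ∀ j, j < H → ∀ x y, rs (j + 1) x = rs (j + 1) y →
    D x y ≤ ∑ c, ct j c * ρ * ind (q j c x ∧ ¬ q j c y)
  r1 : ∀ j, j < H → ∀ x, ∑ c, ct j c / am j c * ind (q j c x) ≤ R1
  r2 : ∀ (G : ℕ) (η : ℝ), 0 < η → η ≤ 1 / 2 → ∀ j, j < H → ∀ (x : S)
    (F : (Fin H × Q → Fin (G + 1)) → ℝ),
    (∀ g, ∃ y, rs (j + 1) y = rs (j + 1) x ∧ F g ≤ Yq q am η g j y) →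
    Exg G η F ≤ 4 ^ (j + 1) * R2

/-- The error of the discrete exponential variables. -/
noncomputable def erq (M G : ℕ) (η α : ℝ) : ℝ :=
  η * (M + 1) + (1 - η) ^ G * (M * (α * G + 1) + 1)

/-- File ExQ.lean, from `TopProp`, `DelProp`, `OneTProp`, `ExSProp`, `UsCProp`, `StpProp`,
`FeSProp`, `ExgProp`. This is `../Dbl/ExP.lean` with almost the same proof (copy it): the
cluster `z` of level `k` is replaced by the set `q j c`, the amplitude `2^(j+k)` by `am j c`, and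
there is no sum over the clusters. For the variable `i = (j, c)`: updating `g i` does not change
`Yt j'` for `j' < j`, and `Yt (update g i b) j = Yg B Qs (am j c * η) b` with
`Qs = {t | q j c (σ t)}`, `B = Yt (update g i 0) j`. `ExSProp` is used with
`amp = am j c`, `X = nn * (α * am j c * (η * G))`: indeed
`0 ≤ Yt ≤ ∑ c', am j c' * (η G) ≤ α * am j c * (η G)`. -/
def ExQProp : Prop :=
  ∀ (S T Q : Type) [Fintype S] [DecidableEq S] [Fintype T] [DecidableEq T] [Fintype Q]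
    [DecidableEq Q] (σ : T → S) (rs : ℕ → S → S) (q : ℕ → Q → S → Prop) (am : ℕ → Q → ℝ)
    (H G : ℕ) (η α : ℝ) (j : ℕ) (c : Q) (x : T) (l : List T),
    Nst rs H → 0 < η → η ≤ 1 / 2 → j < H → (∀ c', 0 < am j c') →
    ∑ c', am j c' ≤ α * am j c →
    Exg G η (fun g : Fin H × Q → Fin (G + 1) =>
        ind (¬ Full σ rs j x l ∧ ¬ Full σ rs (j + 1) x l ∧
          q j c (σ (nw σ rs (Yt σ q am η g) j x l)) ∧
          ¬ q j c (σ (nw σ rs (Yt σ q am η g) (j + 1) x l)))) ≤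
      1 / am j c * Exg G η (fun g : Fin H × Q → Fin (G + 1) =>
          gn σ rs (Yt σ q am η g) j x l *
            ind (q j c (σ (nw σ rs (Yt σ q am η g) j x l)))) +
        erq (Fintype.card T) G η α * ind (1 ≤ fe σ rs j l)

/-- File LvQ.lean, from `ExgProp`, `ExQProp`, `PotProp`, `FeSProp`, `StpProp`. Compare
`../Dbl/LvC.lean`. If the indicator in `mv` is `1` then `nw j` and `nw (j+1)` are in the cluster
of level `j + 1` of `x` (`StpProp` and `Nst`), so by `Fam.mv`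
`Dbl.mv ≤ ∑ c, ct j c * ρ * ind (not Full j ∧ not Full (j+1) ∧ q (nw j) ∧ ¬ q (nw (j+1)))`. By
`ExQProp`, summed over the steps (induction on `l`; `fe` is monotone,
`ind (1 ≤ fe l') ≤ ind (1 ≤ fe l) ≤ fe l` by `FeSProp` (1)):
`Exg (stp mv l) ≤ ρ Exg (stp (gn * ∑ c, ct j c / am j c * ind (q j c (nw j))) l)
   + ρ ∑ c, ct j c * erq * l.length * fe l ≤ ρ R1 Exg (stp gn l) + ρ 4^(j+1) fe l`
(`gn ≥ 0` from `DelProp`, here: `gn = 0` or the third claim of `DelProp` with `StpProp`; take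
`DelProp` as a further hypothesis). By `PotProp` (`Yt ≥ 0`) and `Fam.r2` at every step (if `Full j` and
not `Full (j+1)` the new element `nw (j+1)` is in the cluster of level `j+1` of `x` by `StpProp`):
`Exg (stp gn l) ≤ 4^(j+1) R2 fe l`. -/
def LvQProp : Prop :=
  ∀ (S T Q : Type) [Fintype S] [DecidableEq S] [Fintype T] [DecidableEq T] [Fintype Q]
    [DecidableEq Q] (D : S → S → ℝ) (σ : T → S) (rs : ℕ → S → S) (H : ℕ) (ρ : ℝ) (dg : ℕ)
    (q : ℕ → Q → S → Prop) (am ct : ℕ → Q → ℝ) (R1 R2 : ℝ) (G : ℕ) (η α : ℝ) (j : ℕ)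
    (l : List T), PM D → Hier D rs H ρ dg → Fam D rs H ρ q am ct R1 R2 → 0 < η → η ≤ 1 / 2 →
    j < H → (∀ c, ∑ c', am j c' ≤ α * am j c) → l.length ≤ Fintype.card T →
    erq (Fintype.card T) G η α * Fintype.card T * Fintype.card Q ≤ 1 →
    Exg G η (fun g : Fin H × Q → Fin (G + 1) => stp (mv D σ rs (Yt σ q am η g) j) l) ≤
      4 ^ (j + 1) * ρ * (R1 * R2 + 1) * fe σ rs j l

/-- A random hierarchy with noise families and distortion `κ`. -/
def RF {S : Type} [Fintype S] (D : S → S → ℝ) (R κ : ℝ) : Prop :=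
  ∃ (Ω Q : Type) (_ : Fintype Ω) (_ : Fintype Q) (_ : DecidableEq Q) (w : Ω → ℝ)
    (rs : Ω → ℕ → S → S) (H : ℕ) (ρ : ℝ) (dg : ℕ) (q : Ω → ℕ → Q → S → Prop)
    (am ct : Ω → ℕ → Q → ℝ) (R1 R2 : ℝ),
    (∀ ω, 0 ≤ w ω) ∧ ∑ ω, w ω = 1 ∧ (∀ ω, Hier D (rs ω) H ρ dg) ∧
    (∀ ω, Fam D (rs ω) H ρ (q ω) (am ω) (ct ω) R1 R2) ∧ R1 * R2 + 2 ≤ R ∧
    ∀ x y, ∑ ω, w ω * ∑ j ∈ range H, 4 ^ (j + 1) * ρ * ind (rs ω j x ≠ rs ω j y) ≤ κ * D x y

/-- File CoreQ.lean, from `ExgProp`, `ChnProp`, `LvQProp`, `FeSProp`, `AlgDProp`. Compare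
`../Dbl/Core.lean` and `../Dbl/Par.lean` (copy the proofs; the lemmas of the namespace `CrAux` in
`../Dbl/Core.lean` may be imported). First choose `α ≥ 0` with `∑ c', am ω j c' ≤ α am ω j c` for all
`ω`, `j < H`, `c` (for example the sum over `ω`, `j < H`, `c` of the quotients; if `Q` is empty every
`α` works), then `η = 1 / (4 (M+1)^2 (N+1))` and `G` with `erq M G η α * M * N ≤ 1`, `M = card T`,
`N = card Q` (as in `../Dbl/Par.lean`, `ParM.exists_small`). The algorithm: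
`Ω × (Fin H × Q → Fin (G+1))`, weight `w ω * ∏ gw`, `A (ω, g) x l = nw σ (rs ω) (Yt ..) H x l`. -/
def CoreQProp : Prop :=
  ∀ (S T : Type) [Fintype S] [DecidableEq S] [Fintype T] [DecidableEq T] (D : S → S → ℝ)
    (σ : T → S) (R κ : ℝ), PM D → RF D R κ →
    ∃ (Ω : Type) (_ : Fintype Ω) (w : Ω → ℝ) (A : Ω → T → List T → T),
      (∀ ω, 0 ≤ w ω) ∧ ∑ ω, w ω = 1 ∧
      (∀ ω l, l.length ≤ Fintype.card T → (chs (A ω) l).Nodup) ∧
      ∀ l τ : List T, Adm l τ →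
        ∑ ω, w ω * stp (fun x l => D (σ x) (σ (A ω x l))) l ≤
          R * κ * acost (fun s t => D (σ s) (σ t)) l τ

/-! ## Hierarchies with arms -/

open Classical in
/-- A hierarchy of clusters with arms. `rp k x` is a representative of the cluster of level `k`
of `x`; `a k z` is the arm of the cluster `z` of level `k`. -/
structure Arms {S : Type} [Fintype S] (D : S → S → ℝ) (rp : ℕ → S → S) (a : ℕ → S → ℝ)
    (h : ℕ) (ρ Λ : ℝ) : Prop where
  hier : Hier D rp h ρ (Fintype.card S)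
  idem : ∀ k x, k ≤ h → rp k (rp k x) = rp k x
  nonneg : ∀ k z, 0 ≤ a k z
  le : ∀ k z, a k z ≤ Λ
  kraft : ∀ k, k < h → ∀ x,
    ∑ z ∈ (Finset.univ.filter (fun y => rp (k + 1) y = rp (k + 1) x)).image (rp k),
      Real.exp (-(a k z)) ≤ 1

/-- The smallest `e` with `max 1 u ≤ 4^e`. -/
noncomputable def eg (u : ℝ) : ℕ := ⌈Real.logb 4 (max 1 u)⌉₊

/-- The level of the edge above the cluster of level `k` of `x`. -/
noncomputable def lv {S : Type} (rp : ℕ → S → S) (a : ℕ → S → ℝ) (k : ℕ) (x : S) : ℕ :=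
  k + 1 + eg (a k (rp k x))

open Classical in
/-- The highest level that can be reached from `x` over edges of level at most `J`. -/
noncomputable def tj {S : Type} (rp : ℕ → S → S) (a : ℕ → S → ℝ) (h J : ℕ) (x : S) : ℕ :=
  Nat.findGreatest (fun κ => ∀ k, k < κ → lv rp a k x ≤ J) h

open Classical in
/-- Representative of the class of `x` for the path maximum of the levels of the edges, at level
`J`: `x` and `y` are in the same class iff `tj J x = tj J y` and they are in the same cluster of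
level `tj J x`. -/
noncomputable def rs {S : Type} (rp : ℕ → S → S) (a : ℕ → S → ℝ) (h J : ℕ) (x : S) : S :=
  if hh : ∃ y, tj rp a h J y = tj rp a h J x ∧ rp (tj rp a h J x) y = rp (tj rp a h J x) x
  then hh.choose else x

/-- File Eg.lean. `logb 4 (max 1 u) ≥ 0`; `x ≤ ⌈x⌉₊ < x + 1` for `x ≥ 0`. -/
def EgProp : Prop :=
  (∀ u : ℝ, max 1 u ≤ 4 ^ (eg u)) ∧ (∀ u : ℝ, (4 : ℝ) ^ (eg u) ≤ 4 * max 1 u) ∧
  (∀ u v : ℝ, u ≤ v → eg u ≤ eg v)

/-- File Rs.lean, from `EgProp`. Write `κ = tj J x`, `P x κ' = ∀ k < κ', lv k x ≤ J`.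
(1) `Nat.findGreatest_le`, `Nat.findGreatest_spec` (`P x 0` holds); `tj ≤ J`: if `κ ≥ 1` then
`J ≥ lv (κ-1) x ≥ κ`.
(2) the predicate in the definition of `rs J x` is satisfied by `y = x`; if `x`, `x'` are related
then the predicates for `x` and `x'` are equal (`funext`, `propext`), so are the chosen elements;
conversely compare both with the chosen element (`Exists.choose_spec`).
If `rp κ' x = rp κ' y` with `κ' ≤ h` then `rp k x = rp k y`, `lv k x = lv k y` for all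
`κ' ≤ k ≤ h` (`Nst`), call this (*).
(3) `nest`: let `κ = tj J x = tj J y`, `rp κ x = rp κ y`. By (*) and `P x κ`, `P y κ` the predicates
`∀ k < κ', lv k · ≤ J + 1` agree for `x`, `y` (for `κ' ≤ h`), so `tj (J+1) x = tj (J+1) y ≥ κ`, and (*).
`zero`: `tj 0 x = 0`. `diam`: `tj J x ≤ J` and `tj J x ≤ h`. `one`: `lv k x ≤ h + eg Λ` for
`k < h`, so `tj (h + eg Λ) x = h`. `deg`: the image has at most `card S` elements.
(4) If `rp 0 x = rp 0 y` everything is `0` (`rs J x = rs J y` for all `J` by (*)). Otherwise let `κ ≤ h` be the least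
number with `rp κ x = rp κ y` (`Hier.one`). If `rs J x ≠ rs J y` then `J < lv k x` or `J < lv k y` for
some `k < κ`: otherwise `P x κ`, `P y κ`, so `tj J x, tj J y ≥ κ` and by (*) they are equal and
`rs J x = rs J y`. So the left side is at most
`∑_{k < κ} (∑_{J < lv k x} 4^(J+1) ρ + ∑_{J < lv k y} 4^(J+1) ρ)`,
`∑_{J < n} 4^(J+1) ≤ 4/3 * 4^n`, and `4^(lv k x) = 4^(k+1) 4^(eg ..) ≤ 4^(k+1) * 4 * (1 + a k (rp k x))`.
For `k < κ`: `rp k x ≠ rp k y`. -/
def RsProp : Prop :=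
  ∀ (S : Type) [Fintype S] (D : S → S → ℝ) (rp : ℕ → S → S) (a : ℕ → S → ℝ) (h : ℕ) (ρ Λ : ℝ),
    PM D → Arms D rp a h ρ Λ →
    (∀ J x, tj rp a h J x ≤ h ∧ tj rp a h J x ≤ J ∧
      ∀ k, k < tj rp a h J x → lv rp a k x ≤ J) ∧
    (∀ J x y, rs rp a h J x = rs rp a h J y ↔
      (tj rp a h J x = tj rp a h J y ∧ rp (tj rp a h J x) x = rp (tj rp a h J x) y)) ∧
    Hier D (rs rp a h) (h + eg Λ) ρ (Fintype.card S) ∧
    (∀ x y, ∑ J ∈ range (h + eg Λ), 4 ^ (J + 1) * ρ * ind (rs rp a h J x ≠ rs rp a h J y) ≤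
      16 / 3 * ∑ k ∈ range h, 4 ^ (k + 1) * ρ *
        ((2 + a k (rp k x) + a k (rp k y)) * ind (rp k x ≠ rp k y)))

/-- Sum of the arms on the path of `x` from level `k` to level `κ`. -/
noncomputable def Gs {S : Type} (rp : ℕ → S → S) (a : ℕ → S → ℝ) (k κ : ℕ) (x : S) : ℝ :=
  ∑ i ∈ Finset.Ico k κ, a i (rp i x)

open Classical in
/-- File Krf.lean. Downward induction on `k` (induction on `κ - k`). `k = κ`: the image is the
single element `rp κ x` and `Gs = 0`. Step: the elements `z` of the image for `k` satisfy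
`rp k z = z` (`idem`), `z' = rp (k+1) z` is an element of the image for `k + 1`, and
`Gs k κ z = a k z + Gs (k+1) κ z`, `Gs (k+1) κ z = Gs (k+1) κ z'` (`rp (k+1) z' = rp (k+1) z` by
`idem`, so `rp i z' = rp i z` for `k + 1 ≤ i ≤ h` by `Nst`). For fixed `z'` the sum of
`exp (- a k z)` over the `z` with `rp (k+1) z = z'` is at most `1` by `kraft` (a subset of the image
there for `x := z'`). `Finset.sum_fiberwise_of_maps_to`. -/
def KrfProp : Prop :=
  ∀ (S : Type) [Fintype S] (D : S → S → ℝ) (rp : ℕ → S → S) (a : ℕ → S → ℝ) (h : ℕ) (ρ Λ : ℝ),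
    Arms D rp a h ρ Λ → ∀ k κ, k ≤ κ → κ ≤ h → ∀ x,
    ∑ z ∈ (Finset.univ.filter (fun y => rp κ y = rp κ x)).image (rp k),
      Real.exp (-(Gs rp a k κ z)) ≤ 1

/-! ## The noise family of a hierarchy with arms -/

/-- The divisor of the amplitude of the cluster of level `k` of `x` in the layer `j`. -/
noncomputable def Bj {S : Type} (rp : ℕ → S → S) (a : ℕ → S → ℝ) (h j k : ℕ) (x : S) : ℝ :=
  1 + ∑ i ∈ Finset.Ico k h, ind (lv rp a i x ≤ j + 1) * (a i (rp i x) * (2 ^ i / 2 ^ j))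

/-- The amplitudes. -/
noncomputable def amj {S : Type} (rp : ℕ → S → S) (a : ℕ → S → ℝ) (h j : ℕ)
    (c : Fin h × S) : ℝ := 2 ^ (j + (c.1 : ℕ)) / Bj rp a h j (c.1 : ℕ) c.2

/-- The costs. -/
noncomputable def ctj {S : Type} (h j : ℕ) (c : Fin h × S) : ℝ :=
  if (c.1 : ℕ) ≤ j then 4 ^ ((c.1 : ℕ) + 1) else 0

/-- The sets: the part of the cluster `c.2` of level `c.1` whose class of level `j + 1` lies higher
than level `c.1`. -/
def qj {S : Type} (rp : ℕ → S → S) (a : ℕ → S → ℝ) (h j : ℕ) (c : Fin h × S) (x : S) : Prop :=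
  rp (c.1 : ℕ) x = c.2 ∧ (c.1 : ℕ) < tj rp a h (j + 1) x

/-- Bound for the two sums. -/
noncomputable def m0 (Λ : ℝ) : ℝ := 3 + Real.logb 2 (max 1 Λ)

/-- File SumM.lean. Replace `Λ` by `M = max 1 Λ ≥ 1` (the terms increase). Let `p` be the number with
`2^p ≤ 2 M`, `M < 2^p` (for example `p = ⌊logb 2 M⌋₊ + 1`). The terms with `i < p` are at most `1`, their
number is `p ≤ logb 2 M + 1`; the terms with `i ≥ p` are at most `M / 2^i ≤ 2^(p-i)`, their sum is at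
most `2`. -/
def SumMProp : Prop :=
  ∀ (n : ℕ) (Λ : ℝ), 0 ≤ Λ → ∑ i ∈ range n, min 1 (Λ / 2 ^ i) ≤ m0 Λ

/-- File Amp.lean, from `EgProp`, `RsProp`, `SumMProp`. Let `κ = tj (j+1) x`, so `κ ≤ j + 1`,
`κ ≤ h`, `lv i x ≤ j + 1` for `i < κ` (`RsProp` (1)). Write `A i = a i (rp i x)`,
`s = 2^k / 2^j`. If `lv i x ≤ j + 1` then `i ≤ j` and `4^(i+1) 4^(eg (A i)) ≤ 4^(j+1)`, so
`A i ≤ 4^j / 4^i` (`EgProp`), and `A i (2^i/2^j)^2 ≤ min 1 (Λ / 2^(j-i))`
(`A i ≤ Λ` and `2^i/2^j ≤ 1`).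
(1) `4^(k+1) / (2^(j+k) / B) = 4 (2^k/2^j) B`. `∑_{k ≤ j} 2^k/2^j ≤ 2`. The sum over `k < κ` of
`4 (2^k/2^j) ∑_{i ≥ k, lv i ≤ j+1} A i 2^i/2^j` is at most, exchanging the sums,
`4 ∑_i A i (2^i/2^j) ∑_{k ≤ i} 2^k/2^j ≤ 8 ∑_{i ≤ j, lv i ≤ j+1} A i (2^i/2^j)^2 ≤ 8 m0 Λ`
(`SumMProp` after reflecting `i ↦ j - i`).
(2) for `k ≤ i < κ`: `Bj k x ≥ 1 + A i 2^i/2^j`, so
`∑_k 2^(j+k)/B_k ∑_{k ≤ i < κ} A i ≤ ∑_{i<κ} A i / (1 + A i 2^i/2^j) ∑_{k ≤ i} 2^(j+k)
 ≤ ∑_{i<κ} 2 * 2^(j+i) A i / (1 + A i 2^i/2^j) = 2 * 4^j ∑ u i / (1 + u i)`, `u i = A i 2^i/2^j`, and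
`u/(1+u) ≤ min 1 u ≤ min 1 (Λ / 2^(j-i))`.
(3) `ind ≥ 0`, `a ≥ 0`. -/
def AmpProp : Prop :=
  ∀ (S : Type) [Fintype S] (D : S → S → ℝ) (rp : ℕ → S → S) (a : ℕ → S → ℝ) (h : ℕ) (ρ Λ : ℝ),
    PM D → Arms D rp a h ρ Λ → ∀ (j : ℕ) (x : S),
    (∑ k ∈ range (tj rp a h (j + 1) x), 4 ^ (k + 1) / (2 ^ (j + k) / Bj rp a h j k x) ≤
      8 * (1 + m0 Λ)) ∧
    (∑ k ∈ range (tj rp a h (j + 1) x),
      2 ^ (j + k) / Bj rp a h j k x * Gs rp a k (tj rp a h (j + 1) x) x ≤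
      2 * 4 ^ j * m0 Λ) ∧
    (∀ k, 1 ≤ Bj rp a h j k x)

/-- File FamQ.lean, from `ExgProp`, `EgProp`, `RsProp`, `KrfProp`, `AmpProp` (and the lemma
`MaxGM.moment` in `../Dbl/MaxG.lean`). Let `κ = tj (j+1) x`. For `z = rp k x`, `i ≥ k`, `i ≤ h`:
`rp i z = rp i x` (`idem`, `Nst`), so `lv i z = lv i x`, `Bj j k z = Bj j k x`. A sum
`∑ c, f c * ind (qj .. c x)` equals `∑ k ∈ range κ, f (k, rp k x)` (`κ ≤ h`).
`am_pos`: `Bj ≥ 1`. `ct1`: clear.
`mv`: let `rs (j+1) x = rs (j+1) y`, i.e. `tj (j+1) y = κ`, `rp κ x = rp κ y`. If `rp 0 x = rp 0 y` then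
`D x y = 0`. Otherwise let `k0 < κ` be the largest with `rp k0 x ≠ rp k0 y`; then
`rp (k0+1) x = rp (k0+1) y`, `D x y ≤ 4^(k0+1) ρ`, which is the term `c = (k0, rp k0 x)` of the sum
(`k0 < κ ≤ j + 1`).
`r1`: `AmpProp` (1).
`r2`: for `y` in the class of `x` (`tj (j+1) y = κ`, `rp κ y = rp κ x`):
`Yq g j y = ∑ k ∈ range κ, 2^(j+k)/Bj j k y * (η g (j, (k, rp k y)))`. By `t ≤ exp t` with
`t = η b/2 - G`: `η b ≤ 2 G + 2 exp (-G) exp (η b/2)`. With `G = Gs k κ y = Gs k κ (rp k y)` and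
`W k g = ∑ z ∈ (univ.filter (rp κ · = rp κ x)).image (rp k), exp (- Gs k κ z) exp (η g (j,(k,z))/2)`:
`Yq g j y ≤ ∑ k, 2^(j+k)/Bj * 2 Gs k κ y + ∑ k ∈ range κ, 2^(j+k) * 2 * W k g`; the first sum is
at most `4 * 4^j * m0 Λ` by `AmpProp` (2), and `Exg (W k) ≤ 4` by `KrfProp` and the moment
`Exg (exp (η g i / 2)) ≤ 4` (`ExgProp` (resampling of the variable `i`) and `MaxGM.moment`), so that the expectation
of the second sum is at most `8 ∑_{k ≤ j} 2^(j+k) ≤ 16 * 4^j`. Total `4^(j+1) (m0 Λ + 4)`. -/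
def FamQProp : Prop :=
  ∀ (S : Type) [Fintype S] [DecidableEq S] (D : S → S → ℝ) (rp : ℕ → S → S) (a : ℕ → S → ℝ)
    (h : ℕ) (ρ Λ : ℝ), PM D → 0 ≤ Λ → Arms D rp a h ρ Λ →
    Fam D (rs rp a h) (h + eg Λ) ρ (qj rp a h) (amj rp a h) (ctj h) (8 * (1 + m0 Λ)) (m0 Λ + 4)

/-! ## Padded decompositions: one level -/

/-- `β`-padded decompositions at all scales. -/
def Pdd {S : Type} [Fintype S] (D : S → S → ℝ) (β : ℝ) : Prop :=
  ∀ Δ : ℝ, 0 < Δ → ∃ (Ω : Type) (_ : Fintype Ω) (w : Ω → ℝ) (q : Ω → S → S),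
    (∀ ω, 0 ≤ w ω) ∧ ∑ ω, w ω = 1 ∧ (∀ ω x y, q ω x = q ω y → D x y ≤ Δ) ∧
    ∀ x r, 0 ≤ r → ∑ ω, w ω * ind (∃ y, D x y ≤ r ∧ q ω x ≠ q ω y) ≤ β * r / Δ

open Classical in
/-- Number of the sites at distance at most `Δ` from the set `v`. -/
noncomputable def nbh {S : Type} [Fintype S] (D : S → S → ℝ) (v : Finset S) (Δ : ℝ) : ℕ :=
  (Finset.univ.filter (fun y => ∃ x ∈ v, D x y ≤ Δ)).card

/-- File Rnd.lean. One round, `r0 = Δ / (8 β)`. Let `q0`, `w0` be the decomposition of `Pdd` for `Δ`,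
`Gp ≥ 1` an integer with `1 / Gp ≤ D x y / r0` for all `x`, `y` with `D x y > 0` (finitely many
pairs). `Ω = Ω0 × Fin Gp`, weights `w0 / Gp`, radius `r i = r0 (1 + (i+1)/Gp) ∈ (r0, 2 r0]`,
`q (ω, i) = q0 ω`, `dp (ω, i) x = ∀ y, D x y ≤ r i → q0 ω x = q0 ω y`.
(4) `D x y ≤ r0 ≤ r i`. (5) if not `dp x` then some `y` with `D x y ≤ 2 r0` is in another cell:
probability `≤ β (2 r0) / Δ = 1/4`.
(6) Fix `ω`. If `q0 ω x ≠ q0 ω y` (and `D x y ≤ r0`) then neither is deep. Let `q0 ω x = q0 ω y`,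
`X = ` set of the points in other cells. For each `i`: if `dp x` and not `dp y` then some `z ∈ X` has
`D y z ≤ r i` and all `z ∈ X` have `D x z > r i`. Let `t x = min_{z ∈ X} D x z`, `t y` likewise (if `X`
is empty both are deep always). Then `t x > r i ≥ t y`, and `|t x - t y| ≤ D x y`. So the event
that exactly one of them is deep is `min (t x) (t y) ≤ r i < max (t x) (t y)`, and the number of such `i` is at
most `D x y / (r0 / Gp) + 1` (zero if `D x y = 0`), so its fraction is at most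
`D x y / r0 + 1/Gp ≤ 2 D x y / r0`. (It is convenient to prove: for reals `u ≤ v` the
number of `i : Fin Gp` with `u ≤ r i < v` is at most `(v - u) Gp / r0 + 1`; these `i` are contained in
an interval of integers.) -/
def RndProp : Prop :=
  ∀ (S : Type) [Fintype S] (D : S → S → ℝ) (β Δ : ℝ), PM D → 1 ≤ β → 0 < Δ → Pdd D β →
    ∃ (Ω : Type) (_ : Fintype Ω) (w : Ω → ℝ) (q : Ω → S → S) (dp : Ω → S → Prop),
    (∀ ω, 0 ≤ w ω) ∧ ∑ ω, w ω = 1 ∧ (∀ ω x y, q ω x = q ω y → D x y ≤ Δ) ∧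
    (∀ ω x y, dp ω x → D x y ≤ Δ / (8 * β) → q ω x = q ω y) ∧
    (∀ x, ∑ ω, w ω * ind (¬ dp ω x) ≤ 1 / 4) ∧
    (∀ x y, D x y ≤ Δ / (8 * β) →
      ∑ ω, w ω * ind ((dp ω x ∧ ¬ dp ω y) ∨ (¬ dp ω x ∧ dp ω y)) ≤
        2 * (D x y / (Δ / (8 * β))))

open Classical in
/-- `n` rounds: `(pt ω x).1 < n` is the number of the first round in which `x` is deep, and
`pt ω x = (n, x0)` if there is none; `M ω z` is the weight of the cell `z`. -/
structure RecL {S : Type} [Fintype S] (D : S → S → ℝ) (β Δ : ℝ) (n : ℕ) (Ω : Type) [Fintype Ω]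
    (w : Ω → ℝ) (pt : Ω → S → ℕ × S) (M : Ω → ℕ × S → ℝ) : Prop where
  w0 : ∀ ω, 0 ≤ w ω
  w1 : ∑ ω, w ω = 1
  lt : ∀ ω x, (pt ω x).1 ≤ n
  diam : ∀ ω x y, (pt ω x).1 < n → pt ω x = pt ω y → D x y ≤ Δ
  Mn : ∀ ω z, 0 ≤ M ω z
  core : ∀ ω x, (pt ω x).1 < n →
    (nb D (Δ / (8 * β)) x : ℝ) ≤ 2 ^ ((pt ω x).1 + 1) * M ω (pt ω x)
  kraft : ∀ ω (v : Finset S), ∑ z ∈ (v.image (pt ω)).filter (fun z => z.1 < n), M ω z ≤
    (nbh D v Δ : ℝ)
  un : ∀ x, ∑ ω, w ω * ind ((pt ω x).1 = n) ≤ (1 / 4) ^ n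
  sep : ∀ x y, ∑ ω, w ω * ind (pt ω x ≠ pt ω y) ≤ 8 / 3 * (D x y / (Δ / (8 * β)))
  ix : ∀ x, ∑ ω, w ω * (((pt ω x).1 : ℝ) + 1) ≤ 4 / 3
  ixs : ∀ x y, ∑ ω, w ω * (ind (pt ω x ≠ pt ω y) * (((pt ω x).1 : ℝ) + 1)) ≤
    64 / 9 * (D x y / (Δ / (8 * β)))

/-- File Rec.lean, from `RndProp`. Induction on `n`. `n = 0`: `Ω = Unit`, `pt _ _ = (0, x0)`,
`M = 0`. Step: `Ω = Ω1 × Ω'` (`Ω1` the round of `RndProp`, `Ω'` from the induction
hypothesis), product weights,
`pt (a, b) x = if dp a x then (0, q a x) else ((pt' b x).1 + 1, (pt' b x).2)`,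
`M (a, b) (0, z) = #{y | q a y = z} / 2`, `M (a, b) (i+1, z) = M' b (i, z) / 2`.
`diam`: equal values have equal first components. `core`: if `dp a x` then the ball of radius
`r0 = Δ/(8β)` is contained in the cell (note `nb D r x` counts the `y` with `D y x ≤ r`), which has
`2 M` elements; otherwise induction. `kraft`: the part with `z.1 = 0` is contained in the image of
the cells of `q a` meeting `v`, their sizes have sum at most `nbh D v Δ` (disjoint, and a point in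
the cell of `x ∈ v` has distance at most `Δ` from `x`), divided by two; the part with
`z.1 = i + 1 < n + 1` is in bijection with a subset of the set for `pt' b`, which gives at most
`nbh / 2` by induction (the weights are nonnegative).
Expectations (product weights, `∑_(a,b) w a w' b F a H b = (∑ w F) (∑ w' H)`), `s = D x y / r0`:
`un`: `ind ≤ ind (¬ dp a x) ind ((pt' b x).1 = n)`.
`ix`: the variable is `1 + ind (¬ dp a x) ((pt' b x).1 + 1)`: `≤ 1 + 1/4 * 4/3`.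
If `s > 1` then `sep ≤ 1` and `ixs ≤ ix ≤ 4/3` suffice. Let `s ≤ 1`. If both are deep then `q a x = q a y`
(`RndProp` (4)), so with `o a` = exactly one deep:
`ind (pt x ≠ pt y) ≤ ind (o a) + ind (¬ dp a x) ind (pt' b x ≠ pt' b y)`, expectation
`≤ 2 s + 1/4 * 8/3 s = 8/3 s`; and
`ind (pt x ≠ pt y) ((pt x).1 + 1) ≤ ind (o a) (1 + ((pt' b x).1 + 1)) + ind (¬ dp a x) (ind (pt' b x ≠ pt' b y) + ind (pt' b x ≠ pt' b y) ((pt' b x).1 + 1))`,
expectation `≤ 2 s (1 + 4/3) + 1/4 (8/3 s + 64/9 s) = 64/9 s`. -/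
def RecProp : Prop :=
  ∀ (S : Type) [Fintype S] [Nonempty S] (D : S → S → ℝ) (β Δ : ℝ), PM D → 1 ≤ β → 0 < Δ →
    Pdd D β → ∀ n, ∃ (Ω : Type) (_ : Fintype Ω) (w : Ω → ℝ) (pt : Ω → S → ℕ × S)
    (M : Ω → ℕ × S → ℝ), RecL D β Δ n Ω w pt M

open Classical in
/-- The random partition of one level. -/
structure OneL {S : Type} [Fintype S] (D : S → S → ℝ) (β Δ : ℝ) (Ω : Type) [Fintype Ω]
    (w : Ω → ℝ) (pt : Ω → S → ℕ × S) (M : Ω → ℕ × S → ℝ) : Prop where
  w0 : ∀ ω, 0 ≤ w ω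
  w1 : ∑ ω, w ω = 1
  diam : ∀ ω x y, pt ω x = pt ω y → D x y ≤ Δ
  core : ∀ ω x, (nb D (Δ / (8 * β)) x : ℝ) ≤ 2 ^ ((pt ω x).1 + 1) * M ω (pt ω x)
  kraft : ∀ ω (v : Finset S), ∑ z ∈ v.image (pt ω), M ω z ≤ (nbh D v Δ : ℝ)
  close : ∀ ω x y, 100 * β * (Fintype.card S : ℝ) ^ 2 * D x y ≤ Δ → pt ω x = pt ω y
  ixm : ∀ ω x, (4 : ℝ) ^ ((pt ω x).1 + 1) ≤ 16 * Fintype.card S
  sep : ∀ x y, ∑ ω, w ω * ind (pt ω x ≠ pt ω y) ≤ 43 * β * D x y / Δ
  ix : ∀ x, ∑ ω, w ω * (((pt ω x).1 : ℝ) + 1) ≤ 8 / 3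
  ixs : ∀ x y, ∑ ω, w ω * (ind (pt ω x ≠ pt ω y) * (((pt ω x).1 : ℝ) + 1)) ≤
    114 * β * D x y / Δ

/-- File Cnd.lean, from `RecProp`. Let `m = card S ≥ 1`, `n` the least number with `4 m ≤ 4^n` (so
`4^n ≤ 16 m`). Good: `(pt ω x).1 < n` for all `x`, and `pt ω x = pt ω y` for all `x`, `y` with
`100 β m^2 D x y ≤ Δ`. The probability `P` of the complement is at most
`m (1/4)^n + ∑_{close x, y} 8/3 * 8 β D x y / Δ ≤ 1/4 + m^2 * 8/3 * 8 / (100 m^2) ≤ 1/2`. The new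
space is the subtype of the good `ω` with weights `w ω / P(good)`, `P(good) ≥ 1/2`, so that the
expectation of a nonnegative function is at most twice the old one
(`Finset.sum_subtype`, `Finset.sum_filter`). On the good `ω` all the elements of `v.image (pt ω)` have
first component `< n`. -/
def CndProp : Prop :=
  ∀ (S : Type) [Fintype S] [Nonempty S] (D : S → S → ℝ) (β Δ : ℝ), PM D → 1 ≤ β → 0 < Δ →
    Pdd D β → ∃ (Ω : Type) (_ : Fintype Ω) (w : Ω → ℝ) (pt : Ω → S → ℕ × S)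
    (M : Ω → ℕ × S → ℝ), OneL D β Δ Ω w pt M

/-! ## All levels -/

open Classical in
/-- Representative of the class of `x` at level `k`: the common refinement of the partitions
`p i`, `k ≤ i < h`. -/
noncomputable def rpo {S : Type} (p : ℕ → S → ℕ × S) (h k : ℕ) (x : S) : S :=
  if hh : ∃ y, ∀ i, k ≤ i → i < h → p i y = p i x then hh.choose else x

open Classical in
/-- The arms. -/
noncomputable def ao {S : Type} [Fintype S] (D : S → S → ℝ) (ρ : ℝ) (p : ℕ → S → ℕ × S)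
    (M : ℕ → ℕ × S → ℝ) (h k : ℕ) (z : S) : ℝ :=
  if k < h then Real.log (nbh D (Finset.univ.filter (fun y => rpo p h (k + 1) y =
    rpo p h (k + 1) z)) (4 ^ k * ρ)) - Real.log (M k (p k z)) else 0

open Classical in
/-- File Det.lean. `rpo k x = rpo k y` iff `p i x = p i y` for all `k ≤ i < h` (the predicates in the
definition are then equal; conversely compare with the chosen element, `Exists.choose_spec`);
in particular `p i (rpo k x) = p i x` for these `i`, `rpo k (rpo k x) = rpo k x`. Third claim: clear.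
`hier`: `nest` clear, `zero`: for `h = 0` by the bound `D ≤ 4^0 ρ` and the hypothesis on `ρ`, otherwise
`p 0 x = p 0 y`, `D x y ≤ 4^0 ρ`; `diam` for `k < h` from the hypothesis for `p k`, for `k = h` the bound
`D ≤ 4^h ρ`; `one`; `deg`: at most `card S` elements.
Let `k < h`, `v z = ` class of `z` of level `k + 1`. `M k (p k x) > 0` because `nb ≥ 1`.
`nonneg`: `M k (p k z)` is one of the (positive) terms of the sum in the Kraft hypothesis for
`v z`, so it is at most `nbh (v z)`.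
`kraft`: the elements `z` of the image satisfy `v z = v x` and `exp (- ao k z) = M k (p k z) / nbh (v x)`;
`z ↦ p k z` is injective on the image (if `p k z = p k z'` and `z`, `z'` are in the same class of
level `k + 1` then they are in the same class of level `k`, and both are representatives:
`z = rpo k z`). So the sum is at most `(∑ over (v x).image (p k) of M k) / nbh (v x) ≤ 1`.
Second claim: for `z = rpo k x`: `v z = v x`, `p k z = p k x`; a point `y` with `D x' y ≤ 4^k ρ`,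
`x' ∈ v x` has `D y x ≤ 4^k ρ + 4^(k+1) ρ` (`diam`), so `nbh (v x) ≤ nb (5 * 4^k ρ) x`, and
`log (M k (p k x)) ≥ log (nb (4^k ρ/(8β)) x) - ((p k x).1 + 1) log 2`.
`le`: by the second claim's estimate for `x = z` (here directly for `z`, not `rpo k z`):
`ao k z ≤ log (card S) + ((p k z).1 + 1) log 2`, and `((p k z).1+1) log 4 ≤ log (16 card S)`. So
`ao ≤ 3/2 log (card S) + 2 log 2 ≤ 2 log (card S) + 2`. -/
def DetProp : Prop :=
  ∀ (S : Type) [Fintype S] [Nonempty S] (D : S → S → ℝ) (β ρ : ℝ) (h : ℕ) (p : ℕ → S → ℕ × S)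
    (M : ℕ → ℕ × S → ℝ), PM D → 1 ≤ β → 0 < ρ → (∀ x y, D x y ≤ 4 ^ h * ρ) →
    (∀ x y, D x y ≤ ρ → D x y = 0) →
    (∀ k, k < h → (∀ x y, p k x = p k y → D x y ≤ 4 ^ k * ρ) ∧
      (∀ x, (nb D (4 ^ k * ρ / (8 * β)) x : ℝ) ≤ 2 ^ ((p k x).1 + 1) * M k (p k x)) ∧
      (∀ v : Finset S, ∑ z ∈ v.image (p k), M k z ≤ (nbh D v (4 ^ k * ρ) : ℝ)) ∧
      (∀ x, (4 : ℝ) ^ ((p k x).1 + 1) ≤ 16 * Fintype.card S)) →
    Arms D (rpo p h) (ao D ρ p M h) h ρ (2 * Real.log (Fintype.card S) + 2) ∧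
    (∀ k, k < h → ∀ x, ao D ρ p M h k (rpo p h k x) ≤
      Real.log (nb D (5 * (4 ^ k * ρ)) x) - Real.log (nb D (4 ^ k * ρ / (8 * β)) x) +
        Real.log 2 * (((p k x).1 : ℝ) + 1)) ∧
    (∀ k x y, rpo p h k x ≠ rpo p h k y → ∃ i, k ≤ i ∧ i < h ∧ p i x ≠ p i y)

/-- File Ind.lean. The levels are independent: on `(k : Fin h) → Ω k` with the product
weights, `E F(ω k) = E_k F` and, for `k ≠ k'`, `E F(ω k) F'(ω k') = E_k F * E_k' F'`
(`Finset.prod_univ_sum`: `∏ k, ∑ b, f k b = ∑ ω, ∏ k, f k (ω k)` with `f k = w k * F`,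
`f k' = w k' * F'`, `f = w` otherwise; `Fintype.piFinset_univ`). Write `I x = (pt k (ω k) x).1 + 1`
for the level `k`, `s` = the indicator of `pt k' (ω k') x ≠ pt k' (ω k') y`, `log 2 ≤ 0.6931472`.
(2) `A E s + log 2 (E (I x s) + E (I y s)) ≤ A 43 β D/(4^k' ρ) + 2 log 2 * 115 β D / (4^k' ρ)`, where
`E (I x s) ≤ 8/3 * 43 β D/(4^k' ρ)` for `k ≠ k'` and `≤ 114 β D/(4^k ρ)` for `k = k'` (for `y` use
the symmetry of `D` and of `≠`); `2 log 2 * 115 ≤ 160`. (3) `2 log 2 * 8/3 ≤ 4`. (4) `close`. -/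
def IndProp : Prop :=
  ∀ (S : Type) [Fintype S] (D : S → S → ℝ) (β ρ : ℝ) (h : ℕ) (Ω : Fin h → Type)
    [∀ k, Fintype (Ω k)] (w : (k : Fin h) → Ω k → ℝ) (pt : (k : Fin h) → Ω k → S → ℕ × S)
    (M : (k : Fin h) → Ω k → ℕ × S → ℝ), PM D → 1 ≤ β → 0 < ρ →
    (∀ k : Fin h, OneL D β (4 ^ (k : ℕ) * ρ) (Ω k) (w k) (pt k) (M k)) →
    (∀ ω : (k : Fin h) → Ω k, 0 ≤ ∏ k, w k (ω k)) ∧
    (∑ ω : (k : Fin h) → Ω k, ∏ k, w k (ω k) = 1) ∧
    (∀ (x y : S) (k k' : Fin h) (A : ℝ), 0 ≤ A →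
      ∑ ω : (k : Fin h) → Ω k, (∏ k, w k (ω k)) *
        ((A + Real.log 2 * (((pt k (ω k) x).1 : ℝ) + 1) +
          Real.log 2 * (((pt k (ω k) y).1 : ℝ) + 1)) *
            ind (pt k' (ω k') x ≠ pt k' (ω k') y)) ≤
        (43 * A + 160) * β * D x y / (4 ^ (k' : ℕ) * ρ)) ∧
    (∀ (x y : S) (k : Fin h) (A : ℝ), 0 ≤ A →
      ∑ ω : (k : Fin h) → Ω k, (∏ k, w k (ω k)) *
        (A + Real.log 2 * (((pt k (ω k) x).1 : ℝ) + 1) +
          Real.log 2 * (((pt k (ω k) y).1 : ℝ) + 1)) ≤ A + 4)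

/-- File Tel.lean. With `f k = log (nb D (4^k ρ/(8β)) x)` (monotone in `k`, `0 ≤ f ≤ log (card S)`)
and `s = ⌈logb 4 (40 β)⌉₊`: `5 * 4^k ρ ≤ 4^(k+s) ρ/(8β)`, so the term `k` is at most
`f (k + s) - f k`, and `∑_{k<h} (f (k+s) - f k) = ∑_{h ≤ k < h+s} f k - ∑_{k<s} f k ≤ s log (card S)`
(induction on `s` or `Finset.sum_range_...`); finally `s ≤ 1 + logb 4 (40 β)` and
`logb 4 (40 β) ≤ 2.67 + 0.73 log β`. -/
def TelProp : Prop :=
  ∀ (S : Type) [Fintype S] [Nonempty S] (D : S → S → ℝ) (β ρ : ℝ) (h : ℕ) (x : S), PM D →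
    1 ≤ β → 0 < ρ →
    (∀ k : ℕ, 0 ≤ Real.log (nb D (5 * (4 ^ k * ρ)) x) -
      Real.log (nb D (4 ^ k * ρ / (8 * β)) x) ∧
      Real.log (nb D (5 * (4 ^ k * ρ)) x) -
      Real.log (nb D (4 ^ k * ρ / (8 * β)) x) ≤ Real.log (Fintype.card S)) ∧
    ∑ k ∈ range h, (Real.log (nb D (5 * (4 ^ k * ρ)) x) -
      Real.log (nb D (4 ^ k * ρ / (8 * β)) x)) ≤
      (3.7 + 0.73 * Real.log β) * Real.log (Fintype.card S)

/-- File Num.lean. Pure real analysis. `d` is the distance of two sites, `α k` the sum of the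
two growth terms, `c = 100 β m^2`, `L = log m`. Bound the term `k` as follows.
(a) `4^k ρ < d`: by the first entry of the minimum, `4^(k+1) ρ (6 + 2 L)`; the sum over these
`k` is at most `4 * 4/3 * d (6 + 2 L)` (geometric series with largest term `4^k ρ < d`).
(b) `d ≤ 4^k ρ`: by the second entry: it is `0` if `4^k ρ ≥ c d` (then all the indicators
vanish), otherwise at most `4^(k+1) ρ (43 (2 + α k) + 160) β d * (4/3) / (4^k ρ)
 = 16/3 (43 (2 + α k) + 160) β d`. The number of the `k` with `d ≤ 4^k ρ < c d` is at most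
`logb 4 c + 1` (for two such `k < k'`: `4^(k'-k) < c`), and `∑ α k ≤ 2 (3.7 + 0.73 log β) L`. So
(b) is at most `β d (1312 (logb 4 c + 1) + 688/3 * 2 (3.7 + 0.73 log β) L)`, and
`logb 4 c = (log 100 + log β + 2 L) / log 4 ≤ 3.33 + 0.722 log β + 1.443 L`. Total at most
`5900 β (1 + log β) (1 + L) d`. -/
def NumProp : Prop :=
  ∀ (h m : ℕ) (ρ β d : ℝ) (α : ℕ → ℝ), 1 ≤ m → 0 < ρ → 1 ≤ β → 0 < d →
    (∀ k, 0 ≤ α k ∧ α k ≤ 2 * Real.log m) →
    ∑ k ∈ range h, α k ≤ 2 * (3.7 + 0.73 * Real.log β) * Real.log m →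
    ∑ k ∈ range h, 4 ^ (k + 1) * ρ * min (6 + α k)
      (∑ i ∈ Finset.Ico k h, ind (4 ^ i * ρ < 100 * β * (m : ℝ) ^ 2 * d) *
        ((43 * (2 + α k) + 160) * β * d / (4 ^ i * ρ))) ≤
      5900 * β * (1 + Real.log β) * (1 + Real.log m) * d

/-- File Ran.lean, from `CndProp`, `DetProp`, `IndProp`, `TelProp`, `NumProp`. If `D = 0` everywhere take
`h = 0`, `ρ = 1`; otherwise `ρ = dm / 2` for the smallest positive distance `dm`, and `h` with
`D ≤ 4^h ρ`. For `k : Fin h` take `Ω k` etc. from `CndProp` with `Δ = 4^k ρ`;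
`Ω = (k : Fin h) → Ω k`, product weights,
`p ω k = if hk : k < h then pt ⟨k, hk⟩ (ω ⟨k, hk⟩) else fun x => (0, x)`, similarly `M`;
`rp ω = rpo (p ω) h`, `a ω = ao D ρ (p ω) (M ω) h`. `Arms` by `DetProp`. Distortion, `d = D x y > 0` (if
`d = 0` then `p ω k x = p ω k y` for all `k < h` by `close`, so `rp ω k x = rp ω k y`): with
`α k` = the sum of the two growth terms of `TelProp` for `x` and `y`,
`V = 2 + α k + log 2 (..x..) + log 2 (..y..)`, the term `k` is at most `4^(k+1) ρ V`, and at most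
`4^(k+1) ρ ∑ i ∈ Ico k h, V ind (p ω i x ≠ p ω i y)`, where the indicator is zero if
`100 β m^2 d ≤ 4^i ρ` (`close`). By `IndProp` (with `A = 2 + α k`) the expectation of the term is at most
`4^(k+1) ρ` times the minimum in `NumProp`. -/
def RanProp : Prop :=
  ∀ (S : Type) [Fintype S] [Nonempty S] (D : S → S → ℝ) (β : ℝ), PM D → 1 ≤ β → Pdd D β →
    ∃ (h : ℕ) (ρ : ℝ) (Ω : Type) (_ : Fintype Ω) (w : Ω → ℝ) (rp : Ω → ℕ → S → S)
      (a : Ω → ℕ → S → ℝ), (∀ ω, 0 ≤ w ω) ∧ ∑ ω, w ω = 1 ∧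
      (∀ ω, Arms D (rp ω) (a ω) h ρ (2 * Real.log (Fintype.card S) + 2)) ∧
      ∀ x y, ∑ ω, w ω * ∑ k ∈ range h, 4 ^ (k + 1) * ρ *
          ((2 + a ω k (rp ω k x) + a ω k (rp ω k y)) * ind (rp ω k x ≠ rp ω k y)) ≤
        5900 * β * (1 + Real.log β) * (1 + Real.log (Fintype.card S)) * D x y

/-- File Asm.lean, from `RsProp`, `FamQProp`, `RanProp`. `Q = Fin h × S`, `H = h + eg Λ`,
`Λ = 2 L + 2`, `L = log (card S)`; the distortion is at most `16/3 * 5900 ≤ 31500` times ...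
`R1 R2 + 2 = 8 (1 + m0 Λ) (m0 Λ + 4) + 2` with `m0 Λ = 4 + logb 2 (1 + L)`,
`logb 2 t ≤ 1.443 log t`; so it is at most `322 (1 + u)^2`, `u = log (1 + L) ≥ 0`. -/
def AsmProp : Prop :=
  ∀ (S : Type) [Fintype S] [DecidableEq S] [Nonempty S] (D : S → S → ℝ) (β : ℝ), PM D → 1 ≤ β →
    Pdd D β → RF D (322 * (1 + Real.log (1 + Real.log (Fintype.card S))) ^ 2)
      (31500 * β * (1 + Real.log β) * (1 + Real.log (Fintype.card S)))

/-- File Four.lean. Tree metrics (four point condition). Fix `o : S`, `t x = D o x`,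
`gp x y = (D o x + D o y - D x y) / 2`. The four point condition for `x, z, y, o` gives
`min (gp x y) (gp y z) ≤ gp x z`. Let `dm > 0` be a lower bound of the positive distances, `W = Δ/2`,
`Gp ≥ W/dm` an integer `≥ 1`. For `a : Fin Gp` (uniform weights) let `s = W a / Gp`,
`b x = ⌊(t x + s) / W⌋₊` and let `x ~ y` iff `b x = b y` and `b x * W - s ≤ gp x y`: an equivalence
relation (`gp x x = t x`; transitivity by the inequality above); `q a x` = chosen
representative. Diameter: `D x y = t x + t y - 2 gp x y ≤ 2 W = Δ`.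
Padding: if `r < dm` (or `r = 0`) and `D x y ≤ r` then `D x y = 0`, `t x = t y`, `gp x y = t x`, so `x ~ y`. Let
`r ≥ dm`, `D x y ≤ r`, not `x ~ y`. Then some integer `b` satisfies `t x - r < b W - s ≤ t x + r`:
otherwise `b y = b x =: b` (because `t y ∈ [t x - r, t x + r]`) and `b W - s ≤ t x - r ≤ gp x y` (as
`b W - s ≤ t x`). With `n = b Gp - a` (an integer; different `a` give different `n` because
`n ≡ -a mod Gp`): `(t x - r) Gp/W < n ≤ (t x + r) Gp/W`, at most `2 r Gp/W + 1` integers. So the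
probability is at most `2 r/W + 1/Gp ≤ 3 r/W = 6 r/Δ`. -/
def FourProp : Prop :=
  ∀ (S : Type) [Fintype S] [Nonempty S] (D : S → S → ℝ), PM D →
    (∀ x y z w, D x y + D z w ≤ max (D x z + D y w) (D x w + D y z)) → Pdd D 6

end Pool.Agent.MP_a4c1f4_lc.Pad
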