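import Pool.Agent.Lib.MP_a4c1f4_lc.Pad.Spec

set_option linter.all false

/-!
One real sum.
-/

namespace Pool.Agent.MP_a4c1f4_lc.Pad

open Finset Pool.Agent.MP_a4c1f4_lc Pool.Agent.MP_a4c1f4_lc.Dbl

namespace SumMM

theorem geo (n : ℕ) : ∑ i ∈ range n, ((1 : ℝ) / 2) ^ i ≤ 2 := by
  rw [geom_sum_eq (by norm_num)]
  have : (0 : ℝ) ≤ (1 / 2) ^ n := by positivity
  have h2 : ((1 : ℝ) / 2) ^ n ≤ 1 := pow_le_one₀ (by norm_num) (by norm_num)
  rw [div_le_iff_of_neg (by norm_num)]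
  linarith

theorem main (n p : ℕ) (M : ℝ) (hM : 0 ≤ M) (hp : M ≤ 2 ^ p) :
    ∑ i ∈ range n, min 1 (M / 2 ^ i) ≤ (p : ℝ) + 2 := by
  have h0 : ∀ i : ℕ, 0 ≤ min 1 (M / 2 ^ i) := fun i => le_min zero_le_one (by positivity)
  calc ∑ i ∈ range n, min 1 (M / 2 ^ i)
      ≤ ∑ i ∈ range (p + n), min 1 (M / 2 ^ i) :=
        Finset.sum_le_sum_of_subset_of_nonneg (by
          intro i hi
          rw [mem_range] at *
          omega) (fun i _ _ => h0 i)
    _ = ∑ i ∈ range p, min 1 (M / 2 ^ i) + ∑ i ∈ range n, min 1 (M / 2 ^ (p + i)) :=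
        Finset.sum_range_add _ _ _
    _ ≤ ∑ i ∈ range p, (1 : ℝ) + ∑ i ∈ range n, ((1 : ℝ) / 2) ^ i := by
        apply add_le_add
        · exact Finset.sum_le_sum fun i _ => min_le_left _ _
        · apply Finset.sum_le_sum
          intro i _
          refine le_trans (min_le_right _ _) ?_
          rw [pow_add, ← div_div, div_eq_mul_one_div (M / 2 ^ p), one_div_pow]
          have h1 : M / 2 ^ p ≤ 1 := (div_le_one (by positivity)).2 hp
          have h2 : (0 : ℝ) ≤ 1 / 2 ^ i := by positivity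
          nlinarith
    _ ≤ (p : ℝ) + 2 := by
        have := geo n
        simp only [Finset.sum_const, card_range, nsmul_eq_mul, mul_one]
        linarith

end SumMM

theorem sumMP : SumMProp := by
  intro n Λ hΛ
  have hM1 : (1 : ℝ) ≤ max 1 Λ := le_max_left _ _
  have hl : 0 ≤ Real.logb 2 (max 1 Λ) := Real.logb_nonneg (by norm_num) hM1
  have h1 : Real.logb 2 (max 1 Λ) < (⌊Real.logb 2 (max 1 Λ)⌋₊ : ℝ) + 1 := Nat.lt_floor_add_one _
  have h2 : max 1 Λ ≤ 2 ^ (⌊Real.logb 2 (max 1 Λ)⌋₊ + 1) := by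
    have h3 := (Real.logb_lt_iff_lt_rpow (by norm_num : (1 : ℝ) < 2)
      (lt_of_lt_of_le one_pos hM1)).1 h1
    refine le_trans h3.le (le_of_eq ?_)
    rw [← Real.rpow_natCast]
    push_cast
    rfl
  have h3 := SumMM.main n _ _ (le_trans zero_le_one hM1) h2
  have h4 : (⌊Real.logb 2 (max 1 Λ)⌋₊ : ℝ) ≤ Real.logb 2 (max 1 Λ) := Nat.floor_le hl
  calc ∑ i ∈ range n, min 1 (Λ / 2 ^ i) ≤ ∑ i ∈ range n, min 1 (max 1 Λ / 2 ^ i) := by
        apply Finset.sum_le_sum
        intro i _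
        apply min_le_min le_rfl
        apply div_le_div_of_nonneg_right (le_max_right _ _) (by positivity)
    _ ≤ _ := h3
    _ ≤ m0 Λ := by
        unfold m0
        push_cast
        linarith

end Pool.Agent.MP_a4c1f4_lc.Pad
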