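import Pool.Agent.Lib.MP_a4c1f4_lc.Pad.Spec

set_option linter.all false

namespace Pool.Agent.MP_a4c1f4_lc.Pad

open Finset Pool.Agent.MP_a4c1f4_lc Pool.Agent.MP_a4c1f4_lc.Dbl

namespace TelM

theorem nb_mono {S : Type} [Fintype S] (D : S → S → ℝ) {R R' : ℝ} (h : R ≤ R')
    (x : S) : (nb D R x : ℝ) ≤ (nb D R' x : ℝ) := by
  classical
  have : nb D R x ≤ nb D R' x := by
    unfold nb
    refine Finset.card_le_card fun w hw => ?_
    rw [Finset.mem_filter] at hw ⊢
    exact ⟨hw.1, hw.2.trans h⟩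
  exact_mod_cast this

theorem one_le_nb {S : Type} [Fintype S] {D : S → S → ℝ} (hD : PM D) {R : ℝ}
    (h : 0 < R) (x : S) : (1 : ℝ) ≤ (nb D R x : ℝ) := by
  classical
  have : 1 ≤ nb D R x := by
    unfold nb
    rw [Nat.one_le_iff_ne_zero, Ne, Finset.card_eq_zero]
    refine Finset.nonempty_iff_ne_empty.1 ⟨x, ?_⟩
    rw [Finset.mem_filter]
    exact ⟨Finset.mem_univ _, by rw [hD.self]; exact h.le⟩
  exact_mod_cast this

theorem nb_le {S : Type} [Fintype S] (D : S → S → ℝ) (R : ℝ) (x : S) :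
    (nb D R x : ℝ) ≤ (Fintype.card S : ℝ) := by
  classical
  have : nb D R x ≤ Fintype.card S := by
    unfold nb
    exact Finset.card_le_univ _
  exact_mod_cast this

theorem log_nb_mono {S : Type} [Fintype S] {D : S → S → ℝ} (hD : PM D) {R R' : ℝ} (h0 : 0 < R)
    (h : R ≤ R') (x : S) : Real.log (nb D R x) ≤ Real.log (nb D R' x) := by
  have h1 := one_le_nb hD h0 x
  exact Real.log_le_log (by linarith) (nb_mono D h x)

theorem log_nb_nonneg {S : Type} [Fintype S] {D : S → S → ℝ} (hD : PM D) {R : ℝ} (h0 : 0 < R)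
    (x : S) : 0 ≤ Real.log (nb D R x) :=
  Real.log_nonneg (one_le_nb hD h0 x)

theorem log_nb_le {S : Type} [Fintype S] {D : S → S → ℝ} (hD : PM D) {R : ℝ} (h0 : 0 < R)
    (x : S) : Real.log (nb D R x) ≤ Real.log (Fintype.card S) := by
  have h1 := one_le_nb hD h0 x
  exact Real.log_le_log (by linarith) (nb_le D R x)

theorem tele (f : ℕ → ℝ) (L : ℝ) (h s : ℕ) (h0 : ∀ k, 0 ≤ f k) (hL : ∀ k, f k ≤ L) :
    ∑ k ∈ range h, (f (k + s) - f k) ≤ s * L := by
  have e1 : ∑ k ∈ range (s + h), f k = ∑ k ∈ range s, f k + ∑ k ∈ range h, f (s + k) :=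
    Finset.sum_range_add f s h
  have e2 : ∑ k ∈ range (h + s), f k = ∑ k ∈ range h, f k + ∑ k ∈ range s, f (h + k) :=
    Finset.sum_range_add f h s
  have e3 : ∑ k ∈ range h, f (k + s) = ∑ k ∈ range h, f (s + k) :=
    Finset.sum_congr rfl (fun k _ => by rw [add_comm])
  have e4 : ∑ k ∈ range s, f (h + k) ≤ s * L := by
    have := Finset.sum_le_card_nsmul (range s) (fun k => f (h + k)) L (fun k _ => hL _)
    rwa [Finset.card_range, nsmul_eq_mul] at this
  have e5 : 0 ≤ ∑ k ∈ range s, f k := Finset.sum_nonneg (fun k _ => h0 k)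
  rw [Finset.sum_sub_distrib, e3]
  rw [add_comm s h] at e1
  linarith

theorem logb_bound (β : ℝ) (hβ : 1 ≤ β) :
    (⌈Real.logb 4 (40 * β)⌉₊ : ℝ) ≤ 3.7 + 0.73 * Real.log β := by
  have hl2 : 0.6931471803 < Real.log 2 := Real.log_two_gt_d9
  have hl4 : Real.log 4 = 2 * Real.log 2 := by
    rw [show (4 : ℝ) = 2 ^ 2 by norm_num, Real.log_pow]; norm_num
  have hl5 : 5 * Real.log 5 ≤ 12 * Real.log 2 := by
    have h1 : Real.log ((5 : ℝ) ^ 5) ≤ Real.log ((2 : ℝ) ^ 12) :=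
      Real.log_le_log (by norm_num) (by norm_num)
    rw [Real.log_pow, Real.log_pow] at h1
    exact_mod_cast h1
  have hl40 : Real.log 40 = 3 * Real.log 2 + Real.log 5 := by
    rw [show (40 : ℝ) = 2 ^ 3 * 5 by norm_num, Real.log_mul (by norm_num) (by norm_num),
      Real.log_pow]; norm_num
  have hβ0 : 0 ≤ Real.log β := Real.log_nonneg hβ
  have hpos : 0 < Real.log 4 := by rw [hl4]; linarith
  have hx : Real.logb 4 (40 * β) ≤ 2.7 + 0.73 * Real.log β := by
    unfold Real.logb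
    rw [div_le_iff₀ hpos, Real.log_mul (by norm_num) (by linarith), hl4, hl40]
    nlinarith
  have hx0 : 0 ≤ Real.logb 4 (40 * β) := by
    apply Real.logb_nonneg (by norm_num)
    nlinarith
  have := Nat.ceil_lt_add_one hx0
  linarith

theorem four_pow (β : ℝ) (hβ : 1 ≤ β) : 40 * β ≤ 4 ^ ⌈Real.logb 4 (40 * β)⌉₊ := by
  have h40 : 0 < 40 * β := by linarith
  have h := Nat.le_ceil (Real.logb 4 (40 * β))
  have h2 : (4 : ℝ) ^ (Real.logb 4 (40 * β)) ≤ (4 : ℝ) ^ ((⌈Real.logb 4 (40 * β)⌉₊ : ℕ) : ℝ) :=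
    Real.rpow_le_rpow_of_exponent_le (by norm_num) h
  rw [Real.rpow_logb (by norm_num) (by norm_num) h40, Real.rpow_natCast] at h2
  exact h2

end TelM

theorem telP : TelProp := by
  intro S _ _ D β ρ h x hD hβ hρ
  have hcard : (1 : ℝ) ≤ (Fintype.card S : ℝ) := by
    exact_mod_cast Fintype.card_pos
  have hL : 0 ≤ Real.log (Fintype.card S : ℝ) := Real.log_nonneg hcard
  have hβ0 : 0 < β := by linarith
  have hpos1 : ∀ k : ℕ, 0 < (4 : ℝ) ^ k * ρ / (8 * β) := fun k => by positivity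
  have hpos2 : ∀ k : ℕ, 0 < 5 * ((4 : ℝ) ^ k * ρ) := fun k => by positivity
  refine ⟨fun k => ⟨?_, ?_⟩, ?_⟩
  · have : (4 : ℝ) ^ k * ρ / (8 * β) ≤ 5 * (4 ^ k * ρ) := by
      rw [div_le_iff₀ (by positivity)]
      have hp : 0 < (4 : ℝ) ^ k * ρ := by positivity
      nlinarith
    have := TelM.log_nb_mono hD (hpos1 k) this x
    linarith
  · have h1 := TelM.log_nb_nonneg hD (hpos1 k) x
    have h2 := TelM.log_nb_le hD (hpos2 k) x
    linarith
  · set s : ℕ := ⌈Real.logb 4 (40 * β)⌉₊ with hs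
    have h4 : 40 * β ≤ 4 ^ s := TelM.four_pow β hβ
    have hb := TelM.logb_bound β hβ
    rw [← hs] at hb
    have hterm : ∀ k ∈ range h, (Real.log (nb D (5 * (4 ^ k * ρ)) x) -
        Real.log (nb D (4 ^ k * ρ / (8 * β)) x)) ≤
        (fun k : ℕ => Real.log (nb D (4 ^ k * ρ / (8 * β)) x)) (k + s) -
        (fun k : ℕ => Real.log (nb D (4 ^ k * ρ / (8 * β)) x)) k := by
      intro k _
      have : 5 * ((4 : ℝ) ^ k * ρ) ≤ 4 ^ (k + s) * ρ / (8 * β) := by
        rw [le_div_iff₀ (by positivity), pow_add]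
        have hp : 0 < (4 : ℝ) ^ k * ρ := by positivity
        nlinarith
      have := TelM.log_nb_mono hD (hpos2 k) this x
      dsimp only
      linarith
    refine (Finset.sum_le_sum hterm).trans ?_
    refine (TelM.tele (fun k : ℕ => Real.log (nb D (4 ^ k * ρ / (8 * β)) x))
      (Real.log (Fintype.card S)) h s (fun k => TelM.log_nb_nonneg hD (hpos1 k) x)
      (fun k => TelM.log_nb_le hD (hpos1 k) x)).trans ?_
    exact mul_le_mul_of_nonneg_right hb hL

end Pool.Agent.MP_a4c1f4_lc.Pad
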